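import Mathlib
import Pool.Agent.Lib.P0c8ca5V.TFin
import Pool.Agent.Lib.P0c8ca5V.NRp
import Pool.Agent.Lib.P0c8ca5O.CntW

/-!
# Powers of order a power of p

* `PJ p N j`: `j` is prime to `N` and `j ^ p ^ n = 1` modulo the p'-part of `N` for some `n`.
* `RatC p x`: `x` is conjugate to `x ^ j` for all `j` whose order modulo `orderOf x` is a power of `p`.
* `RI p m`: `m (x ^ j) = m x` for p-regular `x` and all such `j`.
* `tw j z`: the element of the group algebra with the coefficient `z (x ^ j)` at `x`.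
-/

namespace Pool.Agent.Lib.P0c8ca5.Rc

open MonoidAlgebra

/-- the exponents of p-power order modulo the p'-part of `N` -/
def PJ (p N j : ℕ) : Prop := N.Coprime j ∧ ∃ n : ℕ, j ^ p ^ n ≡ 1 [MOD ordCompl[p] N]

section
variable {A : Type*} [Group A]

/-- `x` is conjugate to `x ^ j` for all `j` whose order modulo `orderOf x` is a power of `p` -/
def RatC (p : ℕ) (x : A) : Prop :=
  ∀ j : ℕ, (∃ n : ℕ, j ^ p ^ n ≡ 1 [MOD orderOf x]) → IsConj x (x ^ j)

/-- functions invariant under the powers of p-power order -/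
def RI (p : ℕ) (m : A → ℤ) : Prop :=
  ∀ x, Preg p x → ∀ j : ℕ, (∃ n : ℕ, j ^ p ^ n ≡ 1 [MOD orderOf x]) → m (x ^ j) = m x

/-- the twist by the power `j` -/
noncomputable def tw [Finite A] {k : Type*} [Field k] (j : ℕ) (z : MonoidAlgebra k A) :
    MonoidAlgebra k A :=
  MonoidAlgebra.ofCoeff (Finsupp.equivFunOnFinite.symm fun x => z.coeff (x ^ j))

theorem tw_coeff [Finite A] {k : Type*} [Field k] (j : ℕ) (z : MonoidAlgebra k A) (x : A) :
    (tw j z).coeff x = z.coeff (x ^ j) := rfl

end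

end Pool.Agent.Lib.P0c8ca5.Rc
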