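import Mathlib
import Pool.Agent.Lib.P0c8ca5Rc.Defs

/-!
# Lf: lifting exponents

PROOF. `PJ_lift`: choose (Dirichlet or CRT; `Nat.forall_exists_prime_gt_and_modEq` or elementary: the p'-part etc.) `i0` prime to `N` with `i0 ≡ j [MOD M]` (`j` is prime to `M` because `j ^ p ^ n ≡ 1`; e.g. a prime `i0 > N` with `i0 ≡ j [MOD M]`). Let `t` be the p'-part of
`φ (ordCompl[p] N)` (`Nat.totient`), and `s` with `s ≡ 1 [MOD p ^ n]`, `s ≡ 0 [MOD t]`, `s ≠ 0` (CRT, `t` prime to `p`). `i = i0 ^ s`: `i ≡ j ^ s ≡ j [MOD M]` because `j ^ p ^ n ≡ 1 [MOD M]`; `i ^ p ^ a = i0 ^ (s * p ^ a)` with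
`φ (ordCompl[p] N) ∣ t * p ^ a` for large `a`, so `≡ 1` modulo `ordCompl[p] N` (`Nat.ModEq.pow_totient`).
`ratC_iff`: `→`: for `PJ p (Nat.card A) j` and `x` p-regular `orderOf x ∣ ordCompl[p] (Nat.card A)`, so `j ^ p ^ n ≡ 1 [MOD orderOf x]`. `←`: lift `j` (`M = orderOf x`, `N = Nat.card A`) to `i`, `x ^ i = x ^ j` (`pow_eq_pow_iff_modEq`). `RI_iff` the same.
-/

namespace Pool.Agent.Lib.P0c8ca5.Rc

namespace LfAux

theorem ord_dvd {p : ℕ} [Fact p.Prime] {A : Type*} [Group A] [Finite A] {x : A}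
    (hx : Preg p x) : orderOf x ∣ ordCompl[p] (Nat.card A) := by
  have hp : p.Prime := Fact.out
  have h1 : orderOf x ∣ ordProj[p] (Nat.card A) * ordCompl[p] (Nat.card A) := by
    rw [Nat.ordProj_mul_ordCompl_eq_self]
    exact orderOf_dvd_natCard x
  exact (Nat.Coprime.pow_right _ ((Nat.Prime.coprime_iff_not_dvd hp).2 hx).symm).dvd_of_dvd_mul_left
    h1

end LfAux

theorem PJ_lift {p : ℕ} [Fact p.Prime] {M N j : ℕ} (hMN : M ∣ N) (hN : N ≠ 0) (hpM : ¬ p ∣ M)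
    (hj : ∃ n : ℕ, j ^ p ^ n ≡ 1 [MOD M]) : ∃ i : ℕ, PJ p N i ∧ i ≡ j [MOD M] := by
  have _ := hpM
  have hp : p.Prime := Fact.out
  obtain ⟨n, hn⟩ := hj
  have : NeZero N := ⟨hN⟩
  have hjM : Nat.Coprime j M := by
    have h1 : Nat.Coprime (j ^ p ^ n) M := by
      have h2 := hn.gcd_eq
      rw [Nat.gcd_one_left] at h2
      exact h2
    exact (Nat.coprime_pow_left_iff (pow_pos hp.pos n) j M).1 h1
  obtain ⟨u, hu⟩ := ZMod.unitsMap_surjective hMN (ZMod.unitOfCoprime j hjM)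
  have hi0 : Nat.Coprime (u : ZMod N).val N := ZMod.val_coe_unit_coprime u
  have hi0M : (((u : ZMod N).val : ℕ) : ZMod M) = (j : ZMod M) := by
    have h1 := congrArg (fun w : (ZMod M)ˣ => (w : ZMod M)) hu
    simp only [ZMod.unitsMap_val, ZMod.coe_unitOfCoprime] at h1
    rw [ZMod.natCast_val]
    exact h1
  generalize (u : ZMod N).val = i0 at hi0 hi0M
  have hF : Nat.totient N ≠ 0 := (Nat.totient_pos.2 (Nat.pos_of_ne_zero hN)).ne'
  have hcop : Nat.Coprime (p ^ n) (ordCompl[p] (Nat.totient N)) :=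
    Nat.Coprime.pow_left n (Nat.coprime_ordCompl hp hF)
  obtain ⟨s, hs1, hs0⟩ := Nat.chineseRemainder hcop 1 0
  refine ⟨i0 ^ s, ⟨Nat.Coprime.pow_right s hi0.symm, (Nat.totient N).factorization p, ?_⟩, ?_⟩
  · obtain ⟨r, hr⟩ := (Nat.modEq_zero_iff_dvd).1 hs0
    have h1 : i0 ^ Nat.totient N ≡ 1 [MOD N] := Nat.ModEq.pow_totient hi0
    have h2 : (i0 ^ s) ^ p ^ (Nat.totient N).factorization p = (i0 ^ Nat.totient N) ^ r := by
      rw [← pow_mul, ← pow_mul]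
      congr 1
      conv_rhs => rw [← Nat.ordProj_mul_ordCompl_eq_self (Nat.totient N) p]
      rw [hr]
      ring
    have h3 : (i0 ^ s) ^ p ^ (Nat.totient N).factorization p ≡ 1 [MOD N] := by
      rw [h2]
      have := h1.pow r
      rwa [one_pow] at this
    exact h3.of_dvd (Nat.ordCompl_dvd N p)
  · rw [← ZMod.natCast_eq_natCast_iff]
    rw [Nat.cast_pow, hi0M]
    have h4 : (j : ZMod M) ^ p ^ n = 1 := by
      have h5 := (ZMod.natCast_eq_natCast_iff _ _ _).2 hn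
      rwa [Nat.cast_pow, Nat.cast_one] at h5
    rw [pow_eq_pow_of_modEq hs1 h4, pow_one]

theorem ratC_iff {p : ℕ} [Fact p.Prime] {A : Type*} [Group A] [Finite A] {x : A}
    (hx : Preg p x) : RatC p x ↔ ∀ j : ℕ, PJ p (Nat.card A) j → IsConj x (x ^ j) := by
  have hd := LfAux.ord_dvd hx
  constructor
  · rintro h j ⟨_, n, hn⟩
    exact h j ⟨n, hn.of_dvd hd⟩
  · intro h j hj
    obtain ⟨i, hi, hij⟩ := PJ_lift (p := p) (orderOf_dvd_natCard x) Nat.card_pos.ne' hx hj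
    rw [← pow_eq_pow_iff_modEq.2 hij]
    exact h i hi

theorem RI_iff {p : ℕ} [Fact p.Prime] {A : Type*} [Group A] [Finite A] {m : A → ℤ} :
    RI p m ↔ ∀ x, Preg p x → ∀ j : ℕ, PJ p (Nat.card A) j → m (x ^ j) = m x := by
  constructor
  · rintro h x hx j ⟨_, n, hn⟩
    exact h x hx j ⟨n, hn.of_dvd (LfAux.ord_dvd hx)⟩
  · intro h x hx j hj
    obtain ⟨i, hi, hij⟩ := PJ_lift (p := p) (orderOf_dvd_natCard x) Nat.card_pos.ne' hx hj
    rw [← pow_eq_pow_iff_modEq.2 hij]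
    exact h x hx i hi

/-- exponents for a group act on the blocks of a smaller one -/
theorem PJ_dvd {p : ℕ} [Fact p.Prime] {M N j : ℕ} (h : PJ p N j) (hMN : M ∣ N) (hN : N ≠ 0) :
    PJ p M j := by
  have _ := hN
  obtain ⟨h1, n, hn⟩ := h
  exact ⟨Nat.Coprime.coprime_dvd_left hMN h1, n,
    hn.of_dvd (Nat.ordCompl_dvd_ordCompl_of_dvd hMN p)⟩

theorem PJ_mul {p N i j : ℕ} (hi : PJ p N i) (hj : PJ p N j) : PJ p N (i * j) := by
  obtain ⟨h1, n, hn⟩ := hi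
  obtain ⟨h2, m, hm⟩ := hj
  refine ⟨Nat.Coprime.mul_right h1 h2, n + m, ?_⟩
  have e : (i * j) ^ p ^ (n + m) = (i ^ p ^ n) ^ p ^ m * (j ^ p ^ m) ^ p ^ n := by
    rw [mul_pow, ← pow_mul, ← pow_mul, ← pow_add, ← pow_add, Nat.add_comm m n]
  rw [e]
  have h3 := (hn.pow (p ^ m)).mul (hm.pow (p ^ n))
  rwa [one_pow, one_pow, one_mul] at h3

end Pool.Agent.Lib.P0c8ca5.Rc
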