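import Mathlib
import Pool.Agent.Lib.P0c8ca5V.GalA
import Pool.Agent.Lib.P0c8ca5Rc.Defs

/-!
# Cp: the twist is an automorphism of the center

PROOF. `conv_powk`: for integer valued class functions this is `GalA.conv_pow` (P0c8ca5V.GalA); both sides are bilinear in `(f, g)`, and a class function with values in `k` is a linear combination of (casts of) indicator functions of conjugacy classes
(`f x = ∑ X : ConjClasses G, f X.out * [x ∈ X]`). `tw_mul`: the coefficient of `z * w` at `a ^ j` resp. of `tw j z * tw j w` at `a` by `GalA.mul_coeff` (or `coeff_mul_fin`) and `conv_powk`. `tw_blk`: `b` is a block of the whole group: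
central idempotent `≠ 0`, primitive (see `IsBlock`); if `i * j ≡ 1` modulo `|A|` then `tw i (tw j z) = z` (`tw_tw`, `tw_one_mod`), so `tw j` is an automorphism of the algebra of central elements and carries primitive idempotents to primitive idempotents.
-/

namespace Pool.Agent.Lib.P0c8ca5.Rc

open MonoidAlgebra

variable {k : Type*} [Field k] {A : Type*} [Group A]

namespace CpAux

open Classical in
/-- the indicator function of a conjugacy class -/
noncomputable def ind (X : ConjClasses A) (x : A) : ℤ := if ConjClasses.mk x = X then 1 else 0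

theorem ind_conj (X : ConjClasses A) (c x : A) : ind X (c * x * c⁻¹) = ind X x := by
  have h : ConjClasses.mk (c * x * c⁻¹) = ConjClasses.mk x :=
    ConjClasses.mk_eq_mk_iff_isConj.2 (isConj_iff.2 ⟨c, rfl⟩).symm
  unfold ind
  rw [h]

theorem expand [Fintype (ConjClasses A)] {f : A → k} (hf : ∀ c x, f (c * x * c⁻¹) = f x) (x : A) :
    f x = ∑ X : ConjClasses A, f (Quotient.out X) * ((ind X x : ℤ) : k) := by
  rw [Finset.sum_eq_single (ConjClasses.mk x)]
  · have h1 : ConjClasses.mk (Quotient.out (ConjClasses.mk x)) = ConjClasses.mk x :=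
      Quotient.out_eq _
    obtain ⟨c, hc⟩ := isConj_iff.1 (ConjClasses.mk_eq_mk_iff_isConj.1 h1)
    rw [← hf c (Quotient.out (ConjClasses.mk x)), hc]
    unfold ind
    rw [if_pos rfl, Int.cast_one, mul_one]
  · intro X _ hX
    unfold ind
    rw [if_neg (fun h => hX h.symm), Int.cast_zero, mul_zero]
  · intro h; exact absurd (Finset.mem_univ _) h

end CpAux

open CpAux in
theorem conv_powk [Fintype A] {j : ℕ} (hj : (Nat.card A).Coprime j) {f g : A → k}
    (hf : ∀ c x, f (c * x * c⁻¹) = f x) (hg : ∀ c x, g (c * x * c⁻¹) = g x) (a : A) :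
    ∑ x, f (x ^ j) * g ((x⁻¹ * a) ^ j) = ∑ x, f x * g (x⁻¹ * a ^ j) := by
  classical
  have _ : Fintype (ConjClasses A) := Fintype.ofFinite _
  have gen : ∀ u v : A → A, ∑ x, f (u x) * g (v x)
      = ∑ X : ConjClasses A, ∑ Y : ConjClasses A, f (Quotient.out X) * g (Quotient.out Y)
        * (((∑ x, ind X (u x) * ind Y (v x) : ℤ)) : k) := by
    intro u v
    have h1 : ∀ x, f (u x) * g (v x) = ∑ X : ConjClasses A, ∑ Y : ConjClasses A,
        f (Quotient.out X) * g (Quotient.out Y)
          * (((ind X (u x) * ind Y (v x) : ℤ)) : k) := by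
      intro x
      rw [expand hf (u x), expand hg (v x), Finset.sum_mul_sum]
      refine Finset.sum_congr rfl fun X _ => Finset.sum_congr rfl fun Y _ => ?_
      push_cast
      ring
    rw [Finset.sum_congr rfl fun x _ => h1 x, Finset.sum_comm]
    refine Finset.sum_congr rfl fun X _ => ?_
    rw [Finset.sum_comm]
    refine Finset.sum_congr rfl fun Y _ => ?_
    rw [← Finset.mul_sum, Int.cast_sum]
  rw [gen (fun x => x ^ j) (fun x => (x⁻¹ * a) ^ j), gen (fun x => x) (fun x => x⁻¹ * a ^ j)]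
  refine Finset.sum_congr rfl fun X _ => Finset.sum_congr rfl fun Y _ => ?_
  rw [GalA.conv_pow hj (ind_conj X) (ind_conj Y) a]

variable [Finite A]

namespace CpAux

omit [Finite A] in
theorem conj_of_mem {z : MonoidAlgebra k A} (hz : z ∈ fixAlg k (⊤ : Subgroup A) ⊤) (c x : A) :
    z.coeff (c * x * c⁻¹) = z.coeff x :=
  invBy_iff_commute.2 hz.2 c (Subgroup.mem_top c) x

omit [Finite A] in
theorem mem_of_conj {z : MonoidAlgebra k A} (hz : ∀ c x, z.coeff (c * x * c⁻¹) = z.coeff x) :
    z ∈ fixAlg k (⊤ : Subgroup A) ⊤ :=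
  ⟨fun x _ => Subgroup.mem_top x, invBy_iff_commute.1 fun c _ x => hz c x⟩

end CpAux

theorem tw_mem {j : ℕ} {z : MonoidAlgebra k A} (hz : z ∈ fixAlg k (⊤ : Subgroup A) ⊤) :
    tw j z ∈ fixAlg k (⊤ : Subgroup A) ⊤ := by
  refine CpAux.mem_of_conj fun c x => ?_
  rw [tw_coeff, tw_coeff, conj_pow, CpAux.conj_of_mem hz]

theorem tw_add (j : ℕ) (z w : MonoidAlgebra k A) : tw j (z + w) = tw j z + tw j w := by
  ext x
  rfl

theorem tw_smul (j : ℕ) (c : k) (z : MonoidAlgebra k A) : tw j (c • z) = c • tw j z := by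
  ext x
  rfl

theorem tw_tw (i j : ℕ) (z : MonoidAlgebra k A) : tw i (tw j z) = tw (i * j) z := by
  ext x
  rw [tw_coeff, tw_coeff, tw_coeff, pow_mul]

theorem tw_modEq {i j : ℕ} (h : i ≡ j [MOD Nat.card A]) (z : MonoidAlgebra k A) :
    tw i z = tw j z := by
  ext x
  rw [tw_coeff, tw_coeff]
  have : x ^ i = x ^ j := by
    rw [pow_eq_pow_iff_modEq]
    exact h.of_dvd (orderOf_dvd_natCard x)
  rw [this]

theorem tw_one (z : MonoidAlgebra k A) : tw 1 z = z := by
  ext x
  rw [tw_coeff, pow_one]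

theorem tw_mul {j : ℕ} (hj : (Nat.card A).Coprime j) {z w : MonoidAlgebra k A}
    (hz : z ∈ fixAlg k (⊤ : Subgroup A) ⊤) (hw : w ∈ fixAlg k (⊤ : Subgroup A) ⊤) :
    tw j (z * w) = tw j z * tw j w := by
  classical
  have _ : Fintype A := Fintype.ofFinite A
  ext a
  rw [tw_coeff, GalA.mul_coeff, GalA.mul_coeff]
  exact (conv_powk hj (f := fun x => z.coeff x) (g := fun x => w.coeff x)
    (CpAux.conj_of_mem hz) (CpAux.conj_of_mem hw) a).symm

theorem tw_blk {j : ℕ} (hj : (Nat.card A).Coprime j) {b : MonoidAlgebra k A}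
    (hb : IsBlock (⊤ : Subgroup A) b) : IsBlock (⊤ : Subgroup A) (tw j b) := by
  have h0 : Nat.card A ≠ 0 := Nat.card_pos.ne'
  obtain ⟨i, hi⟩ : ∃ i : ℕ, i * j ≡ 1 [MOD Nat.card A] := by
    rcases Nat.lt_or_ge 1 (Nat.card A) with h1 | h1
    · obtain ⟨i, -, hi⟩ := Nat.exists_mul_mod_eq_one_of_coprime hj.symm h1
      refine ⟨i, ?_⟩
      rw [mul_comm]
      exact hi.trans (Nat.mod_eq_of_lt h1).symm
    · refine ⟨1, ?_⟩
      have h2 : Nat.card A = 1 := by omega
      rw [h2]
      exact Nat.modEq_one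
  have hiA : (Nat.card A).Coprime i := by
    have h1 : (Nat.card A).Coprime (i * j) := by
      rw [Nat.coprime_iff_gcd_eq_one, Nat.gcd_comm, hi.gcd_eq, Nat.gcd_one_left]
    exact Nat.Coprime.coprime_mul_right_right h1
  have hij : ∀ z : MonoidAlgebra k A, tw i (tw j z) = z := by
    intro z
    rw [tw_tw, tw_modEq hi, tw_one]
  have hji : ∀ z : MonoidAlgebra k A, tw j (tw i z) = z := by
    intro z
    rw [tw_tw, mul_comm, tw_modEq hi, tw_one]
  refine ⟨tw_mem hb.mem, ?_, ?_, ?_⟩
  · rw [← tw_mul hj hb.mem hb.mem, hb.idem]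
  · intro h
    apply hb.ne_zero
    rw [← hij b, h]
    ext x
    rfl
  · intro f hf hff hfb
    have hfi : tw i f ∈ fixAlg k (⊤ : Subgroup A) ⊤ := tw_mem hf
    have h1 : tw i f * tw i f = tw i f := by rw [← tw_mul hiA hf hf, hff]
    have h2 : tw i f * b = tw i f := by
      conv_lhs => rw [← hij b]
      rw [← tw_mul hiA hf (tw_mem hb.mem), hfb]
    rcases hb.prim _ hfi h1 h2 with h | h
    · left
      rw [← hji f, h]
      ext x
      rfl
    · right
      rw [← hji f, h]

end Pool.Agent.Lib.P0c8ca5.Rc
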