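import Mathlib
import Pool.Agent.Lib.P0c8ca5Rc.Cp

/-!
# TrT: the twist and the functionals

PROOF. `trE_tw`: `trE k ⊤ z = ∑ X, ∑ y, [y * X.out is conjugate to X.out] z y` (P0c8ca5V.R2b). For a class `X` with `x = X.out` apply `conv_powk` with `f y = z y⁻¹` (a class function), `g w = [w is conjugate to x ^ j]`, `a = x`: `∑ y, z (y ^ j) [y x ~ x] = ∑ y, z y [y x ^ j ~ x ^ j]`
[`(y x) ^ j ~ x ^ j ↔ y x ~ x` because `j` is prime to `|A|`]; sum over the classes, `X ↦ X ^ j` is a bijection of the classes. `trL_tw`: the same with `g w = [pr p w ~ x ^ j]` and the p-regular classes (`pr p (w ^ j) = (pr p w) ^ j`).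
`hpe_tw`: `x ^ j` is a p-element iff `x` is. `proj_tw`: `proj Q z` has the coefficient `∑ c over y, z c` at `y ∈ N(Q)/Q` (P0c8ca5V / library); for p-regular `y` the map `c ↦ c ^ j` is a bijection from the p-regular elements over `y` onto those over `y ^ j`
(inverse: the power `i`, `i j ≡ 1` modulo `|A|`); both sides vanish if `y` is not p-regular. `WQ_tw`: `hpe * proj Q (tw j z) = tw j (hpe * proj Q z)` by `proj_tw`, `hpe_tw`, `tw_mul` in `N(Q)/Q` (its order divides `|A|`), and `trE_tw`.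
`Lam_tw`: sum. `gap_tw`: `Lam_blk`, `gap_gp` (P0c8ca5V.TFin). `l_tw`: `trL_blk` (P0c8ca5V.TLs).
-/

namespace Pool.Agent.Lib.P0c8ca5.Rc

open MonoidAlgebra TFinAux

namespace TrTAux

section
variable {k : Type*} [Field k] {A : Type*} [Group A] [Fintype A]

omit [Fintype A] in
theorem pow_inj {j : ℕ} (hj : (Nat.card A).Coprime j) {x y : A} (h : x ^ j = y ^ j) : x = y :=
  (powCoprime hj).injective h

omit [Fintype A] in
theorem pel_pow' {p j : ℕ} (hj : (Nat.card A).Coprime j) (x : A) : Pel p (x ^ j) ↔ Pel p x := by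
  unfold Pel
  refine exists_congr fun n => ?_
  rw [← pow_mul, mul_comm, pow_mul]
  constructor
  · intro h
    exact pow_inj hj (by rw [h, one_pow])
  · intro h
    rw [h, one_pow]

theorem exists_pow_inv {j : ℕ} (hj : (Nat.card A).Coprime j) : ∃ i : ℕ, ∀ y : A, (y ^ j) ^ i = y := by
  refine ⟨j ^ ((Nat.card A).totient - 1), fun y => ?_⟩
  have h1 : 0 < (Nat.card A).totient := Nat.totient_pos.2 Nat.card_pos
  have h2 : j ^ (Nat.card A).totient ≡ 1 [MOD Nat.card A] := Nat.ModEq.pow_totient hj.symm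
  rw [← pow_mul, ← pow_succ', Nat.sub_add_cancel h1]
  conv_rhs => rw [← pow_one y]
  rw [pow_eq_pow_iff_modEq]
  exact h2.of_dvd (orderOf_dvd_natCard y)

open Classical in
theorem sum_cls {j : ℕ} (hj : (Nat.card A).Coprime j) {P : A → Prop} (hPj : ∀ x, P x → P (x ^ j))
    {T : A → k} (hT : ∀ g x, T (g * x * g⁻¹) = T x) :
    ∑ᶠ X : Cl (⊤ : Subgroup A) P, T ((X.out : A) ^ j)
      = ∑ᶠ X : Cl (⊤ : Subgroup A) P, T (X.out : A) := by
  set σ : Cl (⊤ : Subgroup A) P → Cl (⊤ : Subgroup A) P := fun X =>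
    Quotient.mk _ ⟨(X.out : A) ^ j, hPj _ X.out.2⟩ with hσ
  have hinj : Function.Injective σ := by
    intro X Y h
    obtain ⟨g, hg, e⟩ := Quotient.exact h
    change (Y.out : A) ^ j = g * (X.out : A) ^ j * g⁻¹ at e
    rw [← conj_pow] at e
    have e1 := pow_inj hj e
    rw [← Quotient.out_eq X, ← Quotient.out_eq Y]
    exact Quotient.sound ⟨g, hg, e1⟩
  have hbij : Function.Bijective σ := Finite.injective_iff_bijective.1 hinj
  refine Eq.trans ?_ (finsum_comp_equiv (Equiv.ofBijective σ hbij)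
    (f := fun X : Cl (⊤ : Subgroup A) P => T (X.out : A)))
  refine finsum_congr fun X => ?_
  obtain ⟨g, _, e⟩ := InCl_out_conj (M := (⊤ : Subgroup A)) (P := P) (Y := σ X)
    (a := (X.out : A) ^ j) ⟨hPj _ X.out.2, rfl⟩
  change T ((X.out : A) ^ j) = T ((σ X).out : A)
  rw [e, hT]

open Classical in
theorem sum_loc {j : ℕ} (hj : (Nat.card A).Coprime j) {z : MonoidAlgebra k A}
    (hz : z ∈ fixAlg k (⊤ : Subgroup A) ⊤) {φ : A → A} (hφj : ∀ x, φ (x ^ j) = φ x ^ j)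
    (hφc : ∀ g x, φ (g * x * g⁻¹) = g * φ x * g⁻¹) (a : A) :
    ∑ y : A, (if y ∈ (⊤ : Subgroup A) ∧ ∃ h ∈ (⊤ : Subgroup A), φ (y * a) = h * a * h⁻¹
        then (tw j z).coeff y else 0)
      = ∑ y : A, if y ∈ (⊤ : Subgroup A) ∧ ∃ h ∈ (⊤ : Subgroup A),
          φ (y * a ^ j) = h * a ^ j * h⁻¹ then z.coeff y else 0 := by
  have hinv := (mem_fixAlg.1 hz).2
  have h1 := conv_powk hj (f := fun x => z.coeff x⁻¹)
    (g := fun w => if ∃ h ∈ (⊤ : Subgroup A), φ w = h * a ^ j * h⁻¹ then (1 : k) else 0)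
    (fun c x => by
      have e : (c * x * c⁻¹)⁻¹ = c * x⁻¹ * c⁻¹ := by group
      change z.coeff (c * x * c⁻¹)⁻¹ = z.coeff x⁻¹
      rw [e]
      exact hinv c (Subgroup.mem_top _) _)
    (fun c x => by
      refine if_congr ?_ rfl rfl
      rw [hφc]
      constructor
      · rintro ⟨h, _, e⟩
        refine ⟨c⁻¹ * h, Subgroup.mem_top _, ?_⟩
        have e2 : φ x = c⁻¹ * (c * φ x * c⁻¹) * c := by group
        rw [e2, e]
        group
      · rintro ⟨h, _, e⟩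
        refine ⟨c * h, Subgroup.mem_top _, ?_⟩
        rw [e]
        group) a
  rw [← Equiv.sum_comp (Equiv.inv A)] at h1
  conv_rhs at h1 => rw [← Equiv.sum_comp (Equiv.inv A)]
  refine Eq.trans ?_ (Eq.trans h1 ?_)
  · refine Finset.sum_congr rfl fun y _ => ?_
    simp only [Equiv.inv_apply, inv_inv, inv_pow]
    rw [tw_coeff]
    have e : (y ∈ (⊤ : Subgroup A) ∧ ∃ h ∈ (⊤ : Subgroup A), φ (y * a) = h * a * h⁻¹) ↔
        ∃ h ∈ (⊤ : Subgroup A), φ ((y * a) ^ j) = h * a ^ j * h⁻¹ := by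
      constructor
      · rintro ⟨_, h, hh, e⟩
        refine ⟨h, hh, ?_⟩
        rw [hφj, e, conj_pow]
      · rintro ⟨h, hh, e⟩
        refine ⟨Subgroup.mem_top _, h, hh, ?_⟩
        rw [hφj, ← conj_pow] at e
        exact pow_inj hj e
    by_cases h2 : ∃ h ∈ (⊤ : Subgroup A), φ ((y * a) ^ j) = h * a ^ j * h⁻¹
    · rw [if_pos (e.2 h2), if_pos h2, mul_one]
    · rw [if_neg (fun h3 => h2 (e.1 h3)), if_neg h2, mul_zero]
  · refine Finset.sum_congr rfl fun y _ => ?_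
    simp only [Equiv.inv_apply, inv_inv]
    by_cases h2 : ∃ h ∈ (⊤ : Subgroup A), φ (y * a ^ j) = h * a ^ j * h⁻¹
    · rw [if_pos h2, if_pos ⟨Subgroup.mem_top _, h2⟩, mul_one]
    · rw [if_neg h2, if_neg (fun h3 => h2 h3.2), mul_zero]

open Classical in
theorem tr_gen {j : ℕ} (hj : (Nat.card A).Coprime j) {z : MonoidAlgebra k A}
    (hz : z ∈ fixAlg k (⊤ : Subgroup A) ⊤) {P : A → Prop} (hPj : ∀ x, P x → P (x ^ j))
    {φ : A → A} (hφj : ∀ x, φ (x ^ j) = φ x ^ j)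
    (hφc : ∀ g x, φ (g * x * g⁻¹) = g * φ x * g⁻¹) :
    ∑ᶠ X : Cl (⊤ : Subgroup A) P, ∑ y : A,
      (if y ∈ (⊤ : Subgroup A) ∧ ∃ h ∈ (⊤ : Subgroup A),
        φ (y * (X.out : A)) = h * (X.out : A) * h⁻¹ then (tw j z).coeff y else 0)
      = ∑ᶠ X : Cl (⊤ : Subgroup A) P, ∑ y : A,
      if y ∈ (⊤ : Subgroup A) ∧ ∃ h ∈ (⊤ : Subgroup A),
        φ (y * (X.out : A)) = h * (X.out : A) * h⁻¹ then z.coeff y else 0 := by
  have hinv := (mem_fixAlg.1 hz).2
  rw [← sum_cls hj hPj (T := fun a => ∑ y : A, if y ∈ (⊤ : Subgroup A) ∧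
    ∃ h ∈ (⊤ : Subgroup A), φ (y * a) = h * a * h⁻¹ then z.coeff y else 0)]
  · exact finsum_congr fun X => sum_loc hj hz hφj hφc _
  · intro g a
    rw [← Equiv.sum_comp (MulAut.conj g).toEquiv]
    refine Finset.sum_congr rfl fun y _ => ?_
    have e1 : (MulAut.conj g).toEquiv y = g * y * g⁻¹ := rfl
    have e2 : g * y * g⁻¹ * (g * a * g⁻¹) = g * (y * a) * g⁻¹ := by group
    rw [e1, e2, hφc, hinv g (Subgroup.mem_top _)]
    refine if_congr ?_ rfl rfl
    constructor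
    · rintro ⟨_, h, _, e⟩
      refine ⟨Subgroup.mem_top _, g⁻¹ * h * g, Subgroup.mem_top _, ?_⟩
      have e3 : φ (y * a) = g⁻¹ * (g * φ (y * a) * g⁻¹) * g := by group
      rw [e3, e]
      group
    · rintro ⟨_, h, _, e⟩
      refine ⟨Subgroup.mem_top _, g * h * g⁻¹, Subgroup.mem_top _, ?_⟩
      rw [e]
      group

end

end TrTAux

open TrTAux

section
variable {p : ℕ} {k : Type*} [Field k] {A : Type*} [Group A] [Fintype A]

theorem trE_tw {j : ℕ} (hj : (Nat.card A).Coprime j) {z : MonoidAlgebra k A}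
    (hz : z ∈ fixAlg k (⊤ : Subgroup A) ⊤) :
    trE k (⊤ : Subgroup A) (fun x => (tw j z).coeff x)
      = trE k (⊤ : Subgroup A) (fun x => z.coeff x) :=
  tr_gen hj hz (P := fun x => x ∈ (⊤ : Subgroup A)) (fun _ _ => Subgroup.mem_top _)
    (φ := fun x => x) (fun _ => rfl) (fun _ _ => rfl)

theorem trL_tw [Fact p.Prime] {j : ℕ} (hj : (Nat.card A).Coprime j) {z : MonoidAlgebra k A}
    (hz : z ∈ fixAlg k (⊤ : Subgroup A) ⊤) :
    trL k p (⊤ : Subgroup A) (fun x => (tw j z).coeff x)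
      = trL k p (⊤ : Subgroup A) (fun x => z.coeff x) :=
  tr_gen hj hz (P := fun x => x ∈ (⊤ : Subgroup A) ∧ Preg p x)
    (fun x hx => ⟨Subgroup.mem_top _, fun h => hx.2 (h.trans (orderOf_pow_dvd j))⟩)
    (φ := fun x => pr p x) (fun x => by
      unfold pr
      rw [← pow_mul, ← pow_mul, mul_comm]) (fun g x => pr_conj g x)

theorem hpe_tw {j : ℕ} (hj : (Nat.card A).Coprime j) : tw j (hpe p k A) = hpe p k A := by
  classical
  ext x
  rw [tw_coeff, hpe_coeff, hpe_coeff]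
  exact if_congr (pel_pow' hj x) rfl rfl

theorem proj_tw [Fact p.Prime] {j : ℕ} (hj : (Nat.card A).Coprime j) {Q : Subgroup A}
    (hQ : IsPGroup p Q) {z : MonoidAlgebra k A} (hz : ∀ x, z.coeff x ≠ 0 → Preg p x) :
    proj Q (tw j z) = tw j (proj Q z) := by
  classical
  ext w
  obtain ⟨n, hn, rfl⟩ := qm_surj w
  have hnj : n ^ j ∈ Subgroup.normalizer (Q : Set A) :=
    (Subgroup.normalizer (Q : Set A)).pow_mem hn j
  have h1 : (qm Q n hn) ^ j = qm Q (n ^ j) hnj := rfl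
  rw [tw_coeff, h1, coeff_proj, coeff_proj]
  refine Fintype.sum_equiv (powCoprime hj) _ _ ?_
  intro x
  have key : ∀ (i : ℕ) (a b : A), a ∈ Subgroup.normalizer (Q : Set A) → a⁻¹ * b ∈ Q →
      (a ^ i)⁻¹ * b ^ i ∈ Q := by
    intro i a b ha hab
    have hb : b ∈ Subgroup.normalizer (Q : Set A) := by
      have := (Subgroup.normalizer (Q : Set A)).mul_mem ha (Subgroup.le_normalizer hab)
      rwa [mul_inv_cancel_left] at this
    have h2 : qm Q a ha = qm Q b hb := qm_eq_iff.2 hab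
    have h3 : qm Q (a ^ i) ((Subgroup.normalizer (Q : Set A)).pow_mem ha i)
        = qm Q (b ^ i) ((Subgroup.normalizer (Q : Set A)).pow_mem hb i) := by
      change (qm Q a ha) ^ i = (qm Q b hb) ^ i
      rw [h2]
    exact qm_eq_iff.1 h3
  obtain ⟨i, hi⟩ := exists_pow_inv hj
  have h2 : n⁻¹ * x ∈ Q ↔ (n ^ j)⁻¹ * x ^ j ∈ Q := by
    refine ⟨key j n x hn, fun h => ?_⟩
    have h3 := key i _ _ hnj h
    rwa [hi, hi] at h3
  change (if n⁻¹ * x ∈ Q then (tw j z).coeff x else 0)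
    = if (n ^ j)⁻¹ * x ^ j ∈ Q then z.coeff (x ^ j) else 0
  rw [tw_coeff]
  exact if_congr h2 rfl rfl

theorem WQ_tw [Fact p.Prime] {j : ℕ} (hj : (Nat.card A).Coprime j) {Q : Subgroup A}
    (hQ : IsPGroup p Q) {z : MonoidAlgebra k A} (hz : z ∈ fixAlg k (⊤ : Subgroup A) ⊤)
    (hr : ∀ x, z.coeff x ≠ 0 → Preg p x) : WQ p Q (tw j z) = WQ p Q z := by
  unfold WQ
  let _ : Fintype (NQ Q) := Fintype.ofFinite _
  have hj' : (Nat.card (NQ Q)).Coprime j := by
    refine hj.coprime_dvd_left ?_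
    exact (Subgroup.card_quotient_dvd_card _).trans (Subgroup.card_subgroup_dvd_card _)
  have h1 : proj Q z ∈ fixAlg k (⊤ : Subgroup (NQ Q)) ⊤ := proj_mem hz
  have h2 : hpe p k (NQ Q) * proj Q (tw j z) = tw j (hpe p k (NQ Q) * proj Q z) := by
    rw [proj_tw hj hQ hr, tw_mul hj' hpe_mem h1, hpe_tw hj']
  rw [h2]
  exact trE_tw hj' ((fixAlg k (⊤ : Subgroup (NQ Q)) ⊤).mul_mem hpe_mem h1)

theorem Lam_tw [Fact p.Prime] [CharP k p] {j : ℕ} (hj : (Nat.card A).Coprime j)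
    {z : MonoidAlgebra k A} (hz : z ∈ fixAlg k (⊤ : Subgroup A) ⊤)
    (hr : ∀ x, z.coeff x ≠ 0 → Preg p x) : Lam p (tw j z) = Lam p z := by
  unfold Lam
  rw [trL_tw hj hz, Finset.sum_congr rfl (fun Q hQ => WQ_tw hj (mem_TT hQ) hz hr)]

end

section
variable {p : ℕ} [Fact p.Prime] {k : Type*} [Field k] [IsAlgClosed k] [CharP k p]
  {A : Type*} [Group A] [Finite A]

theorem gap_tw {j : ℕ} (hj : (Nat.card A).Coprime j) {b : MonoidAlgebra k A}
    (hb : IsBlock (⊤ : Subgroup A) b) :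
    ∃ t : ℤ, gap p (⊤ : Subgroup A) ⊤ (tw j b) = gap p (⊤ : Subgroup A) ⊤ b + (p : ℚ) * t := by
  let _ : Fintype A := Fintype.ofFinite A
  have hb' := tw_blk hj hb
  have h1 : Lam p (tw j b) = Lam p b :=
    Lam_tw hj hb.mem (fun x hx => osima (p := p) hb.mem hb.idem hx)
  rw [Lam_blk hb', Lam_blk hb] at h1
  have h2 : (((gp p (tw j b) - gp p b : ℤ)) : k) = 0 := by
    push_cast
    rw [h1, sub_self]
  obtain ⟨t, ht⟩ := (CharP.intCast_eq_zero_iff k p _).1 h2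
  refine ⟨t, ?_⟩
  rw [gap_gp hb', gap_gp hb]
  have h3 : gp p (tw j b) = gp p b + (p : ℤ) * t := by rw [← ht]; ring
  rw [h3]
  push_cast
  rfl

theorem l_tw {j : ℕ} (hj : (Nat.card A).Coprime j) {b : MonoidAlgebra k A}
    (hb : IsBlock (⊤ : Subgroup A) b) :
    Nat.card (Quotient (irrInvSetoid (⊤ : Subgroup A) ⊥ (tw j b)))
      ≡ Nat.card (Quotient (irrInvSetoid (⊤ : Subgroup A) ⊥ b)) [MOD p] := by
  let _ : Fintype A := Fintype.ofFinite A
  have hb' := tw_blk hj hb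
  have h1 := trL_tw (p := p) hj hb.mem
  rw [trL_blk hb'.mem hb'.idem, trL_blk hb.mem hb.idem, card_irr_eq, card_irr_eq] at h1
  exact (CharP.natCast_eq_natCast k p).1 h1

end

end Pool.Agent.Lib.P0c8ca5.Rc
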