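import Mathlib
import Pool.Agent.Lib.P0c8ca5V.Quo
import Pool.Agent.Lib.P0c8ca5V.RelW
import Pool.Agent.Lib.P0c8ca5Rc.Lf
import Pool.Agent.Lib.P0c8ca5Rc.TrT

/-!
# Bi: invariant blocks and invariant weights

PROOF. `gap_of_RI`: `b` is invariant under conjugation and under the powers `j` with `PJ p |A| j`, and vanishes outside the p-regular elements (`osima`). Hence the indicator functions of the sets `{x | b x = c}`, `c ≠ 0`, are in `IsWt p ⊤` and `RI p` (`RI_iff`), and
`b = ∑ c, c • zel k (1_{b = c})`. `Lam_zel` and `h`: `Lam p (zel k 1_{b = c}) = 0` (as in `R1`, P0c8ca5V.TFin), so `Lam p b = 0` (`Lam_sum`, `Lam_smul`), and `Lam_blk`, `gap_gp` give the result.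
`WFam_RI`: `wt`: clear. `sub`: `IsWt_dn`; `RI`: orders of elements in `↥U` and `G` agree. `mb`: `mb_isWt` (P0c8ca5V.Quo) and: for p-regular `y ∈ N(Q)/Q` the p-regular `c` over `y` have `orderOf c ∣ orderOf y` (`c ^ orderOf y ∈ Q` is a p-element and p-regular), so for `j ^ p ^ n ≡ 1 [MOD orderOf y]`
`m (c ^ j) = m c`, and `c ↦ c ^ j` is a bijection from the p-regular elements over `y` onto those over `y ^ j` (inverse: the power `i = j ^ (p ^ n - 1)`).
-/

namespace Pool.Agent.Lib.P0c8ca5.Rc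

open MonoidAlgebra TFinAux

universe u v

namespace BiAux

open QuoAux

open Classical in
/-- the indicator function of a level set -/
noncomputable def lev {A : Type*} [Group A] {k : Type*} [Field k] (b : MonoidAlgebra k A) (c : k)
    (x : A) : ℤ := if b.coeff x = c then 1 else 0

theorem eq_sum_lev {A : Type*} [Group A] [Fintype A] {k : Type*} [Field k] [DecidableEq k]
    (b : MonoidAlgebra k A) :
    b = ∑ c ∈ (Finset.univ.image fun x => b.coeff x).filter (fun c => c ≠ 0),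
      c • zel k (lev b c) := by
  classical
  have h1 : ∀ (S : Finset k) (x : A), (∑ c ∈ S, c • zel k (lev b c)).coeff x
      = ∑ c ∈ S, c * ((lev b c x : ℤ) : k) := by
    intro S x
    induction S using Finset.induction_on with
    | empty => rfl
    | insert a S ha ih =>
      rw [Finset.sum_insert ha, Finset.sum_insert ha, ← ih]
      rfl
  ext x
  rw [h1]
  by_cases hx : b.coeff x = 0
  · rw [hx]
    symm
    refine Finset.sum_eq_zero (fun c hc => ?_)
    rw [Finset.mem_filter] at hc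
    have h2 : lev b c x = 0 := if_neg (fun h => hc.2 (by rw [← h, hx]))
    rw [h2, Int.cast_zero, mul_zero]
  · rw [Finset.sum_eq_single (b.coeff x)]
    · have h2 : lev b (b.coeff x) x = 1 := if_pos rfl
      rw [h2, Int.cast_one, mul_one]
    · intro c _ hc
      have h2 : lev b c x = 0 := if_neg (fun h => hc h.symm)
      rw [h2, Int.cast_zero, mul_zero]
    · intro h
      exact absurd (Finset.mem_filter.2 ⟨Finset.mem_image.2 ⟨x, Finset.mem_univ _, rfl⟩, hx⟩) h

/-- a p-regular element whose image in the quotient by a p-group has order `o` -/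
theorem pow_one_of {p : ℕ} [Fact p.Prime] {B C : Type*} [Group B] [Group C] {f : B →* C}
    (hf : IsPGroup p f.ker) {c : B} (hc : Preg p c) {o : ℕ} (ho : (f c) ^ o = 1) : c ^ o = 1 := by
  have h1 : c ^ o ∈ f.ker := by rw [MonoidHom.mem_ker, map_pow, ho]
  obtain ⟨k, hk⟩ := hf ⟨c ^ o, h1⟩
  have h2 : (c ^ o) ^ p ^ k = 1 := by
    have h3 := congrArg Subtype.val hk
    exact h3
  have h4 : orderOf (c ^ o) ∣ p ^ k := orderOf_dvd_of_pow_eq_one h2
  have h5 : orderOf (c ^ o) ∣ orderOf c := orderOf_pow_dvd o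
  have h6 : (orderOf (c ^ o)).Coprime (p ^ k) := by
    refine Nat.Coprime.pow_right k ?_
    rw [Nat.coprime_comm]
    exact (Nat.Prime.coprime_iff_not_dvd (Fact.out : p.Prime)).2 (fun h => hc (h.trans h5))
  exact orderOf_eq_one_iff.1 (h6.eq_one_of_dvd h4)

theorem pow_pow_self {B : Type*} [Group B] {c : B} {o i j : ℕ} (hc : c ^ o = 1)
    (hij : j * i ≡ 1 [MOD o]) : (c ^ j) ^ i = c := by
  rw [← pow_mul]
  have h1 : c ^ (j * i) = c ^ 1 := by
    rw [pow_eq_pow_iff_modEq]
    exact hij.of_dvd (orderOf_dvd_of_pow_eq_one hc)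
  rw [h1, pow_one]

open Classical in
theorem mb_reg {p : ℕ} [Fact p.Prime] {A : Type*} [Group A] [Fintype A] (Q : Subgroup A)
    {m : A → ℤ} (hm : IsWt p ⊤ m) (y : NQ Q) :
    mb Q m y = ∑ c ∈ Finset.univ.filter
      (fun c : ↥(Subgroup.normalizer (Q : Set A)) => pim Q c = y ∧ Preg p c), m c := by
  rw [mb_sum, Finset.sum_filter]
  refine Finset.sum_congr rfl (fun c _ => ?_)
  by_cases h1 : Preg p c
  · exact if_congr (by simp only [h1, and_true]) rfl rfl
  · have h2 : m c = 0 := by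
      by_contra h
      exact h1 ((preg_coe' c).1 (hm.reg _ h))
    rw [h2, ite_self, ite_self]

theorem mb_RI {p : ℕ} [Fact p.Prime] {A : Type*} [Group A] [Finite A] {Q : Subgroup A}
    (hQ : IsPGroup p Q) {m : A → ℤ} (hm : IsWt p ⊤ m) (hr : RI p m) : RI p (mb Q m) := by
  classical
  have := Fintype.ofFinite A
  intro y _ j ⟨n, hn⟩
  obtain ⟨i, hi⟩ : ∃ i, i = j ^ (p ^ n - 1) := ⟨_, rfl⟩
  have hpn : 1 ≤ p ^ n := Nat.one_le_pow _ _ (Fact.out : p.Prime).pos
  have hji : j * i ≡ 1 [MOD orderOf y] := by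
    have h1 : j * i = j ^ p ^ n := by
      rw [hi, ← pow_succ', Nat.sub_add_cancel hpn]
    rw [h1]
    exact hn
  have hij : i * j ≡ 1 [MOD orderOf y] := by rwa [mul_comm]
  have hk := pim_ker_p (p := p) hQ
  rw [mb_reg Q hm, mb_reg Q hm]
  symm
  have ho1 : ∀ c : ↥(Subgroup.normalizer (Q : Set A)), pim Q c = y → Preg p c →
      c ^ orderOf y = 1 := fun c hc hp => pow_one_of hk hp (by rw [hc, pow_orderOf_eq_one])
  have ho2 : ∀ c : ↥(Subgroup.normalizer (Q : Set A)), pim Q c = y ^ j → Preg p c →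
      c ^ orderOf y = 1 := fun c hc hp => pow_one_of hk hp (by
        rw [hc, ← pow_mul, mul_comm, pow_mul, pow_orderOf_eq_one, one_pow])
  refine Finset.sum_nbij' (fun c => c ^ j) (fun c => c ^ i) ?_ ?_ ?_ ?_ ?_
  · intro c hc
    rw [Finset.mem_filter] at hc ⊢
    refine ⟨Finset.mem_univ _, by rw [map_pow, hc.2.1], ?_⟩
    exact fun hd => hc.2.2 (hd.trans (orderOf_pow_dvd j))
  · intro c hc
    rw [Finset.mem_filter] at hc ⊢
    refine ⟨Finset.mem_univ _, ?_, ?_⟩
    · rw [map_pow, hc.2.1]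
      exact pow_pow_self (pow_orderOf_eq_one y) hji
    · exact fun hd => hc.2.2 (hd.trans (orderOf_pow_dvd i))
  · intro c hc
    rw [Finset.mem_filter] at hc
    exact pow_pow_self (ho1 c hc.2.1 hc.2.2) hji
  · intro c hc
    rw [Finset.mem_filter] at hc
    exact pow_pow_self (ho2 c hc.2.1 hc.2.2) hij
  · intro c hc
    rw [Finset.mem_filter] at hc
    have h1 : orderOf (c : A) ∣ orderOf y := by
      rw [Subgroup.orderOf_coe]
      exact orderOf_dvd_of_pow_eq_one (ho1 c hc.2.1 hc.2.2)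
    have h2 := hr (c : A) ((preg_coe' c).2 hc.2.2) j ⟨n, hn.of_dvd h1⟩
    rw [Subgroup.coe_pow]
    exact h2.symm

end BiAux

open BiAux

theorem gap_of_RI {p : ℕ} [Fact p.Prime] {k : Type*} [Field k] [IsAlgClosed k] [CharP k p]
    {A : Type*} [Group A] [Finite A] {b : MonoidAlgebra k A} (hb : IsBlock (⊤ : Subgroup A) b)
    (hinv : ∀ j : ℕ, PJ p (Nat.card A) j → tw j b = b)
    (h : ∀ m : A → ℤ, IsWt p ⊤ m → RI p m →
      (p : ℤ) * (Nat.card A : ℤ) ∣ nL p (⊤ : Subgroup A) m - wS p m) :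
    ∃ t : ℤ, gap p (⊤ : Subgroup A) ⊤ b = (p : ℚ) * t := by
  classical
  let _ : Fintype A := Fintype.ofFinite A
  have hA : (Nat.card A : ℤ) ≠ 0 := by exact_mod_cast (Nat.card_pos (α := A)).ne'
  have hwt : ∀ c : k, c ≠ 0 → IsWt p (⊤ : Subgroup A) (lev b c) := by
    intro c hc
    constructor
    · intro g hg x
      have h1 : b.coeff (g * x * g⁻¹) = b.coeff x := hb.invBy g hg x
      unfold lev
      rw [h1]
    · intro x hx
      refine osima hb.mem hb.idem (x := x) (fun h0 => hx ?_)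
      exact if_neg (fun h1 => hc (by rw [← h1, h0]))
  have hRI : ∀ c : k, RI p (lev b c) := by
    intro c
    rw [RI_iff]
    intro x _ j hj
    have h1 : b.coeff (x ^ j) = b.coeff x := by
      have h2 := tw_coeff j b x
      rw [hinv j hj] at h2
      exact h2.symm
    unfold lev
    rw [h1]
  have h1 : Lam p b = 0 := by
    rw [eq_sum_lev b, Lam_sum]
    refine Finset.sum_eq_zero (fun c hc => ?_)
    rw [Finset.mem_filter] at hc
    rw [Lam_smul]
    obtain ⟨t, ht, ht'⟩ := Lam_zel (k := k) (hwt c hc.2)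
    have h2 := h _ (hwt c hc.2) (hRI c)
    rw [ht, mul_comm (p : ℤ)] at h2
    have h3 : (p : ℤ) ∣ t := Int.dvd_of_mul_dvd_mul_left hA h2
    have h4 : (t : k) = 0 := (CharP.intCast_eq_zero_iff k p t).2 h3
    rw [← ht', h4, mul_zero]
  rw [Lam_blk hb] at h1
  obtain ⟨s, hs⟩ := (CharP.intCast_eq_zero_iff k p _).1 h1
  refine ⟨s, ?_⟩
  rw [gap_gp hb, hs]
  push_cast
  rfl

theorem WFam_RI (p : ℕ) [Fact p.Prime] :
    WFam.{u} p (fun G _ m => Finite G ∧ IsWt p (⊤ : Subgroup G) m ∧ RI p m) where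
  wt := fun G _ _ m h => h.2.1
  sub := by
    intro G _ _ m h U
    refine ⟨inferInstance, IsWt_dn U h.2.1, ?_⟩
    intro x hx j hj
    have h1 := h.2.2 (x : G) ((QuoAux.preg_coe' x).2 hx) j (by rwa [Subgroup.orderOf_coe])
    exact h1
  mb := by
    intro G _ _ m h Q hQ
    exact ⟨inferInstance, mb_isWt Q h.2.1, mb_RI hQ h.2.1 h.2.2⟩

end Pool.Agent.Lib.P0c8ca5.Rc
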