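import Mathlib
import Pool.Agent.Lib.P0c8ca5Bx.RqC
import Pool.Agent.Lib.P0c8ca5Gs.TC

/-!
# OrbC: numbers of tuples and numbers of classes of tuples

`cjS S`: simultaneous conjugation on the tuples with the property `S`.

PROOF. Let `Z = centralizer (Opr p ⊤)`; `|Z|` is prime to `p` (an element of order `p` of `Z`: see `norm_trivial`, `RotAux.no_p_cent`, `no_cent2`, P0c8ca5V / P0c8ca5Bx.RqC, or `RtAAux.no_cent` in P0c8ca5Gs.RtA; `NoP p ⊤`). `G` acts on `X = {t // S t}` by conjugation, the stabilizer of `t` is the centralizer `C t` of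
`H = gT t = closure (range t)`, `Opr p ⊤ ≤ H` (`Opr` is the closure of the p-regular elements), so `C t ≤ Z`, and `C t` is the set of the fixed points of `H` acting on `Z` by conjugation (`Z` is normal in `G` because `Opr p ⊤` is). `Opr p ⊤` acts trivially on `Z`, and for `h ∈ H` some `h ^ p ^ n` lies in `Opr p ⊤`
(`Opr_pow`), so the image of `H` in the permutations of `Z` is a p-group, and `|C t| ≡ |Z|` modulo `p` (`IsPGroup.card_modEq_card_fixedPoints`). Therefore `|orbit of t| * |Z| ≡ |orbit of t| * |C t| = |G|` modulo `p |G|_p` (`|G|_p` divides `|orbit of t|` because `|C t|` is prime to `p`). Sum over the orbits: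
`cls_mod` (write `|X|` as the sum of the orbit lengths as in `FinOAux.card_orb2`, P0c8ca5By.FinO, and the number of the orbits as `Nat.card (Quot (cjS S))` as in `card_cls` there). `cls_iff`, `cls_congr`: arithmetic (`|G| = |G|_p * m`, `m` and `|Z|` prime to `p`).
-/

namespace Pool.Agent.Lib.P0c8ca5.Rc

open MonoidAlgebra Gs

/-- simultaneous conjugation on the tuples with the property `S` -/
def cjS {G : Type*} [Group G] {n : ℕ} (S : (Fin n → G) → Prop) (y z : {t : Fin n → G // S t}) :
    Prop := ∃ g : G, ∀ i, z.1 i = g * y.1 i * g⁻¹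

namespace OrbCAux

variable {p : ℕ} [Fact p.Prime] {G : Type*} [Group G] [Finite G]

omit [Fact p.Prime] [Finite G] in
/-- the group of the p-regular elements is contained in `K` -/
theorem opr_le {K : Subgroup G} (h : ∀ w : G, Preg p w → w ∈ K) : Opr p (⊤ : Subgroup G) ≤ K := by
  unfold Opr
  rw [Subgroup.closure_le]
  rintro x ⟨-, hx⟩
  exact h x hx

/-- the centralizer of `O^p(G)` has order prime to `p` -/
theorem card_Z (hO : NoP p (⊤ : Subgroup G)) :
    ¬ p ∣ Nat.card (Subgroup.centralizer (Opr p (⊤ : Subgroup G) : Set G)) := by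
  intro hp
  obtain ⟨z, hz⟩ := exists_prime_orderOf_dvd_card' p hp
  have h1 : orderOf (z : G) = p := by rw [Subgroup.orderOf_coe, hz]
  have h2 : Subgroup.zpowers (z : G) = ⊥ := by
    refine norm_trivial hO le_top (IsPGroup.of_card (n := 1) (by
      rw [Nat.card_zpowers, h1, pow_one])) ?_
    intro x hx
    have h3 : x * (z : G) = (z : G) * x := (Subgroup.mem_centralizer_iff.1 z.2) x hx
    have h5 : x ∈ Subgroup.centralizer (Subgroup.zpowers (z : G) : Set G) := by
      rw [Subgroup.mem_centralizer_iff]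
      rintro y ⟨k, rfl⟩
      have h6 : Commute (z : G) x := h3.symm
      exact (h6.zpow_left k).eq
    exact Subgroup.centralizer_le_normalizer _ h5
  rw [Subgroup.zpowers_eq_bot] at h2
  rw [h2, orderOf_one] at h1
  exact (Fact.out : p.Prime).one_lt.ne h1

omit [Fact p.Prime] [Finite G] in
theorem opr_normal : (Opr p (⊤ : Subgroup G)).Normal := by
  rw [← Subgroup.normalizer_eq_top_iff]
  exact top_le_iff.1 (Opr_normal ⊤)

omit [Fact p.Prime] [Finite G] in
theorem Z_normal : (Subgroup.centralizer (Opr p (⊤ : Subgroup G) : Set G)).Normal := by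
  have := opr_normal (p := p) (G := G)
  infer_instance

/-- the number of the elements commuting with `t` -/
theorem card_C {n : ℕ} {t : Fin n → G}
    (ht : Opr p (⊤ : Subgroup G) ≤ Subgroup.closure (Set.range t)) {C : Subgroup G}
    (hC : ∀ z : G, z ∈ C ↔ (fun i => z * t i * z⁻¹) = t) :
    Nat.card (Subgroup.centralizer (Opr p (⊤ : Subgroup G) : Set G)) ≡ Nat.card C [MOD p] := by
  have hZn := Z_normal (p := p) (G := G)
  have hc : ∀ z : G, z ∈ C ↔ ∀ x ∈ Subgroup.closure (Set.range t), x * z * x⁻¹ = z := by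
    intro z
    rw [hC]
    constructor
    · intro h x hx
      have h4 : Subgroup.closure (Set.range t) ≤ Subgroup.centralizer {z} := by
        rw [Subgroup.closure_le]
        rintro y ⟨i, rfl⟩
        have h1 : z * t i * z⁻¹ = t i := congrFun h i
        rw [mul_inv_eq_iff_eq_mul] at h1
        exact Subgroup.mem_centralizer_singleton_iff.2 h1.symm
      have h5 := Subgroup.mem_centralizer_singleton_iff.1 (h4 hx)
      rw [h5, mul_inv_cancel_right]
    · intro h
      funext i
      have h1 := h (t i) (Subgroup.subset_closure ⟨i, rfl⟩)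
      rw [mul_inv_eq_iff_eq_mul] at h1
      rw [← h1, mul_inv_cancel_right]
  let φ : ↥(Subgroup.closure (Set.range t)) →*
      MulAut ↥(Subgroup.centralizer (Opr p (⊤ : Subgroup G) : Set G)) :=
    MulAut.conjNormal.comp (Subgroup.closure (Set.range t)).subtype
  have hφ : ∀ (h : ↥(Subgroup.closure (Set.range t)))
      (z : ↥(Subgroup.centralizer (Opr p (⊤ : Subgroup G) : Set G))),
      ((φ h z : ↥(Subgroup.centralizer (Opr p (⊤ : Subgroup G) : Set G))) : G)
        = h * z * (h : G)⁻¹ := by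
    intro h z
    exact MulAut.conjNormal_apply _ _
  have hP : IsPGroup p φ.range := by
    rintro ⟨_, h, rfl⟩
    obtain ⟨m, hm⟩ := Opr_pow (p := p) (H := (⊤ : Subgroup G)) (Subgroup.mem_top (h : G))
    refine ⟨m, Subtype.ext ?_⟩
    change (φ h) ^ p ^ m = 1
    rw [← map_pow]
    refine MulEquiv.ext fun z => Subtype.ext ?_
    rw [hφ]
    change ((h ^ p ^ m : ↥(Subgroup.closure (Set.range t))) : G) * z *
      ((h ^ p ^ m : ↥(Subgroup.closure (Set.range t))) : G)⁻¹ = z
    rw [SubmonoidClass.coe_pow]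
    have h3 : (h : G) ^ p ^ m * (z : G) = (z : G) * (h : G) ^ p ^ m :=
      (Subgroup.mem_centralizer_iff.1 z.2) _ hm
    rw [h3, mul_inv_cancel_right]
  have h1 := hP.card_modEq_card_fixedPoints
    ↥(Subgroup.centralizer (Opr p (⊤ : Subgroup G) : Set G))
  have h2 : Nat.card (MulAction.fixedPoints φ.range
      ↥(Subgroup.centralizer (Opr p (⊤ : Subgroup G) : Set G))) = Nat.card C := by
    have hfix : ∀ z : ↥(Subgroup.centralizer (Opr p (⊤ : Subgroup G) : Set G)),
        z ∈ MulAction.fixedPoints φ.range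
          ↥(Subgroup.centralizer (Opr p (⊤ : Subgroup G) : Set G)) ↔ (z : G) ∈ C := by
      intro z
      rw [hc]
      constructor
      · intro hz x hx
        have h3 := hz ⟨φ ⟨x, hx⟩, ⟨⟨x, hx⟩, rfl⟩⟩
        have h4 := congrArg Subtype.val h3
        rw [← hφ ⟨x, hx⟩ z]
        exact h4
      · rintro hz ⟨_, x, rfl⟩
        refine Subtype.ext ?_
        have h4 := hz x x.2
        rw [← hφ x z] at h4
        exact h4
    refine Nat.card_congr
      { toFun := fun z => ⟨z.1.1, (hfix z.1).1 z.2⟩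
        invFun := fun z => ⟨⟨z.1, ?_⟩, (hfix ⟨z.1, ?_⟩).2 z.2⟩
        left_inv := fun z => rfl
        right_inv := fun z => rfl }
    all_goals
      rw [Subgroup.mem_centralizer_iff]
      intro x hx
      have h4 := (hc z.1).1 z.2 x (ht hx)
      rwa [mul_inv_eq_iff_eq_mul] at h4
  rw [h2] at h1
  exact h1

omit [Fact p.Prime] in
/-- one orbit -/
theorem orb_mod {a c z g : ℕ} (hg : g ≠ 0) (h : a * c = g) (hc : z ≡ c [MOD p]) (hz : ¬ p ∣ z) :
    a * z ≡ g [MOD p * ordProj[p] g] := by
  have hpc : ¬ p ∣ c := by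
    intro h1
    exact hz ((Nat.ModEq.dvd_iff hc dvd_rfl).2 h1)
  have ha : a ≠ 0 := by
    rintro rfl
    rw [zero_mul] at h
    exact hg h.symm
  have hc0 : c ≠ 0 := by
    rintro rfl
    rw [mul_zero] at h
    exact hg h.symm
  have h7 : ordProj[p] g = ordProj[p] a := by
    rw [← h, Nat.ordProj_mul p ha hc0, Nat.factorization_eq_zero_of_not_dvd hpc, pow_zero,
      mul_one]
  have h8 : a = ordProj[p] g * ordCompl[p] a := by
    rw [h7]
    exact (Nat.ordProj_mul_ordCompl_eq_self a p).symm
  have h9 : ordProj[p] g * (ordCompl[p] a * z) ≡ ordProj[p] g * (ordCompl[p] a * c)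
      [MOD ordProj[p] g * p] := Nat.ModEq.mul_left' _ (hc.mul_left _)
  rw [← mul_assoc, ← mul_assoc, ← h8, h, mul_comm _ p] at h9
  exact h9

section
variable {X : Type*} [MulAction G X] [Finite X]

omit [Fact p.Prime] in
/-- counting orbits -/
theorem card_orb {z : ℕ} (hz : ¬ p ∣ z)
    (h : ∀ x : X, z ≡ Nat.card (MulAction.stabilizer G x) [MOD p]) :
    Nat.card X * z ≡ Nat.card G * Nat.card (MulAction.orbitRel.Quotient G X)
      [MOD p * ordProj[p] (Nat.card G)] := by
  classical
  have hG : Nat.card G ≠ 0 := Nat.card_pos.ne'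
  have hfin : Finite (MulAction.orbitRel.Quotient G X) := Quotient.finite _
  have : Fintype (MulAction.orbitRel.Quotient G X) := Fintype.ofFinite _
  have h1 : Nat.card X = ∑ ω : MulAction.orbitRel.Quotient G X, Nat.card ω.orbit := by
    rw [Nat.card_congr (MulAction.selfEquivSigmaOrbits' G X), Nat.card_sigma]
  have h2 : ∀ ω : MulAction.orbitRel.Quotient G X,
      Nat.card ω.orbit * z ≡ Nat.card G [MOD p * ordProj[p] (Nat.card G)] := by
    intro ω
    obtain ⟨x, rfl⟩ := Quotient.exists_rep ω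
    have h3 : Nat.card (MulAction.orbitRel.Quotient.orbit (⟦x⟧ : MulAction.orbitRel.Quotient G X))
        = Nat.card (MulAction.orbit G x) := by
      rfl
    have h4 : Nat.card (MulAction.orbit G x) * Nat.card (MulAction.stabilizer G x)
        = Nat.card G := by
      rw [Nat.card_congr (MulAction.orbitEquivQuotientStabilizer G x)]
      exact (Subgroup.card_eq_card_quotient_mul_card_subgroup _).symm
    rw [h3]
    exact orb_mod hG h4 (h x) hz
  rw [h1, Finset.sum_mul]
  have h5 : Nat.card G * Nat.card (MulAction.orbitRel.Quotient G X) =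
      ∑ _ω : MulAction.orbitRel.Quotient G X, Nat.card G := by
    rw [Finset.sum_const, Finset.card_univ, smul_eq_mul,
      Nat.card_eq_fintype_card (α := MulAction.orbitRel.Quotient G X), mul_comm]
  rw [h5]
  exact Nat.ModEq.sum fun ω _ => h2 ω

end

/-- arithmetic -/
theorem arith {g x z c x' c' : ℕ} (hg : g ≠ 0) (hz : ¬ p ∣ z)
    (h : x * z ≡ g * c [MOD p * ordProj[p] g]) (h' : x' * z ≡ g * c' [MOD p * ordProj[p] g]) :
    x ≡ x' [MOD p * ordProj[p] g] ↔ c ≡ c' [MOD p] := by
  have hpp : p.Prime := Fact.out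
  have hgp : g = ordProj[p] g * ordCompl[p] g := (Nat.ordProj_mul_ordCompl_eq_self g p).symm
  have hco : Nat.gcd (p * ordProj[p] g) z = 1 := by
    have h1 : Nat.Coprime p z := (Nat.Prime.coprime_iff_not_dvd hpp).2 hz
    exact Nat.Coprime.mul_left h1 (h1.pow_left _)
  have hco2 : Nat.gcd p (ordCompl[p] g) = 1 :=
    (Nat.Prime.coprime_iff_not_dvd hpp).2 (Nat.not_dvd_ordCompl hpp hg)
  have h1 : x ≡ x' [MOD p * ordProj[p] g] ↔ g * c ≡ g * c' [MOD p * ordProj[p] g] := by
    constructor
    · intro h2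
      exact h.symm.trans ((h2.mul_right z).trans h')
    · intro h2
      exact Nat.ModEq.cancel_right_of_coprime hco (h.trans (h2.trans h'.symm))
  rw [h1]
  have h3 : g * c ≡ g * c' [MOD p * ordProj[p] g] ↔
      ordProj[p] g * (ordCompl[p] g * c) ≡ ordProj[p] g * (ordCompl[p] g * c')
        [MOD ordProj[p] g * p] := by
    rw [← mul_assoc, ← mul_assoc, ← hgp, mul_comm p]
  rw [h3]
  constructor
  · intro h4
    exact Nat.ModEq.cancel_left_of_coprime hco2
      (Nat.ModEq.mul_left_cancel' (Nat.ordProj_pos g p).ne' h4)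
  · intro h4
    exact Nat.ModEq.mul_left' _ (h4.mul_left _)

end OrbCAux

open OrbCAux

variable {p : ℕ} [Fact p.Prime] {G : Type*} [Group G] [Finite G]

theorem cls_mod (hO : NoP p (⊤ : Subgroup G)) {n : ℕ} (S : (Fin n → G) → Prop)
    (hS : ∀ (g : G) (t : Fin n → G), S t → S (fun i => g * t i * g⁻¹))
    (hgen : ∀ t, S t → ∀ w : G, Preg p w → w ∈ Subgroup.closure (Set.range t)) :
    Nat.card {t : Fin n → G // S t} * Nat.card (Subgroup.centralizer (Opr p (⊤ : Subgroup G) : Set G))
      ≡ Nat.card G * Nat.card (Quot (cjS S)) [MOD p * ordProj[p] (Nat.card G)] := by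
  let _ : MulAction G {t : Fin n → G // S t} :=
    { smul := fun g y => ⟨fun i => g * y.1 i * g⁻¹, hS g y.1 y.2⟩
      one_smul := fun y => Subtype.ext (funext fun i => by
        change 1 * y.1 i * 1⁻¹ = y.1 i
        rw [one_mul, inv_one, mul_one])
      mul_smul := fun g h y => Subtype.ext (funext fun i => by
        change g * h * y.1 i * (g * h)⁻¹ = g * (h * y.1 i * h⁻¹) * g⁻¹
        group) }
  have hsm : ∀ (g : G) (y : {t : Fin n → G // S t}),
      (g • y).1 = fun i => g * y.1 i * g⁻¹ := fun _ _ => rfl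
  have e : Nat.card (Quot (cjS S)) =
      Nat.card (MulAction.orbitRel.Quotient G {t : Fin n → G // S t}) := by
    refine Nat.card_congr (Quot.congr (Equiv.refl _) fun a b => ?_)
    change cjS S a b ↔ a ∈ MulAction.orbit G b
    constructor
    · rintro ⟨g, hg⟩
      have h1 : g • a = b := Subtype.ext (funext fun i => (hg i).symm)
      exact ⟨g⁻¹, by
        change g⁻¹ • b = a
        rw [← h1, inv_smul_smul]⟩
    · rintro ⟨g, hg⟩
      have h1 : g⁻¹ • a = b := by
        rw [← hg]
        exact inv_smul_smul g b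
      refine ⟨g⁻¹, fun i => ?_⟩
      rw [← h1]
      rfl
  rw [e]
  refine OrbCAux.card_orb (card_Z hO) fun x => ?_
  refine card_C (t := x.1) (opr_le (hgen x.1 x.2)) fun z => ?_
  rw [MulAction.mem_stabilizer_iff, Subtype.ext_iff, hsm]

theorem cls_iff (hO : NoP p (⊤ : Subgroup G)) {n : ℕ} (S : (Fin n → G) → Prop)
    (hS : ∀ (g : G) (t : Fin n → G), S t → S (fun i => g * t i * g⁻¹))
    (hgen : ∀ t, S t → ∀ w : G, Preg p w → w ∈ Subgroup.closure (Set.range t)) :
    p * ordProj[p] (Nat.card G) ∣ Nat.card {t : Fin n → G // S t} ↔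
      p ∣ Nat.card (Quot (cjS S)) := by
  have h := arith (x' := 0) (c' := 0) Nat.card_pos.ne' (card_Z hO) (cls_mod hO S hS hgen)
    (by rw [zero_mul, mul_zero])
  rwa [Nat.modEq_zero_iff_dvd, Nat.modEq_zero_iff_dvd] at h

theorem cls_congr (hO : NoP p (⊤ : Subgroup G)) {n n' : ℕ} (S : (Fin n → G) → Prop)
    (S' : (Fin n' → G) → Prop)
    (hS : ∀ (g : G) (t : Fin n → G), S t → S (fun i => g * t i * g⁻¹))
    (hgen : ∀ t, S t → ∀ w : G, Preg p w → w ∈ Subgroup.closure (Set.range t))
    (hS' : ∀ (g : G) (t : Fin n' → G), S' t → S' (fun i => g * t i * g⁻¹))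
    (hgen' : ∀ t, S' t → ∀ w : G, Preg p w → w ∈ Subgroup.closure (Set.range t)) :
    Nat.card {t : Fin n → G // S t} ≡ Nat.card {t : Fin n' → G // S' t}
        [MOD p * ordProj[p] (Nat.card G)] ↔
      Nat.card (Quot (cjS S)) ≡ Nat.card (Quot (cjS S')) [MOD p] :=
  arith Nat.card_pos.ne' (card_Z hO) (cls_mod hO S hS hgen) (cls_mod hO S' hS' hgen')

end Pool.Agent.Lib.P0c8ca5.Rc
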