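import Mathlib
import Pool.Agent.Lib.P0c8ca5Rc.Cp

/-!
# ElT: twists of blocks of the wreath product

PROOF. `elF p β` has the coefficient `∏ q, (β q).coeff (x.left q)` at `x` in the base group and `0` elsewhere (`coeff_elF`, `tn`; P0c8ca5Bw.ElF). `x ^ j` is in the base group iff `x` is (`x.right ^ j = 1 ↔ x.right = 1`, `j` prime to `p`), and there `(x ^ j).left q = (x.left q) ^ j`.
So `tw j (elF p β) = elF p (tw j ∘ β)`; `elT p β` is the sum over the rotations (`tw_add`). `elT_rot`: reindex the sum.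
-/

namespace Pool.Agent.Lib.P0c8ca5.Rc

open MonoidAlgebra Wr

variable {p : ℕ} [Fact p.Prime] {k : Type*} [Field k] {G : Type*} [Group G] [Fintype G]

namespace ElTAux

theorem right_pow (x : WG p G) (j : ℕ) : (x ^ j).right = x.right ^ j :=
  map_pow (RegularWreathProduct.rightHom : WG p G →* Cp p) x j

theorem right_pow_iff {j : ℕ} (hj : p.Coprime j) (x : WG p G) :
    (x ^ j).right = 1 ↔ x.right = 1 := by
  constructor
  · intro h
    have h1 : x.right ^ p = 1 := by
      rw [← right_pow]
      exact mem_bs.1 (bs_pow x)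
    have h2 : x.right ^ j = 1 := by
      rw [← right_pow]
      exact h
    have h3 := pow_gcd_eq_one.2 ⟨h1, h2⟩
    rw [hj, pow_one] at h3
    exact h3
  · intro h
    rw [right_pow, h, one_pow]

theorem left_pow {x : WG p G} (hx : x.right = 1) (j : ℕ) (q : Cp p) :
    (x ^ j).left q = x.left q ^ j := by
  induction j with
  | zero =>
    rw [pow_zero, pow_zero]
    rfl
  | succ j ih =>
    rw [pow_succ, RegularWreathProduct.mul_left, Pi.mul_apply, ih, right_pow, hx, one_pow,
      inv_one, one_mul, pow_succ]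

theorem tw_elF [Finite (WG p G)] {j : ℕ} (hj : p.Coprime j) (β : Cp p → MonoidAlgebra k G) :
    tw j (elF p β) = elF p (fun q => tw j (β q)) := by
  ext x
  rw [tw_coeff, coeff_elF, coeff_elF]
  by_cases hx : x.right = 1
  · rw [tn_of hx, tn_of ((right_pow_iff hj x).2 hx)]
    refine Finset.prod_congr rfl fun q _ => ?_
    rw [tw_coeff, left_pow hx]
  · rw [tn_not hx, tn_not (fun h => hx ((right_pow_iff hj x).1 h))]

end ElTAux

open ElTAux

theorem tw_elT [Finite (WG p G)] {j : ℕ} (hj : p.Coprime j) (β : Cp p → MonoidAlgebra k G) :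
    tw j (elT p β) = elT p (fun q => tw j (β q)) := by
  unfold elT
  have h1 := map_sum (AddMonoidHom.mk' (tw (k := k) (A := WG p G) j) (tw_add j))
    (fun a : Cp p => elF p (fun q => β (a⁻¹ * q))) Finset.univ
  have h2 : ∀ z : MonoidAlgebra k (WG p G),
      (AddMonoidHom.mk' (tw (k := k) (A := WG p G) j) (tw_add j)) z = tw j z := fun _ => rfl
  rw [h2] at h1
  rw [h1]
  refine Finset.sum_congr rfl fun a _ => ?_
  rw [h2, tw_elF hj]

theorem elT_rot (β : Cp p → MonoidAlgebra k G) (a : Cp p) :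
    elT p (fun q => β (a * q)) = elT p β := by
  unfold elT
  refine Fintype.sum_equiv (Equiv.mulRight a⁻¹) _ _ fun b => ?_
  change elF p (fun q => β (a * (b⁻¹ * q))) = elF p (fun q => β ((b * a⁻¹)⁻¹ * q))
  have h1 : (fun q => β (a * (b⁻¹ * q))) = fun q => β ((b * a⁻¹)⁻¹ * q) := by
    funext q
    rw [mul_inv_rev, inv_inv, mul_assoc]
  rw [h1]

end Pool.Agent.Lib.P0c8ca5.Rc
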