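import Mathlib
import Pool.Agent.Lib.P0c8ca5Rc.Lf
import Pool.Agent.Lib.P0c8ca5Rc.TrT
import Pool.Agent.Lib.P0c8ca5Rc.ElT

/-!
# OrbR: reduction to blocks invariant under the powers of p-power order

PROOF. Induction on the number of the twists `tw j b`, `PJ p (Nat.card G) j`. If `tw j b = b` for all of them: `h`. Otherwise let `N = Nat.card (WG p G)` (`= |G| ^ p * p`); by `PJ_lift` (with `M = ordCompl[p] (Nat.card G)`, `b` is supported on p-regular elements, `Preg` of the support: `osima`)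
there is `j` with `PJ p N j` and `tw j b ≠ b`, and `tw (j ^ p ^ n) b = b` for some `n`; replacing `j` by a power `j ^ p ^ i` (`PJ_mul`) we may assume `tw j b ≠ b`, `tw (j ^ p) b = b`. Let `β q = tw (j ^ q.val) b` (`q : Cp p = Multiplicative (ZMod p)`, `(Multiplicative.toAdd q).val`), so that
`β (a⁻¹ q)` is the twist by the power `j ^ (q - a)` (exponents modulo `p`); for `a ≠ 1` `β (a⁻¹ ·) ≠ β` (otherwise `tw (j ^ a) b = b` with `a` prime to `p`, so `tw j b = b`). By `block_over` (P0c8ca5V.NRp) `B = elT p β` is a block of `WG p G` and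
`gap B = ∏ l(β q) - ∏ (l(β q) - gap (β q))`; modulo `p` all `l(β q) ≡ l(b)` (`l_tw`) and `gap (β q) ≡ gap b` (`gap_tw`), and `x ^ p ≡ x`: `gap B ≡ gap b` modulo `p` (`gap b` is an integer: `gap_gp`). `B` has fewer twists than `b`: for `PJ p N i` `tw i B = elT p (tw i ∘ β)`
(`tw_elT`) depends only on `tw i b`, and `tw j B = B` (`elT_rot`) although `tw j b ≠ b`; so `tw i b ↦ tw i B` is a surjective not injective map from a subset of the twists of `b` (`PJ_dvd`: `PJ p N i → PJ p (Nat.card G) i`) onto the twists of `B`. Apply the induction hypothesis to `B`.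
-/

namespace Pool.Agent.Lib.P0c8ca5.Rc

open MonoidAlgebra

universe u v

namespace OrbRAux

set_option linter.unusedSectionVars false
set_option linter.style.haveILetI false

open Wr TFinAux

section
variable {p : ℕ} {k : Type*} [Field k] {A : Type*} [Group A] [Finite A]

theorem preg_pow {j : ℕ} (hj : (Nat.card A).Coprime j) {x : A} : Preg p (x ^ j) ↔ Preg p x := by
  unfold Preg
  rw [Nat.Coprime.orderOf_pow (Nat.Coprime.coprime_dvd_left (orderOf_dvd_natCard x) hj)]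

theorem order_dvd [Fact p.Prime] {x : A} (hx : Preg p x) :
    orderOf x ∣ ordCompl[p] (Nat.card A) := by
  have hp : p.Prime := Fact.out
  have h1 : (orderOf x).Coprime (p ^ (Nat.card A).factorization p) :=
    Nat.Coprime.pow_right _ ((Nat.Prime.coprime_iff_not_dvd hp).2 hx).symm
  refine h1.dvd_of_dvd_mul_left ?_
  rw [Nat.ordProj_mul_ordCompl_eq_self]
  exact orderOf_dvd_natCard x

theorem tw_eq_of [Fact p.Prime] {i j : ℕ} (hi : (Nat.card A).Coprime i)
    (hj : (Nat.card A).Coprime j)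
    {b : MonoidAlgebra k A} (hr : ∀ x, b.coeff x ≠ 0 → Preg p x)
    (hij : i ≡ j [MOD ordCompl[p] (Nat.card A)]) : tw i b = tw j b := by
  ext x
  rw [tw_coeff, tw_coeff]
  by_cases hx : Preg p x
  · have h1 : x ^ i = x ^ j := by
      rw [pow_eq_pow_iff_modEq]
      exact hij.of_dvd (order_dvd hx)
    rw [h1]
  · have h1 : ∀ m, (Nat.card A).Coprime m → b.coeff (x ^ m) = 0 := by
      intro m hm
      by_contra h
      exact hx ((preg_pow hm).1 (hr _ h))
    rw [h1 i hi, h1 j hj]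

variable {b : MonoidAlgebra k A} {j : ℕ}

theorem tw_pow_add (hp : tw (j ^ p) b = b) (r s : ℕ) :
    tw (j ^ (r + p * s)) b = tw (j ^ r) b := by
  induction s with
  | zero => rw [mul_zero, add_zero]
  | succ s ih =>
    rw [mul_add, mul_one, ← add_assoc, pow_add, ← tw_tw, hp, ih]

theorem tw_pow_mod (hp : tw (j ^ p) b = b) (m : ℕ) :
    tw (j ^ (m % p)) b = tw (j ^ m) b := by
  have h := tw_pow_add hp (m % p) (m / p)
  rw [Nat.mod_add_div] at h
  exact h.symm

theorem tw_pow_ne [Fact p.Prime] (hne : tw j b ≠ b) (hp : tw (j ^ p) b = b) {m : ℕ} (hm : ¬ p ∣ m) :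
    tw (j ^ m) b ≠ b := by
  have hpp : p.Prime := Fact.out
  intro h
  have h1 : ∀ u : ℕ, tw ((j ^ m) ^ u) b = b := by
    intro u
    induction u with
    | zero => rw [pow_zero, tw_one]
    | succ u ih => rw [pow_succ, ← tw_tw, h, ih]
  obtain ⟨u, -, hu⟩ := Nat.exists_mul_mod_eq_one_of_coprime
    ((Nat.Prime.coprime_iff_not_dvd hpp).2 hm).symm hpp.one_lt
  have h2 := tw_pow_mod hp (m * u)
  rw [hu, pow_one, pow_mul, h1 u] at h2
  exact hne h2

/-- the element of the wreath product -/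
noncomputable def Phi (p : ℕ) [Fact p.Prime] (j : ℕ) (z : MonoidAlgebra k A) :
    MonoidAlgebra k (WG p A) :=
  elT p (fun q : Cp p => tw (j ^ (Multiplicative.toAdd q).val) z)

theorem beta_ne [Fact p.Prime] (hne : tw j b ≠ b) (hp : tw (j ^ p) b = b) (a : Cp p) (ha : a ≠ 1) :
    (fun q : Cp p => tw (j ^ (Multiplicative.toAdd (a⁻¹ * q)).val) b)
      ≠ (fun q : Cp p => tw (j ^ (Multiplicative.toAdd q).val) b) := by
  have hpp : p.Prime := Fact.out
  have : NeZero p := ⟨hpp.ne_zero⟩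
  intro h
  have h1 := congrFun h a
  simp only [inv_mul_cancel, toAdd_one, ZMod.val_zero, pow_zero] at h1
  rw [tw_one] at h1
  refine tw_pow_ne hne hp ?_ h1.symm
  intro h2
  have h3 := Nat.eq_zero_of_dvd_of_lt h2 (ZMod.val_lt _)
  rw [ZMod.val_eq_zero] at h3
  exact ha (Multiplicative.toAdd.injective (by rw [h3]; rfl))

theorem beta_rot [Fact p.Prime] (hp : tw (j ^ p) b = b) (q : Cp p) :
    tw j (tw (j ^ (Multiplicative.toAdd q).val) b)
      = tw (j ^ (Multiplicative.toAdd ((Multiplicative.ofAdd (1 : ZMod p)) * q)).val) b := by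
  have hpp : p.Prime := Fact.out
  have : NeZero p := ⟨hpp.ne_zero⟩
  rw [tw_tw, toAdd_mul, toAdd_ofAdd, ZMod.val_add, tw_pow_mod hp, ZMod.val_one_eq_one_mod,
    Nat.mod_eq_of_lt hpp.one_lt, pow_add, pow_one]

/-- the twists -/
def TS (p : ℕ) (N : ℕ) (b : MonoidAlgebra k A) : Set (MonoidAlgebra k A) :=
  {z | ∃ i, PJ p N i ∧ z = tw i b}

theorem PJ_one {N : ℕ} : PJ p N 1 := ⟨Nat.coprime_one_right N, 0, by rw [one_pow]⟩

theorem PJ_pow {N i : ℕ} (h : PJ p N i) (m : ℕ) : PJ p N (i ^ m) := by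
  obtain ⟨h1, n, h2⟩ := h
  refine ⟨h1.pow_right m, n, ?_⟩
  rw [← pow_mul, mul_comm, pow_mul]
  have h3 := h2.pow m
  rwa [one_pow] at h3

theorem mem_TS {N : ℕ} : b ∈ TS p N b := ⟨1, PJ_one, (tw_one b).symm⟩

end

section
variable {p : ℕ} [Fact p.Prime] {k : Type*} [Field k] [IsAlgClosed k] [CharP k p]
  {G : Type*} [Group G] [Finite G] {b : MonoidAlgebra k G} {j : ℕ}

theorem card_dvd : Nat.card G ∣ Nat.card (WG p G) := by
  have hpp : p.Prime := Fact.out
  rw [RegularWreathProduct.card]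
  refine Dvd.dvd.mul_right (dvd_pow_self _ ?_) _
  change Nat.card (ZMod p) ≠ 0
  rw [Nat.card_zmod]
  exact hpp.ne_zero

theorem p_dvd : p ∣ Nat.card (WG p G) := by
  rw [RegularWreathProduct.card]
  refine Dvd.dvd.mul_left ?_ _
  change p ∣ Nat.card (ZMod p)
  rw [Nat.card_zmod]

theorem card_ne : Nat.card (WG p G) ≠ 0 := by
  have : Finite (WG p G) := NRp.fin_WG
  exact Nat.card_pos.ne'

theorem TS_finite (hb : IsBlock (⊤ : Subgroup G) b) : (TS p (Nat.card G) b).Finite := by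
  refine (finite_isBlock (k := k) (⊤ : Subgroup G)).subset ?_
  rintro z ⟨i, hi, rfl⟩
  exact tw_blk hi.1 hb

theorem Phi_block (hb : IsBlock (⊤ : Subgroup G) b) (hj : PJ p (Nat.card G) j)
    (hne : tw j b ≠ b) (hp : tw (j ^ p) b = b) :
    IsBlock (⊤ : Subgroup (WG p G)) (Phi p j b) ∧
    ((∃ t : ℤ, gap p (⊤ : Subgroup (WG p G)) ⊤ (Phi p j b) = (p : ℚ) * t) →
      ∃ t : ℤ, gap p (⊤ : Subgroup G) ⊤ b = (p : ℚ) * t) := by
  classical
  have hpp : p.Prime := Fact.out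
  have : NeZero p := ⟨hpp.ne_zero⟩
  have : Fintype G := Fintype.ofFinite G
  obtain ⟨h1, h2⟩ := block_over (p := p) (β := fun q : Cp p => tw (j ^ (Multiplicative.toAdd q).val) b)
    (fun q => tw_blk (PJ_pow hj _).1 hb) (fun a ha => beta_ne hne hp a ha)
  refine ⟨h1, ?_⟩
  rintro ⟨t, ht⟩
  change gap p (⊤ : Subgroup (WG p G)) ⊤ (Phi p j b) = _ at h2
  rw [ht] at h2
  obtain ⟨l, hl⟩ : ∃ l : Cp p → ℕ, ∀ q, l q = Nat.card (Quotient (irrInvSetoid (⊤ : Subgroup G) ⊥
    (tw (j ^ (Multiplicative.toAdd q).val) b))) := ⟨_, fun _ => rfl⟩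
  obtain ⟨l0, hl0⟩ : ∃ l0 : ℕ, l0 = Nat.card (Quotient (irrInvSetoid (⊤ : Subgroup G) ⊥ b)) :=
    ⟨_, rfl⟩
  have hl1 : ∀ q, ((l q : ℕ) : ZMod p) = (l0 : ZMod p) := by
    intro q
    rw [ZMod.natCast_eq_natCast_iff, hl, hl0]
    exact l_tw (PJ_pow hj _).1 hb
  have hg : ∀ q : Cp p, ∃ g : ℤ, gap p (⊤ : Subgroup G) ⊤ (tw (j ^ (Multiplicative.toAdd q).val) b)
      = (g : ℚ) ∧ ((g : ℤ) : ZMod p) = ((gp p b : ℤ) : ZMod p) := by
    intro q
    obtain ⟨s, hs⟩ := gap_tw (p := p) (PJ_pow hj (Multiplicative.toAdd q).val).1 hb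
    refine ⟨gp p b + p * s, ?_, ?_⟩
    · rw [hs, gap_gp hb]
      push_cast
      ring
    · push_cast
      rw [CharP.cast_eq_zero, zero_mul, add_zero]
  choose g hg1 hg2 using hg
  have h3 : ((p : ℤ) * t : ℤ) = ∏ q : Cp p, (l q : ℤ) - ∏ q : Cp p, ((l q : ℤ) - g q) := by
    have h4 : (((p : ℤ) * t : ℤ) : ℚ)
        = ((∏ q : Cp p, (l q : ℤ) - ∏ q : Cp p, ((l q : ℤ) - g q) : ℤ) : ℚ) := by
      push_cast
      rw [h2]
      congr 1
      · refine Finset.prod_congr rfl fun q _ => ?_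
        rw [hl]
      · refine Finset.prod_congr rfl fun q _ => ?_
        rw [hl, hg1]
    exact_mod_cast h4
  have h5 : ((gp p b : ℤ) : ZMod p) = 0 := by
    have h6 : (((p : ℤ) * t : ℤ) : ZMod p)
        = ((∏ q : Cp p, (l q : ℤ) - ∏ q : Cp p, ((l q : ℤ) - g q) : ℤ) : ZMod p) := by rw [h3]
    push_cast at h6
    rw [CharP.cast_eq_zero, zero_mul] at h6
    have hcard : Fintype.card (Cp p) = p := by
      rw [Fintype.card_multiplicative, ZMod.card]
    have h7 : ∏ q : Cp p, (l q : ZMod p) = (l0 : ZMod p) := by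
      rw [Finset.prod_congr rfl (fun q _ => hl1 q), Finset.prod_const, Finset.card_univ, hcard,
        ZMod.pow_card]
    have h8 : ∏ q : Cp p, ((l q : ZMod p) - (g q : ZMod p))
        = (l0 : ZMod p) - ((gp p b : ℤ) : ZMod p) := by
      rw [Finset.prod_congr rfl (fun q _ => by rw [hl1 q, hg2 q]), Finset.prod_const,
        Finset.card_univ, hcard, ZMod.pow_card]
    rw [h7, h8, sub_sub_cancel] at h6
    exact h6.symm
  rw [ZMod.intCast_zmod_eq_zero_iff_dvd] at h5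
  obtain ⟨s, hs⟩ := h5
  refine ⟨s, ?_⟩
  rw [gap_gp hb, hs]
  push_cast
  rfl

theorem Phi_tw (hp : tw (j ^ p) b = b) : Phi p j (tw j b) = Phi p j b := by
  have : Fintype G := Fintype.ofFinite G
  have h1 := elT_rot (p := p) (fun q : Cp p => tw (j ^ (Multiplicative.toAdd q).val) b)
    (Multiplicative.ofAdd (1 : ZMod p))
  unfold Phi
  rw [← h1]
  congr 1
  funext q
  rw [← beta_rot hp q, tw_tw, tw_tw, mul_comm]

theorem tw_Phi {i : ℕ} (hi : p.Coprime i) : 
    haveI : Finite (WG p G) := NRp.fin_WG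
    tw i (Phi p j b) = Phi p j (tw i b) := by
  have : Fintype G := Fintype.ofFinite G
  haveI : Finite (WG p G) := NRp.fin_WG
  unfold Phi
  rw [tw_elT hi]
  congr 1
  funext q
  rw [tw_tw, tw_tw, mul_comm]

theorem ncard_lt (hb : IsBlock (⊤ : Subgroup G) b) (hj : PJ p (Nat.card (WG p G)) j)
    (hne : tw j b ≠ b) (hp : tw (j ^ p) b = b) :
    haveI : Finite (WG p G) := NRp.fin_WG
    (TS p (Nat.card (WG p G)) (Phi p j b)).ncard < (TS p (Nat.card G) b).ncard := by
  haveI : Finite (WG p G) := NRp.fin_WG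
  have hpc : ∀ i, PJ p (Nat.card (WG p G)) i → p.Coprime i := fun i hi =>
    Nat.Coprime.coprime_dvd_left p_dvd hi.1
  have hsub : TS p (Nat.card (WG p G)) b ⊆ TS p (Nat.card G) b := by
    rintro z ⟨i, hi, rfl⟩
    exact ⟨i, PJ_dvd hi card_dvd card_ne, rfl⟩
  have hfin := TS_finite (p := p) hb
  have hfin' : (TS p (Nat.card (WG p G)) b).Finite := hfin.subset hsub
  have himg : TS p (Nat.card (WG p G)) (Phi p j b)
      = Phi p j '' (TS p (Nat.card (WG p G)) b) := by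
    ext z
    constructor
    · rintro ⟨i, hi, rfl⟩
      exact ⟨tw i b, ⟨i, hi, rfl⟩, (tw_Phi (hpc i hi)).symm⟩
    · rintro ⟨y, ⟨i, hi, rfl⟩, rfl⟩
      exact ⟨i, hi, (tw_Phi (hpc i hi)).symm⟩
  have h1 : (TS p (Nat.card (WG p G)) (Phi p j b)).ncard
      < (TS p (Nat.card (WG p G)) b).ncard := by
    rw [himg]
    refine lt_of_le_of_ne (Set.ncard_image_le hfin') ?_
    intro h
    rw [Set.ncard_image_iff hfin'] at h
    exact hne (h ⟨j, hj, rfl⟩ mem_TS (Phi_tw hp))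
  exact lt_of_lt_of_le h1 (Set.ncard_le_ncard hsub hfin)

theorem exists_j (hb : IsBlock (⊤ : Subgroup G) b) {j0 : ℕ} (hj0 : PJ p (Nat.card G) j0)
    (hne : tw j0 b ≠ b) :
    ∃ j, PJ p (Nat.card (WG p G)) j ∧ tw j b ≠ b ∧ tw (j ^ p) b = b := by
  classical
  have hpp : p.Prime := Fact.out
  have hG : Nat.card G ≠ 0 := Nat.card_pos.ne'
  have hr : ∀ x, b.coeff x ≠ 0 → Preg p x := fun x hx => osima (p := p) hb.mem hb.idem hx
  obtain ⟨i, hi, hi0⟩ := PJ_lift (p := p) (M := ordCompl[p] (Nat.card G)) (N := Nat.card (WG p G))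
    (j := j0) ((Nat.ordCompl_dvd _ p).trans card_dvd) card_ne (Nat.not_dvd_ordCompl hpp hG) hj0.2
  have hiG : PJ p (Nat.card G) i := PJ_dvd hi card_dvd card_ne
  have h1 : tw i b = tw j0 b := tw_eq_of hiG.1 hj0.1 hr hi0
  have hex : ∃ n : ℕ, tw (i ^ p ^ n) b = b := by
    obtain ⟨n, hn⟩ := hiG.2
    refine ⟨n, ?_⟩
    have h2 := tw_eq_of (p := p) (PJ_pow hiG (p ^ n)).1 (Nat.coprime_one_right _) hr hn
    rw [h2, tw_one]
  obtain ⟨n, hn, hmin⟩ : ∃ n : ℕ, tw (i ^ p ^ n) b = b ∧ ∀ m < n, tw (i ^ p ^ m) b ≠ b :=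
    ⟨Nat.find hex, Nat.find_spec hex, fun m hm => Nat.find_min hex hm⟩
  cases n with
  | zero =>
    rw [pow_zero, pow_one, h1] at hn
    exact absurd hn hne
  | succ n =>
    refine ⟨i ^ p ^ n, PJ_pow hi _, hmin n (Nat.lt_succ_self n), ?_⟩
    rw [← pow_mul, ← pow_succ]
    exact hn

end

end OrbRAux

open OrbRAux in
theorem inv_suffices {p : ℕ} [Fact p.Prime] {k : Type v} [Field k] [IsAlgClosed k] [CharP k p]
    {C : ∀ (G : Type u) [Group G], Prop} (hW : ∀ (G : Type u) [Group G], C G → C (Wr.WG p G))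
    (h : ∀ (G : Type u) [Group G] [Finite G], C G → ∀ b : MonoidAlgebra k G,
      IsBlock (⊤ : Subgroup G) b → (∀ j : ℕ, PJ p (Nat.card G) j → tw j b = b) →
      ∃ t : ℤ, gap p (⊤ : Subgroup G) ⊤ b = (p : ℚ) * t)
    (G : Type u) [Group G] [Finite G] (hG : C G) (b : MonoidAlgebra k G)
    (hb : IsBlock (⊤ : Subgroup G) b) :
    ∃ t : ℤ, gap p (⊤ : Subgroup G) ⊤ b = (p : ℚ) * t := by
  have key : ∀ n : ℕ, ∀ (G : Type u) [Group G] [Finite G], C G → ∀ b : MonoidAlgebra k G,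
      IsBlock (⊤ : Subgroup G) b → (TS p (Nat.card G) b).ncard ≤ n →
      ∃ t : ℤ, gap p (⊤ : Subgroup G) ⊤ b = (p : ℚ) * t := by
    intro n
    induction n with
    | zero =>
      intro G _ _ hG b hb hn
      exfalso
      have h1 := (Set.ncard_eq_zero (TS_finite (p := p) hb)).1 (Nat.le_zero.1 hn)
      have h2 : b ∈ TS p (Nat.card G) b := mem_TS
      rw [h1] at h2
      exact h2
    | succ n ih =>
      intro G _ _ hG b hb hn
      by_cases hall : ∀ j : ℕ, PJ p (Nat.card G) j → tw j b = b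
      · exact h G hG b hb hall
      · push Not at hall
        obtain ⟨j0, hj0, hne0⟩ := hall
        obtain ⟨j, hj, hne, hp⟩ := exists_j hb hj0 hne0
        have : Finite (Wr.WG p G) := NRp.fin_WG
        obtain ⟨h1, h2⟩ := Phi_block hb (PJ_dvd hj card_dvd card_ne) hne hp
        refine h2 (ih (Wr.WG p G) (hW G hG) (Phi p j b) h1 ?_)
        have h3 := ncard_lt hb hj hne hp
        omega
  exact key _ G hG b hb le_rfl

end Pool.Agent.Lib.P0c8ca5.Rc
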