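import Mathlib
import Pool.Agent.Lib.P0c8ca5V.GalD
import Pool.Agent.Lib.P0c8ca5V.GalB
import Pool.Agent.Lib.P0c8ca5Gs.TC
import Pool.Agent.Lib.P0c8ca5Gs.Sx

/-!
# Gc: numbers of tuples are invariant under powers

`eX p N x`: the number of the tuples `t : Fin N → A` of elements of order `p` with product `x` generating a group that contains `O^p(A)`. `eC p x`: the number of the pairs `(a, b)` with `[a, b] = x` generating such a group.

PROOF. `eX_pow`: by `GalD.sum_gen_zero` / `sum_gen_eq` (P0c8ca5V.GalD) it is enough to have the equality for the tuples in `H` without the generation condition, for all subgroups `H` with `x, x ^ j` .. more precisely: for all class functions `f : A → ℤ`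
`∑ t, [t i ^ p = 1, t i ≠ 1, gT t = K] f ((prod t) ^ j) = ∑ t, [...] f (prod t)` by induction on `K` from the same with `gT t ≤ H` (all `H`), then `GalD.pointwise`. For `gT t ≤ H`: `∑ t` is the sum over `x ∈ H` of `f (x ^ j)` times the `N`-fold convolution power of the indicator `w` of
`{z ∈ H | z ^ p = 1, z ≠ 1}` at `x`, and the convolution power `W` satisfies `W (x ^ j) = W x` on `H` by `GalA.conv_pow` for `↥H` (induction on `N`; `w (z ^ j) = w z`), so substitute `x ↦ x ^ j`. See `GalG.nP_base`, `GalG.nP_pow` (P0c8ca5V.GalG, complete) for the same argument with pairs `(z, z')`.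
`eC_pow`: the same with `GalB.cmm` (the number of pairs with commutator `x`; `GalB.cmm_pow`). `eX_conj`, `eC_conj`: conjugation. `eX_dvd`, `eC_dvd`: `C(x)` acts by conjugation on the tuples with product `x` and the stabilizers (contained in the centralizer of `O^p(A)`) have order prime to `p` (see `GalF.phT_dvd`).
-/

namespace Pool.Agent.Lib.P0c8ca5.Rc

open MonoidAlgebra Gs

variable {p : ℕ} {A : Type*} [Group A]

open Classical in
/-- the number of the tuples of elements of order `p` with product `x` -/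
noncomputable def eX (p N : ℕ) (x : A) : ℤ :=
  (Nat.card {t : Fin N → A // (∀ i, t i ^ p = 1 ∧ t i ≠ 1) ∧ (List.ofFn t).prod = x ∧
    Opr p (⊤ : Subgroup A) ≤ gT t} : ℤ)

open Classical in
/-- the number of the pairs with commutator `x` -/
noncomputable def eC (p : ℕ) (x : A) : ℤ :=
  (Nat.card {t : A × A // cmt t.1 t.2 = x ∧
    Opr p (⊤ : Subgroup A) ≤ Subgroup.closure ({t.1, t.2} : Set A)} : ℤ)

namespace GcAux

open TCAux TAAux RotAux

variable {ι : Type*}

/-- the number of the tuples with the property `Q` and the value `x` of `π`, generating a group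
that contains `O^p(A)` -/
noncomputable def cnt (p : ℕ) (Q : (ι → A) → Prop) (π : (ι → A) → A) (x : A) : ℤ :=
  (Nat.card {t : ι → A // Q t ∧ π t = x ∧ Opr p (⊤ : Subgroup A) ≤ gT t} : ℤ)

theorem opr_cjt (g : A) (t : ι → A) :
    Opr p (⊤ : Subgroup A) ≤ gT (cjt g t) ↔ Opr p (⊤ : Subgroup A) ≤ gT t := by
  rw [gT_cjt]
  have h : Opr p (⊤ : Subgroup A) ≤ (gT t).map (MulAut.conj g).toMonoidHom ↔
      Opr p (⊤ : Subgroup A) ≤ gT t := by
    conv_lhs => rw [← map_Opr_top (p := p) g]
    exact Subgroup.map_le_map_iff_of_injective (MulAut.conj g).injective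
  exact h

theorem conj_eq_conj (g x y : A) : g * y * g⁻¹ = g * x * g⁻¹ ↔ y = x := by
  constructor
  · intro h
    exact mul_left_cancel (mul_right_cancel h)
  · intro h
    rw [h]

theorem cnt_conj {Q : (ι → A) → Prop} {π : (ι → A) → A} (hQ : ∀ g t, Q (cjt g t) ↔ Q t)
    (hπ : ∀ g t, π (cjt g t) = g * π t * g⁻¹) (g x : A) :
    cnt p Q π (g * x * g⁻¹) = cnt p Q π x := by
  have h : Nat.card {t : ι → A // Q t ∧ π t = x ∧ Opr p (⊤ : Subgroup A) ≤ gT t} =
      Nat.card {t : ι → A // Q t ∧ π t = g * x * g⁻¹ ∧ Opr p (⊤ : Subgroup A) ≤ gT t} := by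
    refine Nat.card_congr ((cE g).subtypeEquiv fun t => ?_)
    change _ ↔ Q (cjt g t) ∧ π (cjt g t) = g * x * g⁻¹ ∧ Opr p (⊤ : Subgroup A) ≤ gT (cjt g t)
    rw [hQ, hπ, opr_cjt, conj_eq_conj]
  unfold cnt
  rw [h]

section fin
variable [Fintype A] [Fintype ι] [DecidableEq ι]

open Classical in
theorem cnt_sum (Q : (ι → A) → Prop) (π : (ι → A) → A) (x : A) :
    cnt p Q π x = ∑ t : ι → A, if Q t ∧ π t = x ∧ Opr p (⊤ : Subgroup A) ≤ gT t
      then 1 else 0 := by
  unfold cnt
  rw [Nat.card_eq_fintype_card, Fintype.card_subtype, Finset.card_filter]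
  push_cast
  rfl

open Classical in
theorem cnt_dvd [Fact p.Prime] (hO : NoP p (⊤ : Subgroup A)) {Q : (ι → A) → Prop}
    {π : (ι → A) → A} (hQ : ∀ g t, Q (cjt g t) ↔ Q t)
    (hπ : ∀ g t, π (cjt g t) = g * π t * g⁻¹) (x : A) :
    ((ordProj[p] (Nat.card (Subgroup.centralizer ({x} : Set A))) : ℕ) : ℤ) ∣ cnt p Q π x := by
  rw [cnt_sum]
  have key := @orb_dvd_p p _ (Subgroup.centralizer ({x} : Set A)) (ι → A) _ _ (actP _) _
    (fun t => if Q t ∧ π t = x ∧ Opr p (⊤ : Subgroup A) ≤ gT t then 1 else 0) ?_ 1 ?_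
  · rw [one_mul] at key
    exact key
  · intro g t
    have hg : (g : A) * x * (g : A)⁻¹ = x := by
      rw [mul_inv_eq_iff_eq_mul]
      exact Subgroup.mem_centralizer_singleton_iff.1 g.2
    change (if Q (cjt (g : A) t) ∧ π (cjt (g : A) t) = x ∧
      Opr p (⊤ : Subgroup A) ≤ gT (cjt (g : A) t) then (1 : ℤ) else 0) = _
    refine if_congr ?_ rfl rfl
    rw [hQ, hπ, opr_cjt]
    have h1 := conj_eq_conj (g : A) x (π t)
    rw [hg] at h1
    rw [h1]
  · intro t
    by_cases h : Q t ∧ π t = x ∧ Opr p (⊤ : Subgroup A) ≤ gT t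
    · have h1 : ¬ p ∣ Nat.card (@MulAction.stabilizer (Subgroup.centralizer ({x} : Set A))
          (ι → A) _ (actP _) t) := by
        intro h2
        obtain ⟨g, hg⟩ := exists_prime_orderOf_dvd_card' p h2
        let a : A := ((g : Subgroup.centralizer ({x} : Set A)) : A)
        have h3 : cjt a t = t := g.2
        have hgo : orderOf a = p := by
          change orderOf ((g : Subgroup.centralizer ({x} : Set A)) : A) = p
          rw [Subgroup.orderOf_coe, Subgroup.orderOf_coe, hg]
        have h4 : gT t ≤ Subgroup.centralizer ((Subgroup.zpowers a : Subgroup A) : Set A) := by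
          intro y hy
          rw [Subgroup.mem_centralizer_iff]
          rintro z ⟨n, rfl⟩
          have h6 : Commute a y := (cjt_fix h3 hy).symm
          exact (h6.zpow_left n).eq
        have h7 : Subgroup.zpowers a = ⊥ := by
          refine norm_trivial hO le_top ?_ ?_
          · refine IsPGroup.of_card (n := 1) ?_
            rw [Nat.card_zpowers, hgo, pow_one]
          · refine h.2.2.trans (h4.trans ?_)
            exact Subgroup.centralizer_le_normalizer _
        rw [Subgroup.zpowers_eq_bot] at h7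
        rw [h7, orderOf_one] at hgo
        exact (Fact.out : p.Prime).one_lt.ne hgo
      rw [ordProj_one' h1]
      simp
    · simp only [if_neg h]
      exact dvd_zero _

open Classical in
theorem cnt_pow {Q : (ι → A) → Prop} {π : (ι → A) → A} (hQ : ∀ g t, Q (cjt g t) ↔ Q t)
    (hπ : ∀ g t, π (cjt g t) = g * π t * g⁻¹) {j : ℕ} (hj : (Nat.card A).Coprime j)
    (h : ∀ (H : Subgroup A) (f : A → ℤ), ∑ t : ι → ↥H,
      (if Q (up H t) then f (π (up H t) ^ j) - f (π (up H t)) else 0) = 0) (x : A) :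
    cnt p Q π (x ^ j) = cnt p Q π x := by
  refine GalD.pointwise (cnt_conj hQ hπ) hj (fun f hf => ?_) x
  have h1 := GalD.sum_gen_zero (A := A) (X := ι → A) gT
    (fun t => if Q t then f (π t ^ j) - f (π t) else 0) ?_ (fun K => Opr p (⊤ : Subgroup A) ≤ K)
  · have h2 : ∀ u : A → ℤ, ∑ x : A, u x * cnt p Q π x
        = ∑ t : ι → A, (if Opr p (⊤ : Subgroup A) ≤ gT t then (if Q t then u (π t) else 0)
          else 0) := by
      intro u
      simp only [cnt_sum, Finset.mul_sum]
      rw [Finset.sum_comm]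
      refine Finset.sum_congr rfl fun t _ => ?_
      rw [Finset.sum_eq_single (π t)]
      · by_cases h4 : Opr p (⊤ : Subgroup A) ≤ gT t
        · by_cases h5 : Q t
          · rw [if_pos ⟨h5, rfl, h4⟩, if_pos h4, if_pos h5, mul_one]
          · rw [if_neg (fun h => h5 h.1), if_pos h4, if_neg h5, mul_zero]
        · rw [if_neg (fun h => h4 h.2.2), if_neg h4, mul_zero]
      · intro y _ hy
        rw [if_neg (fun h => hy h.2.1.symm), mul_zero]
      · intro h; exact absurd (Finset.mem_univ _) h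
    rw [h2 (fun x => f (x ^ j)), h2 f, ← sub_eq_zero, ← Finset.sum_sub_distrib]
    refine Eq.trans ?_ h1
    refine Finset.sum_congr rfl fun t _ => ?_
    by_cases h4 : Opr p (⊤ : Subgroup A) ≤ gT t
    · rw [if_pos h4, if_pos h4, if_pos h4]
      by_cases h5 : Q t
      · rw [if_pos h5, if_pos h5, if_pos h5]
      · rw [if_neg h5, if_neg h5, if_neg h5, sub_zero]
    · rw [if_neg h4, if_neg h4, if_neg h4, sub_zero]
  · intro H
    have h3 := sum_up (ι := ι) H Q (fun t => f (π t ^ j) - f (π t))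
    rw [finsum_eq_sum_of_fintype, finsum_eq_sum_of_fintype, h H f] at h3
    refine Eq.trans ?_ h3.symm
    refine Finset.sum_congr rfl fun t _ => ?_
    by_cases h4 : gT t ≤ H
    · rw [if_pos h4]
      by_cases h5 : Q t
      · rw [if_pos h5, if_pos ⟨h4, h5⟩]
      · rw [if_neg h5, if_neg (fun h => h5 h.2)]
    · rw [if_neg h4, if_neg (fun h => h4 h.1)]

end fin

/-! ### tuples with given product -/

section tup
variable {G : Type*} [Group G] [Fintype G]

/-- convolution powers -/
noncomputable def cw (w : G → ℤ) : ℕ → G → ℤ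
  | 0, x => by classical exact if x = 1 then 1 else 0
  | N + 1, x => ∑ y : G, w y * cw w N (y⁻¹ * x)

theorem cw_conj {w : G → ℤ} (hw : ∀ c x, w (c * x * c⁻¹) = w x) (N : ℕ) :
    ∀ c x, cw w N (c * x * c⁻¹) = cw w N x := by
  classical
  induction N with
  | zero =>
    intro c x
    change (if c * x * c⁻¹ = 1 then (1 : ℤ) else 0) = if x = 1 then 1 else 0
    exact if_congr conj_eq_one_iff rfl rfl
  | succ N ih =>
    intro c x
    change ∑ y : G, w y * cw w N (y⁻¹ * (c * x * c⁻¹)) = ∑ y : G, w y * cw w N (y⁻¹ * x)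
    rw [← Equiv.sum_comp (MulAut.conj c).toEquiv]
    refine Finset.sum_congr rfl fun y _ => ?_
    change w (c * y * c⁻¹) * cw w N ((c * y * c⁻¹)⁻¹ * (c * x * c⁻¹)) = _
    have h1 : (c * y * c⁻¹)⁻¹ * (c * x * c⁻¹) = c * (y⁻¹ * x) * c⁻¹ := by group
    rw [h1, hw, ih]

theorem cw_pow {w : G → ℤ} (hw : ∀ c x, w (c * x * c⁻¹) = w x) {j : ℕ}
    (hj : (Nat.card G).Coprime j) (hwj : ∀ x, w (x ^ j) = w x) (N : ℕ) :
    ∀ x, cw w N (x ^ j) = cw w N x := by
  classical
  induction N with
  | zero =>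
    intro x
    change (if x ^ j = 1 then (1 : ℤ) else 0) = if x = 1 then 1 else 0
    refine if_congr ?_ rfl rfl
    constructor
    · intro h
      exact (powCoprime hj).injective (by
        change x ^ j = (1 : G) ^ j
        rw [h, one_pow])
    · intro h
      rw [h, one_pow]
  | succ N ih =>
    intro x
    change ∑ y : G, w y * cw w N (y⁻¹ * x ^ j) = ∑ y : G, w y * cw w N (y⁻¹ * x)
    rw [← GalA.conv_pow hj hw (cw_conj hw N) x]
    exact Finset.sum_congr rfl fun y _ => by rw [hwj, ih]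

theorem sum_cw (w : G → ℤ) (N : ℕ) : ∀ f : G → ℤ,
    ∑ t : Fin N → G, (∏ i, w (t i)) * f (List.ofFn t).prod = ∑ x : G, f x * cw w N x := by
  classical
  induction N with
  | zero =>
    intro f
    have h1 : ∀ x : G, f x * cw w 0 x = if x = 1 then f x else 0 := by
      intro x
      change f x * (if x = 1 then (1 : ℤ) else 0) = _
      by_cases h : x = 1
      · rw [if_pos h, if_pos h, mul_one]
      · rw [if_neg h, if_neg h, mul_zero]
    rw [Finset.sum_congr rfl (fun x _ => h1 x), Finset.sum_ite_eq' Finset.univ (1 : G),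
      if_pos (Finset.mem_univ _)]
    simp
  | succ N ih =>
    intro f
    rw [← Equiv.sum_comp (Fin.consEquiv (fun _ : Fin (N + 1) => G)), Fintype.sum_prod_type]
    have h1 : ∀ a : G, ∑ t : Fin N → G,
        (∏ i, w ((Fin.consEquiv (fun _ : Fin (N + 1) => G)) (a, t) i)) *
          f (List.ofFn ((Fin.consEquiv (fun _ : Fin (N + 1) => G)) (a, t))).prod
        = ∑ x : G, f x * (w a * cw w N (a⁻¹ * x)) := by
      intro a
      have h2 : ∀ t : Fin N → G,
          (∏ i, w ((Fin.consEquiv (fun _ : Fin (N + 1) => G)) (a, t) i)) *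
            f (List.ofFn ((Fin.consEquiv (fun _ : Fin (N + 1) => G)) (a, t))).prod
          = w a * ((∏ i, w (t i)) * f (a * (List.ofFn t).prod)) := by
        intro t
        have h3 : (∏ i, w ((Fin.consEquiv (fun _ : Fin (N + 1) => G)) (a, t) i)) =
            w a * ∏ i, w (t i) := by
          rw [Fin.prod_univ_succ]
          rfl
        have h4 : (List.ofFn ((Fin.consEquiv (fun _ : Fin (N + 1) => G)) (a, t))).prod
            = a * (List.ofFn t).prod := by
          rw [List.ofFn_succ, List.prod_cons]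
          rfl
        rw [h3, h4, mul_assoc]
      rw [Finset.sum_congr rfl (fun t _ => h2 t), ← Finset.mul_sum, ih (fun x => f (a * x)),
        Finset.mul_sum, ← Equiv.sum_comp (Equiv.mulLeft a)
          (fun x => f x * (w a * cw w N (a⁻¹ * x)))]
      refine Finset.sum_congr rfl fun x _ => ?_
      simp only [Equiv.coe_mulLeft, inv_mul_cancel_left]
      ring
    rw [Finset.sum_congr rfl (fun a _ => h1 a), Finset.sum_comm]
    refine Finset.sum_congr rfl fun x _ => ?_
    rw [← Finset.mul_sum]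
    rfl

open Classical in
/-- the base case -/
theorem tup_base (p : ℕ) {j : ℕ} (hj : (Nat.card G).Coprime j) (N : ℕ) (f : G → ℤ) :
    ∑ t : Fin N → G, (if ∀ i, t i ^ p = 1 ∧ t i ≠ 1 then
      f ((List.ofFn t).prod ^ j) - f (List.ofFn t).prod else 0) = 0 := by
  let w : G → ℤ := fun z => if z ^ p = 1 ∧ z ≠ 1 then 1 else 0
  have h1 : ∀ t : Fin N → G, (if ∀ i, t i ^ p = 1 ∧ t i ≠ 1 then
      f ((List.ofFn t).prod ^ j) - f (List.ofFn t).prod else 0) =
      (∏ i, w (t i)) * f ((List.ofFn t).prod ^ j) - (∏ i, w (t i)) * f (List.ofFn t).prod := by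
    intro t
    by_cases h : ∀ i, t i ^ p = 1 ∧ t i ≠ 1
    · have h2 : ∏ i, w (t i) = 1 := Finset.prod_eq_one fun i _ => if_pos (h i)
      rw [if_pos h, h2, one_mul, one_mul]
    · obtain ⟨i, hi⟩ := not_forall.1 h
      have h2 : ∏ i, w (t i) = 0 := Finset.prod_eq_zero (Finset.mem_univ i) (if_neg hi)
      rw [if_neg h, h2, zero_mul, zero_mul, sub_zero]
  rw [Finset.sum_congr rfl (fun t _ => h1 t), Finset.sum_sub_distrib, sub_eq_zero,
    sum_cw w N (fun x => f (x ^ j)), sum_cw w N f,
    ← Equiv.sum_comp (powCoprime hj) (fun x => f x * cw w N x)]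
  refine Finset.sum_congr rfl fun x _ => ?_
  change f (x ^ j) * cw w N x = f (x ^ j) * cw w N (x ^ j)
  rw [cw_pow ?_ hj ?_ N x]
  · intro c x
    refine if_congr ?_ rfl rfl
    rw [conj_pow, conj_eq_one_iff, Ne, conj_eq_one_iff]
  · intro x
    refine if_congr ?_ rfl rfl
    have h2 := GalFAux.pow_one_iff hj x p
    have h3 := GalFAux.pow_one_iff hj x 1
    rw [pow_one, pow_one] at h3
    rw [h2, Ne, h3]

open Classical in
/-- the base case for commutators -/
theorem cm_base {j : ℕ} (hj : (Nat.card G).Coprime j) (f : G → ℤ) :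
    ∑ t : Fin 2 → G, (f (cmt (t 0) (t 1) ^ j) - f (cmt (t 0) (t 1))) = 0 := by
  have h1 : ∀ u : G → ℤ, ∑ t : Fin 2 → G, u (cmt (t 0) (t 1)) = ∑ x : G, u x * GalB.cmm x := by
    intro u
    have h2 : ∑ x : G, u x * GalB.cmm x =
        ∑ a : G, ∑ b : G, ∑ x : G, u x * (if cmt a b = x then 1 else 0) := by
      unfold GalB.cmm
      simp only [Finset.mul_sum]
      rw [Finset.sum_comm]
      refine Finset.sum_congr rfl fun a _ => ?_
      rw [Finset.sum_comm]
    rw [h2, ← Equiv.sum_comp (finTwoArrowEquiv G).symm, Fintype.sum_prod_type]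
    refine Finset.sum_congr rfl fun a _ => Finset.sum_congr rfl fun b _ => ?_
    rw [Finset.sum_eq_single (cmt a b)]
    · rw [if_pos rfl, mul_one]
      rfl
    · intro y _ hy
      rw [if_neg (fun h => hy h.symm), mul_zero]
    · intro h; exact absurd (Finset.mem_univ _) h
  rw [Finset.sum_sub_distrib, sub_eq_zero, h1 (fun x => f (x ^ j)), h1 f,
    ← Equiv.sum_comp (powCoprime hj) (fun x => f x * GalB.cmm x)]
  refine Finset.sum_congr rfl fun x _ => ?_
  change f (x ^ j) * GalB.cmm x = f (x ^ j) * GalB.cmm (x ^ j)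
  rw [GalB.cmm_pow hj]

end tup

/-! ### the two cases -/

theorem eX_eq (N : ℕ) (x : A) : eX p N x =
    cnt p (fun t : Fin N → A => ∀ i, t i ^ p = 1 ∧ t i ≠ 1) (fun t => (List.ofFn t).prod) x := rfl

theorem eC_eq (x : A) : eC p x =
    cnt p (fun _ : Fin 2 → A => True) (fun t => cmt (t 0) (t 1)) x := by
  have h : Nat.card {t : A × A // cmt t.1 t.2 = x ∧
      Opr p (⊤ : Subgroup A) ≤ Subgroup.closure ({t.1, t.2} : Set A)} =
      Nat.card {t : Fin 2 → A // True ∧ cmt (t 0) (t 1) = x ∧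
        Opr p (⊤ : Subgroup A) ≤ gT t} := by
    refine Nat.card_congr (((finTwoArrowEquiv A).symm).subtypeEquiv fun t => ?_)
    have h1 : gT ((finTwoArrowEquiv A).symm t) = Subgroup.closure ({t.1, t.2} : Set A) := by
      unfold gT
      have h2 : Set.range ((finTwoArrowEquiv A).symm t) = {t.1, t.2} := by
        ext y
        constructor
        · rintro ⟨i, rfl⟩
          fin_cases i
          · exact Or.inl rfl
          · exact Or.inr rfl
        · rintro (rfl | rfl)
          · exact ⟨0, rfl⟩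
          · exact ⟨1, rfl⟩
      rw [h2]
    rw [h1]
    exact ⟨fun h => ⟨trivial, h⟩, fun h => h.2⟩
  unfold eC cnt
  rw [h]

theorem prod_cjt {N : ℕ} (g : A) (t : Fin N → A) :
    (List.ofFn (cjt g t)).prod = g * (List.ofFn t).prod * g⁻¹ := by
  have h2 : List.ofFn (cjt g t) = (List.ofFn t).map (MulAut.conj g).toMonoidHom := by
    rw [List.map_ofFn]
    rfl
  rw [h2, ← map_list_prod]
  rfl

theorem ord_cjt {N : ℕ} (g : A) (t : Fin N → A) :
    (∀ i, cjt g t i ^ p = 1 ∧ cjt g t i ≠ 1) ↔ ∀ i, t i ^ p = 1 ∧ t i ≠ 1 := by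
  refine forall_congr' fun i => ?_
  unfold cjt
  rw [conj_pow, conj_eq_one_iff, Ne, conj_eq_one_iff]

theorem cmt_cjt (g : A) (t : Fin 2 → A) :
    cmt (cjt g t 0) (cjt g t 1) = g * cmt (t 0) (t 1) * g⁻¹ := by
  unfold cmt cjt
  group

end GcAux

open GcAux TCAux

theorem eX_conj (N : ℕ) (g x : A) : eX p N (g * x * g⁻¹) = eX p N x := by
  rw [eX_eq, eX_eq]
  exact cnt_conj ord_cjt prod_cjt g x

theorem eC_conj (g x : A) : eC p (g * x * g⁻¹) = eC p x := by
  rw [eC_eq, eC_eq]
  exact cnt_conj (fun _ _ => Iff.rfl) cmt_cjt g x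

variable [Finite A]

theorem eX_pow {j : ℕ} (hj : (Nat.card A).Coprime j) (N : ℕ) (x : A) :
    eX p N (x ^ j) = eX p N x := by
  classical
  cases nonempty_fintype A
  rw [eX_eq, eX_eq]
  refine cnt_pow ord_cjt prod_cjt hj (fun H f => ?_) x
  have hjH : (Nat.card ↥H).Coprime j := Nat.Coprime.coprime_dvd_left H.card_subgroup_dvd_card hj
  have h := tup_base (G := ↥H) p hjH N (fun x => f x)
  refine Eq.trans ?_ h
  refine Finset.sum_congr rfl fun t _ => ?_
  have h1 : (List.ofFn (up H t)).prod = (((List.ofFn t).prod : ↥H) : A) := by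
    have h2 : List.ofFn (up H t) = (List.ofFn t).map H.subtype := by
      rw [List.map_ofFn]
      rfl
    rw [h2, ← map_list_prod]
    rfl
  have h3 : (∀ i, up H t i ^ p = 1 ∧ up H t i ≠ 1) ↔ ∀ i, t i ^ p = 1 ∧ t i ≠ 1 := by
    refine forall_congr' fun i => ?_
    change ((t i : A) ^ p = 1 ∧ (t i : A) ≠ 1) ↔ _
    rw [← Subgroup.coe_pow, OneMemClass.coe_eq_one, Ne, OneMemClass.coe_eq_one]
  rw [h1]
  by_cases h5 : ∀ i, t i ^ p = 1 ∧ t i ≠ 1
  · rw [if_pos (h3.2 h5), if_pos h5]
    rfl
  · rw [if_neg (fun h => h5 (h3.1 h)), if_neg h5]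

theorem eC_pow {j : ℕ} (hj : (Nat.card A).Coprime j) (x : A) : eC p (x ^ j) = eC p x := by
  classical
  cases nonempty_fintype A
  rw [eC_eq, eC_eq]
  refine cnt_pow (fun _ _ => Iff.rfl) cmt_cjt hj (fun H f => ?_) x
  have hjH : (Nat.card ↥H).Coprime j := Nat.Coprime.coprime_dvd_left H.card_subgroup_dvd_card hj
  have h := cm_base (G := ↥H) hjH (fun x => f x)
  refine Eq.trans ?_ h
  refine Finset.sum_congr rfl fun t _ => ?_
  rw [if_pos trivial]
  rfl

theorem eX_dvd [Fact p.Prime] (hO : NoP p (⊤ : Subgroup A)) (N : ℕ) (x : A) :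
    ((ordProj[p] (Nat.card (Subgroup.centralizer ({x} : Set A))) : ℕ) : ℤ) ∣ eX p N x := by
  cases nonempty_fintype A
  rw [eX_eq]
  exact cnt_dvd hO ord_cjt prod_cjt x

theorem eC_dvd [Fact p.Prime] (hO : NoP p (⊤ : Subgroup A)) (x : A) :
    ((ordProj[p] (Nat.card (Subgroup.centralizer ({x} : Set A))) : ℕ) : ℤ) ∣ eC p x := by
  cases nonempty_fintype A
  rw [eC_eq]
  exact cnt_dvd hO (fun _ _ => Iff.rfl) cmt_cjt x

end Pool.Agent.Lib.P0c8ca5.Rc
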