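import Mathlib
import Pool.Agent.Lib.P0c8ca5V.GalG
import Pool.Agent.Lib.P0c8ca5Rc.Lf

/-!
# RatS: sums over the classes that are not rational

PROOF. Copy `GalG.rat_sumL` (P0c8ca5V.GalG, complete; it uses the group `Lam p A` of the permutations `x ↦ x ^ j` with `GalJ p A j`, `j ≡ 1 [MOD p]`, a p-group, P0c8ca5V.GalE) with the exponents `j ≡ 1 [MOD p ^ a]`, `p ^ a = ordProj[p] |A|`, `PJ p |A| j`: the permutations `x ↦ x ^ j` of `A` with such `j`
form a p-group `Lam'` (if `j ≡ 1 [MOD p ^ a]` and `j ^ p ^ n ≡ 1 [MOD ordCompl[p] |A|]` then `j ^ p ^ n ≡ 1 [MOD |A|]`), they commute with conjugation; every `j` with `PJ p |A| j` acts on the p-regular elements as one of them (CRT). `φ` is invariant under `Lam'` and conjugation, `|C(x)|_p ∣ φ x`;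
if `x` is p-regular and not `RatC`, then by `ratC_iff` some element of `Lam'` moves the class of `x`, and the orbit of the class has length divisible by `p`; the sum of `φ` over a class is divisible by `|A|_p`.
-/

namespace Pool.Agent.Lib.P0c8ca5.Rc

namespace RatSAux

open GalE RotAux

variable {p : ℕ} {A : Type*} [Group A]

theorem PJ_one (p N : ℕ) : PJ p N 1 := ⟨Nat.coprime_one_right _, 0, by simp; rfl⟩

theorem PJ_pow {N j : ℕ} (hj : PJ p N j) (n : ℕ) : PJ p N (j ^ n) := by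
  induction n with
  | zero =>
    rw [pow_zero]
    exact PJ_one p N
  | succ n ih =>
    rw [pow_succ]
    exact PJ_mul ih hj

/-- the group of the permutations `x ↦ x ^ j`, `PJ p |A| j`, `j = 1` modulo the p-part of `|A|` -/
def LamQ (p : ℕ) (A : Type*) [Group A] [Finite A] : Subgroup (Equiv.Perm A) where
  carrier := {π | ∃ j : ℕ, PJ p (Nat.card A) j ∧ j ≡ 1 [MOD ordProj[p] (Nat.card A)] ∧
    ∀ x, π x = x ^ j}
  one_mem' := ⟨1, PJ_one p _, rfl, fun x => by simp⟩
  mul_mem' := by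
    rintro π π' ⟨j, hj, hj1, hj2⟩ ⟨j', hj', hj1', hj2'⟩
    refine ⟨j' * j, PJ_mul hj' hj, ?_, fun x => ?_⟩
    · have h := hj1'.mul hj1
      rwa [mul_one] at h
    · rw [Equiv.Perm.mul_apply, hj2, hj2', pow_mul]
  inv_mem' := by
    rintro π ⟨j, hj, hj1, hj2⟩
    have hfin : IsOfFinOrder π := isOfFinOrder_of_finite π
    have h1 : π⁻¹ = π ^ (orderOf π - 1) := by
      rw [inv_eq_iff_mul_eq_one, ← pow_succ', Nat.sub_add_cancel hfin.orderOf_pos,
        pow_orderOf_eq_one]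
    rw [h1]
    refine ⟨j ^ (orderOf π - 1), PJ_pow hj _, ?_, fun x => ?_⟩
    · have h := hj1.pow (orderOf π - 1)
      rwa [one_pow] at h
    · generalize orderOf π - 1 = n
      induction n generalizing x with
      | zero => simp
      | succ n ih =>
        rw [pow_succ', Equiv.Perm.mul_apply, ih, hj2, ← pow_mul, pow_succ]

theorem LamQ_pGroup [Fact p.Prime] [Finite A] : IsPGroup p (LamQ p A) := by
  have hp : p.Prime := Fact.out
  rintro ⟨π, j, ⟨-, n, hn⟩, hj1, hj2⟩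
  refine ⟨n, ?_⟩
  apply Subtype.ext
  apply Equiv.ext
  intro x
  have h1 : ∀ n : ℕ, ∀ x, (π ^ n) x = x ^ (j ^ n) := by
    intro n
    induction n with
    | zero => intro x; simp
    | succ n ih =>
      intro x
      rw [pow_succ', Equiv.Perm.mul_apply, ih, hj2, ← pow_mul, pow_succ]
  change (π ^ p ^ n) x = x
  rw [h1]
  conv_rhs => rw [← pow_one x]
  rw [pow_eq_pow_iff_modEq]
  have h2 : j ^ p ^ n ≡ 1 [MOD Nat.card A] := by
    have h3 : Nat.card A = ordProj[p] (Nat.card A) * ordCompl[p] (Nat.card A) :=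
      (Nat.ordProj_mul_ordCompl_eq_self (Nat.card A) p).symm
    have h4 : Nat.Coprime (ordProj[p] (Nat.card A)) (ordCompl[p] (Nat.card A)) :=
      (Nat.coprime_ordCompl hp Nat.card_pos.ne').pow_left _
    have h5 : j ^ p ^ n ≡ 1 [MOD ordProj[p] (Nat.card A)] := by
      have h := hj1.pow (p ^ n)
      rwa [one_pow] at h
    have h6 := (Nat.modEq_and_modEq_iff_modEq_mul h4).1 ⟨h5, hn⟩
    rwa [← h3] at h6
  exact h2.of_dvd (orderOf_dvd_natCard x)

/-- the action of the exponents on the p-regular elements is the action of `LamQ` -/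
theorem exists_LamQ [Fact p.Prime] [Finite A] {j : ℕ} (hj : PJ p (Nat.card A) j) :
    ∃ i : ℕ, PJ p (Nat.card A) i ∧ i ≡ 1 [MOD ordProj[p] (Nat.card A)] ∧
      ∀ x : A, Preg p x → x ^ i = x ^ j := by
  have hp : p.Prime := Fact.out
  have h3 : Nat.card A = ordProj[p] (Nat.card A) * ordCompl[p] (Nat.card A) :=
    (Nat.ordProj_mul_ordCompl_eq_self (Nat.card A) p).symm
  have h4 : Nat.Coprime (ordProj[p] (Nat.card A)) (ordCompl[p] (Nat.card A)) :=
    (Nat.coprime_ordCompl hp Nat.card_pos.ne').pow_left _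
  obtain ⟨i, hi1, hi2⟩ := Nat.chineseRemainder h4 1 j
  obtain ⟨hj0, n, hn⟩ := hj
  refine ⟨i, ⟨?_, n, (hi2.pow _).trans hn⟩, hi1, fun x hx => ?_⟩
  · have k1 : Nat.Coprime (ordProj[p] (Nat.card A)) i := by
      rw [Nat.coprime_iff_gcd_eq_one, Nat.gcd_comm, hi1.gcd_eq]
      exact Nat.gcd_one_left _
    have k2 : Nat.Coprime (ordCompl[p] (Nat.card A)) i := by
      rw [Nat.coprime_iff_gcd_eq_one, Nat.gcd_comm, hi2.gcd_eq, Nat.gcd_comm]
      exact Nat.Coprime.coprime_dvd_left (Nat.ordCompl_dvd (Nat.card A) p) hj0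
    rw [h3]
    exact Nat.Coprime.mul_left k1 k2
  · rw [pow_eq_pow_iff_modEq]
    refine hi2.of_dvd ?_
    have h5 : orderOf x ∣ ordProj[p] (Nat.card A) * ordCompl[p] (Nat.card A) := by
      rw [← h3]
      exact orderOf_dvd_natCard x
    refine Nat.Coprime.dvd_of_dvd_mul_left ?_ h5
    exact (((Nat.Prime.coprime_iff_not_dvd hp).2 hx).pow_left _).symm

/-- all powers are conjugate -/
def RatQ (p : ℕ) (x : A) : Prop := ∀ j : ℕ, PJ p (Nat.card A) j → IsConj x (x ^ j)

theorem ratQ_conj (g x : A) : RatQ p (g * x * g⁻¹) ↔ RatQ p x := by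
  unfold RatQ
  refine forall_congr' fun j => forall_congr' fun _ => ?_
  have h1 : IsConj x (g * x * g⁻¹) := isConj_iff.2 ⟨g, rfl⟩
  have h2 : IsConj (x ^ j) ((g * x * g⁻¹) ^ j) := by
    rw [conj_pow]
    exact isConj_iff.2 ⟨g, rfl⟩
  exact ⟨fun h => (h1.trans h).trans h2.symm, fun h => (h1.symm.trans h).trans h2⟩

theorem ratQ_of_pow {x : A} (j : ℕ) (h : RatQ p x) : RatQ p (x ^ j) := by
  intro i hi
  have h1 := isConj_pow (h i hi) j
  rwa [← pow_mul, mul_comm, pow_mul] at h1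

theorem ratQ_perm [Finite A] {π : Equiv.Perm A} (hπ : π ∈ LamQ p A) (x : A) :
    RatQ p (π x) ↔ RatQ p x := by
  have h1 : ∀ π ∈ LamQ p A, ∀ x : A, RatQ p x → RatQ p (π x) := by
    rintro π ⟨j, _, _, hj⟩ x hx
    rw [hj]
    exact ratQ_of_pow j hx
  refine ⟨fun h => ?_, h1 π hπ x⟩
  have h2 := h1 π⁻¹ ((LamQ p A).inv_mem hπ) _ h
  have h3 : π⁻¹ (π x) = x := by
    rw [← Equiv.Perm.mul_apply, inv_mul_cancel]
    rfl
  rwa [h3] at h2

theorem phi_permQ [Finite A] {φ : A → ℤ} (hr : ∀ x, φ x ≠ 0 → Preg p x)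
    (hj : ∀ j, PJ p (Nat.card A) j → ∀ x, Preg p x → φ (x ^ j) = φ x)
    {π : Equiv.Perm A} (hπ : π ∈ LamQ p A) (x : A) : φ (π x) = φ x := by
  obtain ⟨j, hj1, _, hj2⟩ := hπ
  rw [hj2]
  by_cases hx : Preg p x
  · exact hj j hj1 x hx
  · have h1 : φ x = 0 := by
      by_contra h
      exact hx (hr x h)
    have h2 : φ (x ^ j) = 0 := by
      by_contra h
      have h3 := hr _ h
      unfold Preg at h3 hx
      rw [Nat.Coprime.orderOf_pow
        (Nat.Coprime.coprime_dvd_left (orderOf_dvd_natCard x) hj1.1)] at h3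
      exact hx h3
    rw [h1, h2]

end RatSAux

open GalE RotAux RatSAux

open Classical in
theorem rat_sumQ {p : ℕ} [Fact p.Prime] {A : Type*} [Group A] [Fintype A] {φ : A → ℤ}
    (hcl : ∀ c x, φ (c * x * c⁻¹) = φ x) (hr : ∀ x, φ x ≠ 0 → Preg p x)
    (hj : ∀ j, PJ p (Nat.card A) j → ∀ x, Preg p x → φ (x ^ j) = φ x)
    (hd : ∀ x, φ x ≠ 0 →
      ((ordProj[p] (Nat.card (Subgroup.centralizer ({x} : Set A))) : ℕ) : ℤ) ∣ φ x) :
    (p : ℤ) * (ordProj[p] (Nat.card A) : ℕ) ∣ ∑ x : A, if RatC p x then 0 else φ x := by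
  have hp : p.Prime := Fact.out
  have hRR : ∀ x : A, (if RatC p x then 0 else φ x) = if RatQ p x then 0 else φ x := by
    intro x
    by_cases h0 : φ x = 0
    · rw [h0, ite_self, ite_self]
    · have h1 : RatC p x ↔ RatQ p x := ratC_iff (hr x h0)
      by_cases h2 : RatC p x
      · rw [if_pos h2, if_pos (h1.1 h2)]
      · rw [if_neg h2, if_neg (fun h3 => h2 (h1.2 h3))]
  rw [Finset.sum_congr rfl (fun x _ => hRR x)]
  have hCp : IsPGroup p (LamQ p A) := LamQ_pGroup
  have hcomm : ∀ (g : A) (c : ↥(LamQ p A)), Commute (cjA g) ((LamQ p A).subtype c) := by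
    rintro g ⟨c, j, hj1, hj2, hj3⟩
    apply Equiv.ext
    intro x
    change g * c x * g⁻¹ = c (g * x * g⁻¹)
    rw [hj3, hj3, conj_pow]
  let Ψ : A × ↥(LamQ p A) →* Equiv.Perm A :=
    MonoidHom.noncommCoprod cjA (LamQ p A).subtype hcomm
  let _ : MulAction (A × ↥(LamQ p A)) A := MulAction.compHom _ Ψ
  have hsm : ∀ (g : A) (c : ↥(LamQ p A)) (x : A),
      ((g, c) : A × ↥(LamQ p A)) • x = g * (c : Equiv.Perm A) x * g⁻¹ := fun _ _ _ => rfl
  have hcard : ∀ K : Subgroup ↥(LamQ p A), ordProj[p] (Nat.card K) = Nat.card K := by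
    intro K
    obtain ⟨n, hn⟩ := IsPGroup.iff_card.1 (hCp.to_subgroup K)
    rw [hn, hp.factorization_pow]
    simp
  have hcard' : ordProj[p] (Nat.card ↥(LamQ p A)) = Nat.card ↥(LamQ p A) := by
    obtain ⟨n, hn⟩ := IsPGroup.iff_card.1 hCp
    rw [hn, hp.factorization_pow]
    simp
  have key := orb_dvd_p (p := p) (T := A × ↥(LamQ p A)) (X := A)
    (fun x => ((Nat.card ↥(LamQ p A) : ℕ) : ℤ) * (if RatQ p x then 0 else φ x)) ?_ (p : ℤ) ?_
  · rw [← Finset.mul_sum, Nat.card_prod, Nat.ordProj_mul p Nat.card_pos.ne' Nat.card_pos.ne',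
      hcard'] at key
    have h1 : (((Nat.card ↥(LamQ p A) : ℕ) : ℤ)) ≠ 0 := by
      exact_mod_cast (Nat.card_pos (α := ↥(LamQ p A))).ne'
    have h2 : (p : ℤ) * ((ordProj[p] (Nat.card A) * Nat.card ↥(LamQ p A) : ℕ) : ℤ)
        = ((Nat.card ↥(LamQ p A) : ℕ) : ℤ) * ((p : ℤ) * (ordProj[p] (Nat.card A) : ℕ)) := by
      push_cast
      ring
    rw [h2] at key
    exact (mul_dvd_mul_iff_left h1).1 key
  · rintro ⟨g, c⟩ x
    simp only [hsm, hcl, phi_permQ hr hj c.2]
    have h1 : RatQ p (g * (c : Equiv.Perm A) x * g⁻¹) ↔ RatQ p x :=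
      (ratQ_conj g _).trans (ratQ_perm c.2 x)
    congr 1
    exact if_congr h1 rfl rfl
  · intro x
    by_cases hx : RatQ p x
    · simp only [if_pos hx, mul_zero]
      exact dvd_zero _
    by_cases hφ : φ x = 0
    · simp only [hφ, ite_self, mul_zero]
      exact dvd_zero _
    simp only [if_neg hx]
    let S : Subgroup (A × ↥(LamQ p A)) := MulAction.stabilizer (A × ↥(LamQ p A)) x
    let π : ↥S →* ↥(LamQ p A) := (MonoidHom.snd A ↥(LamQ p A)).comp S.subtype
    have hπ : ∀ s : ↥S, π s = (s : A × ↥(LamQ p A)).2 := fun s => rfl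
    have hker : Nat.card π.ker = Nat.card (Subgroup.centralizer ({x} : Set A)) := by
      refine Nat.card_congr
        { toFun := fun s => ⟨((s : ↥S) : A × ↥(LamQ p A)).1, ?_⟩
          invFun := fun g => ⟨⟨((g : A), 1), ?_⟩, ?_⟩
          left_inv := ?_
          right_inv := ?_ }
      · have h2 : ((s : ↥S) : A × ↥(LamQ p A)).2 = 1 := s.2
        have h3 : (((s : ↥S) : A × ↥(LamQ p A))) • x = x := (s : ↥S).2
        have h4 := hsm ((s : ↥S) : A × ↥(LamQ p A)).1 ((s : ↥S) : A × ↥(LamQ p A)).2 x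
        rw [Prod.mk.eta, h3, h2] at h4
        rw [Subgroup.mem_centralizer_singleton_iff]
        have h5 : x = ((s : ↥S) : A × ↥(LamQ p A)).1 * x * (((s : ↥S) : A × ↥(LamQ p A)).1)⁻¹ :=
          h4
        exact (mul_inv_eq_iff_eq_mul.1 h5.symm)
      · change (g : A) * x * (g : A)⁻¹ = x
        have h5 := Subgroup.mem_centralizer_singleton_iff.1 g.2
        rw [mul_inv_eq_iff_eq_mul]
        exact h5
      · rfl
      · intro s
        apply Subtype.ext
        apply Subtype.ext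
        have h2 : ((s : ↥S) : A × ↥(LamQ p A)).2 = 1 := s.2
        exact Prod.ext rfl h2.symm
      · intro g
        rfl
    have hidx : p ∣ π.range.index := by
      obtain ⟨n, hn⟩ := hCp.index π.range
      have h1 : n ≠ 0 := by
        rintro rfl
        rw [pow_zero, Subgroup.index_eq_one] at hn
        apply hx
        intro j hj0
        obtain ⟨i, hi0, hi1, hi2⟩ := exists_LamQ hj0
        rw [← hi2 x (hr x hφ)]
        let σ : ↥(LamQ p A) := ⟨powCoprime hi0.1, i, hi0, hi1, fun _ => rfl⟩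
        have h2 : σ ∈ π.range := by
          rw [hn]
          exact Subgroup.mem_top _
        obtain ⟨s, hs⟩ := h2
        rw [hπ] at hs
        have h3 : ((s : A × ↥(LamQ p A))) • x = x := s.2
        have h4 := hsm (s : A × ↥(LamQ p A)).1 (s : A × ↥(LamQ p A)).2 x
        rw [Prod.mk.eta, h3, hs] at h4
        have h5 : x = (s : A × ↥(LamQ p A)).1 * x ^ i * ((s : A × ↥(LamQ p A)).1)⁻¹ := h4
        exact (isConj_iff.2 ⟨_, h5.symm⟩).symm
      rw [hn]
      exact dvd_pow_self p h1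
    have h1 : Nat.card ↥S = Nat.card π.ker * Nat.card π.range := by
      rw [← Subgroup.index_ker, Subgroup.card_mul_index]
    have h2 : Nat.card π.range * π.range.index = Nat.card ↥(LamQ p A) :=
      Subgroup.card_mul_index _
    obtain ⟨i, hi⟩ := hidx
    obtain ⟨d, hd'⟩ := hd x hφ
    change (p : ℤ) * ((ordProj[p] (Nat.card ↥S) : ℕ) : ℤ) ∣ _
    rw [h1, Nat.ordProj_mul p Nat.card_pos.ne' Nat.card_pos.ne', hcard, hker, ← h2, hi, hd']
    refine ⟨(i : ℤ) * d, ?_⟩
    push_cast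
    ring

end Pool.Agent.Lib.P0c8ca5.Rc
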