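import Mathlib
import Pool.Agent.Lib.P0c8ca5Gs.PrT
import Pool.Agent.Lib.P0c8ca5Rc.Gc
import Pool.Agent.Lib.P0c8ca5Rc.RatS

/-!
# RatP: invariant weights and rational classes, pairs

PROOF. For p-regular `c` let `ψ c = ∑ y, [pr p y = c, orderOf (y * (pr p y)⁻¹) = p] eC p y`, and `0` for other `c`. `bT p ⊤ (Pt p m) = ∑ c, m c⁻¹ * ψ c` (sort the pairs by the commutator `y`; `(pr p y)⁻¹ = pr p y⁻¹`, `order_pp`, P0c8ca5Gs.Sx). `ψ` is a class function (`eC_conj`), `ψ (c ^ j) = ψ c` for `PJ p |G| j` (substitute `y ↦ y ^ j`, `eC_pow`;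
`pr p (y ^ j) = (pr p y) ^ j` and the order of the p-part does not change), and `|C(c)|_p ∣ ψ c`: `C(c)` acts by conjugation on the `y` with `pr p y = c`, the orbit of `y` has `|C(c) : C(y)|` elements (`C(y) ≤ C(c)`, as `c` is a power of `y`) and `|C(y)|_p ∣ eC p y` (`eC_dvd`).
`rat_sumQ` for `φ c = m c⁻¹ * ψ c`, then as in RatT; the number of pairs for `c` is `∑ x conjugate to c, ψ x`. See also `Pt_cls` (P0c8ca5Gs.PrT).
-/

namespace Pool.Agent.Lib.P0c8ca5.Rc

open MonoidAlgebra Gs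

namespace RatPAux

section
variable {p : ℕ} {G : Type*} [Group G]

/-- the pairs -/
def PP (p : ℕ) (y : G × G) : Prop :=
  Opr p (⊤ : Subgroup G) ≤ Subgroup.closure ({y.1, y.2} : Set G) ∧
    orderOf (cmt y.1 y.2 * (pr p (cmt y.1 y.2))⁻¹) = p

open Classical in
/-- the number of the pairs with commutator with p'-part `c` -/
noncomputable def psi [Fintype G] (p : ℕ) (c : G) : ℤ :=
  ∑ y : G, if pr p y = c ∧ orderOf (y * (pr p y)⁻¹) = p then eC p y else 0

open Classical in
theorem eC_sum [Fintype G] (y : G) : eC p y = ∑ t : G × G, if cmt t.1 t.2 = y ∧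
    Opr p (⊤ : Subgroup G) ≤ Subgroup.closure ({t.1, t.2} : Set G) then (1 : ℤ) else 0 := by
  unfold eC
  rw [Nat.card_eq_fintype_card, Fintype.card_subtype, Finset.card_filter]
  push_cast
  rfl

open Classical in
theorem psi_pairs [Fintype G] (c : G) :
    psi p c = ∑ t : G × G, if PP p t ∧ pr p (cmt t.1 t.2) = c then (1 : ℤ) else 0 := by
  unfold psi
  have h1 : ∀ y : G, (if pr p y = c ∧ orderOf (y * (pr p y)⁻¹) = p then eC p y else 0) =
      ∑ t : G × G, if cmt t.1 t.2 = y then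
        (if PP p t ∧ pr p (cmt t.1 t.2) = c then (1 : ℤ) else 0) else 0 := by
    intro y
    by_cases h2 : pr p y = c ∧ orderOf (y * (pr p y)⁻¹) = p
    · rw [if_pos h2, eC_sum]
      refine Finset.sum_congr rfl fun t _ => ?_
      by_cases h3 : cmt t.1 t.2 = y
      · rw [if_pos h3]
        refine if_congr ⟨fun h4 => ⟨⟨h4.2, ?_⟩, ?_⟩, fun h4 => ⟨h3, h4.1.1⟩⟩ rfl rfl
        · rw [h3]
          exact h2.2
        · rw [h3]
          exact h2.1
      · rw [if_neg h3, if_neg (fun h4 => h3 h4.1)]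
    · rw [if_neg h2]
      symm
      refine Finset.sum_eq_zero fun t _ => ?_
      by_cases h3 : cmt t.1 t.2 = y
      · rw [if_pos h3, if_neg]
        rintro ⟨⟨_, h4⟩, h5⟩
        rw [h3] at h4 h5
        exact h2 ⟨h5, h4⟩
      · rw [if_neg h3]
  simp only [h1]
  rw [Finset.sum_comm]
  refine Finset.sum_congr rfl fun t _ => ?_
  rw [Finset.sum_ite_eq]
  rw [if_pos (Finset.mem_univ _)]

open Classical in
theorem sum_psi [Fintype G] (m : G → ℤ) (Q : G → Prop) :
    (∑ c : G, if Q c then m c⁻¹ * psi p c else 0) =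
      ∑ t : G × G, if PP p t ∧ Q (pr p (cmt t.1 t.2)) then m (pr p (cmt t.1 t.2))⁻¹ else 0 := by
  have h1 : ∀ c : G, (if Q c then m c⁻¹ * psi p c else 0) =
      ∑ t : G × G, if pr p (cmt t.1 t.2) = c then
        (if PP p t ∧ Q (pr p (cmt t.1 t.2)) then m (pr p (cmt t.1 t.2))⁻¹ else 0) else 0 := by
    intro c
    by_cases h2 : Q c
    · rw [if_pos h2, psi_pairs, Finset.mul_sum]
      refine Finset.sum_congr rfl fun t _ => ?_
      by_cases h3 : pr p (cmt t.1 t.2) = c
      · rw [if_pos h3]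
        by_cases h4 : PP p t
        · rw [if_pos ⟨h4, h3⟩, if_pos ⟨h4, by rw [h3]; exact h2⟩, h3, mul_one]
        · rw [if_neg (fun h5 => h4 h5.1), if_neg (fun h5 => h4 h5.1), mul_zero]
      · rw [if_neg h3, if_neg (fun h4 => h3 h4.2), mul_zero]
    · rw [if_neg h2]
      symm
      refine Finset.sum_eq_zero fun t _ => ?_
      by_cases h3 : pr p (cmt t.1 t.2) = c
      · rw [if_pos h3, if_neg]
        rintro ⟨_, h4⟩
        rw [h3] at h4
        exact h2 h4
      · rw [if_neg h3]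
  simp only [h1]
  rw [Finset.sum_comm]
  refine Finset.sum_congr rfl fun t _ => ?_
  rw [Finset.sum_ite_eq, if_pos (Finset.mem_univ _)]

theorem pp_order_conj (g y : G) :
    orderOf ((g * y * g⁻¹) * (pr p (g * y * g⁻¹))⁻¹) = orderOf (y * (pr p y)⁻¹) := by
  rw [SxAux.pp_conj]
  exact orderOf_injective (MulAut.conj g).toMonoidHom (MulAut.conj g).injective _

theorem psi_conj [Fintype G] (g c : G) : psi p (g * c * g⁻¹) = psi p c := by
  classical
  unfold psi
  refine (Fintype.sum_equiv (MulAut.conj g).toEquiv _ _ fun y => ?_).symm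
  have e1 : (MulAut.conj g).toEquiv y = g * y * g⁻¹ := rfl
  rw [e1, pr_conj, eC_conj]
  have h1 := pp_order_conj (p := p) g y
  rw [pr_conj] at h1
  rw [h1]
  refine if_congr (and_congr_left fun _ => ?_) rfl rfl
  constructor
  · intro h
    rw [h]
  · intro h
    exact mul_left_cancel (mul_right_cancel h)

theorem pr_pow (y : G) (j : ℕ) : pr p (y ^ j) = (pr p y) ^ j := by
  unfold pr
  rw [← pow_mul, ← pow_mul, mul_comm]

theorem psi_pow [Fintype G] {j : ℕ} (hj : (Nat.card G).Coprime j) (c : G) :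
    psi p (c ^ j) = psi p c := by
  classical
  unfold psi
  refine (Fintype.sum_equiv (powCoprime hj) _ _ fun y => ?_).symm
  have e1 : powCoprime hj y = y ^ j := rfl
  rw [e1, eC_pow hj, pr_pow]
  have h1 : y ^ j * ((pr p y) ^ j)⁻¹ = (y * (pr p y)⁻¹) ^ j := by
    have hc : Commute y (pr p y) := by
      unfold pr
      exact (Commute.refl y).pow_right _
    rw [hc.inv_right.mul_pow, inv_pow]
  have h2 : orderOf ((y * (pr p y)⁻¹) ^ j) = orderOf (y * (pr p y)⁻¹) := by
    refine Nat.Coprime.orderOf_pow ?_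
    exact Nat.Coprime.coprime_dvd_left (orderOf_dvd_natCard _) hj
  rw [h1, h2]
  refine if_congr (and_congr_left fun _ => ?_) rfl rfl
  constructor
  · intro h
    rw [h]
  · intro h
    exact (powCoprime hj).injective h

/-- conjugation action of the centralizer on pairs -/
@[reducible] def actP (x : G) : MulAction (Subgroup.centralizer ({x} : Set G)) (G × G) where
  smul g t := ((g : G) * t.1 * (g : G)⁻¹, (g : G) * t.2 * (g : G)⁻¹)
  one_smul t := by
    change ((1 : G) * t.1 * (1 : G)⁻¹, (1 : G) * t.2 * (1 : G)⁻¹) = t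
    simp
  mul_smul g h t := by
    change ((g : G) * h * t.1 * ((g : G) * h)⁻¹, (g : G) * h * t.2 * ((g : G) * h)⁻¹) =
      (g * (h * t.1 * (h : G)⁻¹) * (g : G)⁻¹, g * (h * t.2 * (h : G)⁻¹) * (g : G)⁻¹)
    refine Prod.ext ?_ ?_
    · change (g : G) * h * t.1 * ((g : G) * h)⁻¹ = g * (h * t.1 * (h : G)⁻¹) * (g : G)⁻¹
      group
    · change (g : G) * h * t.2 * ((g : G) * h)⁻¹ = g * (h * t.2 * (h : G)⁻¹) * (g : G)⁻¹
      group

theorem psi_dvd [Fact p.Prime] [Fintype G] (hO : NoP p (⊤ : Subgroup G)) (c : G) :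
    ((ordProj[p] (Nat.card (Subgroup.centralizer ({c} : Set G))) : ℕ) : ℤ) ∣ psi p c := by
  classical
  rw [psi_pairs]
  have key := @orb_dvd_p p _ (Subgroup.centralizer ({c} : Set G)) (G × G) _ _ (actP c) _
    (fun t => if PP p t ∧ pr p (cmt t.1 t.2) = c then (1 : ℤ) else 0) ?_ 1 ?_
  · rw [one_mul] at key
    exact key
  · intro g t
    change (if PP p ((g : G) * t.1 * (g : G)⁻¹, (g : G) * t.2 * (g : G)⁻¹) ∧
      pr p (cmt ((g : G) * t.1 * (g : G)⁻¹) ((g : G) * t.2 * (g : G)⁻¹)) = c then (1 : ℤ) else 0)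
        = _
    have h1 : cmt ((g : G) * t.1 * (g : G)⁻¹) ((g : G) * t.2 * (g : G)⁻¹) =
        g * cmt t.1 t.2 * (g : G)⁻¹ := ChOrbAux.cmt_conj (g : G) t.1 t.2
    have hg : c * (g : G) = g * c := Subgroup.mem_centralizer_singleton_iff.1 g.2 |>.symm
    have h2 : PP p ((g : G) * t.1 * (g : G)⁻¹, (g : G) * t.2 * (g : G)⁻¹) ↔ PP p t := by
      unfold PP
      refine and_congr (GalD.opr_closure_conj (p := p) (g : G) t.1 t.2) ?_
      have h3 := pp_order_conj (p := p) (g : G) (cmt t.1 t.2)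
      rw [← h1] at h3
      change orderOf (cmt ((g : G) * t.1 * (g : G)⁻¹) ((g : G) * t.2 * (g : G)⁻¹) *
        (pr p (cmt ((g : G) * t.1 * (g : G)⁻¹) ((g : G) * t.2 * (g : G)⁻¹)))⁻¹) = p ↔ _
      rw [h3]
    refine if_congr (and_congr h2 ?_) rfl rfl
    rw [h1, pr_conj]
    constructor
    · intro h
      rw [mul_inv_eq_iff_eq_mul, hg] at h
      exact mul_left_cancel h
    · intro h
      rw [h, mul_inv_eq_iff_eq_mul, hg]
  · intro t
    by_cases h : PP p t ∧ pr p (cmt t.1 t.2) = c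
    · have h1 : ¬ p ∣ Nat.card (@MulAction.stabilizer (Subgroup.centralizer ({c} : Set G))
          (G × G) _ (actP c) t) := by
        intro h2
        obtain ⟨g, hg⟩ := exists_prime_orderOf_dvd_card' p h2
        have h3 : ((((g : Subgroup.centralizer ({c} : Set G)) : G) * t.1 *
            ((g : Subgroup.centralizer ({c} : Set G)) : G)⁻¹,
            ((g : Subgroup.centralizer ({c} : Set G)) : G) * t.2 *
            ((g : Subgroup.centralizer ({c} : Set G)) : G)⁻¹) : G × G) = t := g.2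
        have h4 : cj3 ((g : Subgroup.centralizer ({c} : Set G)) : G) (t.1, t.2, 1) =
            (t.1, t.2, 1) := by
          have h5 := congrArg Prod.fst h3
          have h6 := congrArg Prod.snd h3
          unfold cj3
          simp only at h5 h6 ⊢
          rw [h5, h6]
          simp
        have h5 : Opr p (⊤ : Subgroup G) ≤ gen (t.1, t.2, (1 : G)) := by
          refine h.1.1.trans ?_
          unfold gen
          refine Subgroup.closure_mono ?_
          rintro y (rfl | rfl)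
          · simp
          · simp
        refine RotAux.no_p_cent hO h5 h4 ?_
        rw [Subgroup.orderOf_coe, Subgroup.orderOf_coe, hg]
      rw [GalFAux.ordProj_one h1]
      simp
    · simp only [if_neg h]
      exact dvd_zero _

theorem RatC_conj [Finite G] {x y : G} (h : IsConj x y) (hx : RatC p x) : RatC p y := by
  intro j hj
  obtain ⟨g, hg⟩ := isConj_iff.1 h
  have h1 : orderOf y = orderOf x := by
    rw [← hg]
    exact orderOf_injective (MulAut.conj g).toMonoidHom (MulAut.conj g).injective _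
  rw [h1] at hj
  exact (h.symm.trans (hx j hj)).trans (Bx.ClsBAux.conj_pow' h j)

theorem ind_one [Finite G] {c x : G} (hc : RatC p c) {j : ℕ}
    (hj : ∃ n : ℕ, j ^ p ^ n ≡ 1 [MOD orderOf x]) (h : IsConj c⁻¹ x) : IsConj c⁻¹ (x ^ j) := by
  obtain ⟨g, hg⟩ := isConj_iff.1 h
  have h1 : orderOf x = orderOf c := by
    rw [← hg, ← orderOf_inv c]
    exact orderOf_injective (MulAut.conj g).toMonoidHom (MulAut.conj g).injective _
  rw [h1] at hj
  have h2 := Bx.ClsBAux.conj_inv (hc j hj)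
  rw [← inv_pow] at h2
  exact h2.trans (Bx.ClsBAux.conj_pow' h j)

theorem ind_iff [Fact p.Prime] [Finite G] {c x : G} (hc : RatC p c) {j : ℕ}
    (hj : ∃ n : ℕ, j ^ p ^ n ≡ 1 [MOD orderOf x]) : IsConj c⁻¹ (x ^ j) ↔ IsConj c⁻¹ x := by
  constructor
  · intro h
    obtain ⟨n, hn⟩ := hj
    have hp : 0 < p ^ n := pow_pos (Fact.out : p.Prime).pos n
    have e1 : (x ^ j) ^ (j ^ (p ^ n - 1)) = x := by
      have h2 : j * j ^ (p ^ n - 1) = j ^ p ^ n := by
        rw [← pow_succ', Nat.sub_add_cancel hp]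
      rw [← pow_mul, h2]
      have h3 := pow_eq_pow_iff_modEq.2 hn
      rw [h3, pow_one]
    have h4 := ind_one (x := x ^ j) hc (j := j ^ (p ^ n - 1)) ⟨n, ?_⟩ h
    · rwa [e1] at h4
    · have h5 : j ^ p ^ n ≡ 1 [MOD orderOf (x ^ j)] := hn.of_dvd (orderOf_pow_dvd j)
      have h6 := h5.pow (p ^ n - 1)
      rw [one_pow] at h6
      rw [← pow_mul, mul_comm, pow_mul]
      exact h6
  · exact ind_one hc hj

end

end RatPAux

open RatPAux

theorem Pt_rat {p : ℕ} [Fact p.Prime] {G : Type*} [Group G] [Finite G]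
    (hO : NoP p (⊤ : Subgroup G)) :
    (∀ m : G → ℤ, IsWt p ⊤ m → RI p m →
      (p : ℤ) * (ordProj[p] (Nat.card G) : ℕ) ∣ bT p (⊤ : Subgroup G) (Pt p m)) ↔
    (∀ c : G, Preg p c → RatC p c → (p : ℤ) * (ordProj[p] (Nat.card G) : ℕ) ∣
      (Nat.card {y : G × G //
        orderOf (cmt y.1 y.2 * (pr p (cmt y.1 y.2))⁻¹) = p ∧ IsConj c (pr p (cmt y.1 y.2)) ∧
        ∀ w : G, Preg p w → w ∈ Subgroup.closure ({y.1, y.2} : Set G)} : ℤ)) := by
  classical
  have : Fintype G := Fintype.ofFinite G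
  generalize hD : (p : ℤ) * (ordProj[p] (Nat.card G) : ℕ) = D
  have hb : ∀ (m : G → ℤ) (Q : G → Prop), (∀ x, Q x) → bT p (⊤ : Subgroup G) (Pt p m)
      = ∑ y : G × G, if PP p y ∧ Q (pr p (cmt y.1 y.2)) then m (pr p (cmt y.1 y.2))⁻¹ else 0 := by
    intro m Q hQ
    unfold bT
    rw [← finsum_comp_equiv (finTwoArrowEquiv G).symm, finsum_eq_sum_of_fintype]
    refine Finset.sum_congr rfl fun y _ => ?_
    rw [PrTAux.gT_two, PrTAux.Pt_two]
    obtain ⟨s1, s2⟩ := PrTAux.sx_inv (p := p) m (cmt y.1 y.2)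
    by_cases a1 : Opr p (⊤ : Subgroup G) ≤ Subgroup.closure ({y.1, y.2} : Set G)
    · rw [if_pos ⟨le_top, a1⟩]
      by_cases a2 : orderOf (cmt y.1 y.2 * (pr p (cmt y.1 y.2))⁻¹) = p
      · rw [s1 a2, if_pos ⟨⟨a1, a2⟩, hQ _⟩]
      · rw [s2 a2, if_neg (fun h => a2 h.1.2)]
    · rw [if_neg (fun h => a1 h.2), if_neg (fun h => a1 h.1.1)]
  have hN : ∀ c : G, Nat.card {y : G × G // PP p y ∧ IsConj c (pr p (cmt y.1 y.2))} =
      Nat.card {y : G × G // orderOf (cmt y.1 y.2 * (pr p (cmt y.1 y.2))⁻¹) = p ∧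
      IsConj c (pr p (cmt y.1 y.2)) ∧
      ∀ w : G, Preg p w → w ∈ Subgroup.closure ({y.1, y.2} : Set G)} := by
    intro c
    refine Nat.card_congr ((Equiv.refl _).subtypeEquiv fun y => ?_)
    rw [Equiv.refl_apply, ← ClsFAux.opr_le_iff]
    unfold PP
    tauto
  constructor
  · intro h c hc hcr
    have hci : Preg p c⁻¹ := Bx.ClsBAux.preg_inv hc
    have h1 := h (fun x => if IsConj c⁻¹ x then 1 else 0)
      (MainPAux.isWt_class hci (fun x hx => if_pos hx) (fun x hx => if_neg hx))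
      (fun x _ j hj => if_congr (ind_iff hcr hj) rfl rfl)
    rw [hb _ (fun _ => True) (fun _ => trivial)] at h1
    rw [← hN, Nat.card_eq_fintype_card, Fintype.card_subtype, Finset.card_filter]
    push_cast
    refine h1.trans (dvd_of_eq (Finset.sum_congr rfl fun y _ => ?_))
    have h2 : IsConj c⁻¹ (pr p (cmt y.1 y.2))⁻¹ ↔ IsConj c (pr p (cmt y.1 y.2)) := by
      constructor
      · intro h3
        have h4 := Bx.ClsBAux.conj_inv h3
        rwa [inv_inv, inv_inv] at h4
      · exact Bx.ClsBAux.conj_inv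
    by_cases h3 : PP p y
    · rw [if_pos ⟨h3, trivial⟩]
      refine if_congr (h2.trans ?_) rfl rfl
      exact ⟨fun h4 => ⟨h3, h4⟩, fun h4 => h4.2⟩
    · rw [if_neg (fun h4 => h3 h4.1), if_neg (fun h4 => h3 h4.1)]
  · intro h m hm hmr
    have h2 := Bx.ClsBAux.gen_cls (p := p)
      (fun t : G × G => PP p t ∧ RatC p (pr p (cmt t.1 t.2)))
      (fun y => pr p (cmt y.1 y.2)) (fun y => preg_pr _) 0 D
    have h3 := h2.2 (fun c hc => ?_) m hm
    · have h4 : D ∣ ∑ c : G, if RatC p c then 0 else m c⁻¹ * psi p c := by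
        rw [← hD]
        refine rat_sumQ (φ := fun c => m c⁻¹ * psi p c) ?_ ?_ ?_ ?_
        · intro g x
          have e1 : (g * x * g⁻¹)⁻¹ = g * x⁻¹ * g⁻¹ := by group
          change m (g * x * g⁻¹)⁻¹ * psi p (g * x * g⁻¹) = m x⁻¹ * psi p x
          rw [e1, hm.conj g (Subgroup.mem_top g), psi_conj]
        · intro x hx
          have h5 : m x⁻¹ ≠ 0 := fun h6 => hx (by
            change m x⁻¹ * psi p x = 0
            rw [h6, zero_mul])
          have h6 := Bx.ClsBAux.preg_inv (hm.reg _ h5)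
          rwa [inv_inv] at h6
        · intro j hj x hx
          change m (x ^ j)⁻¹ * psi p (x ^ j) = m x⁻¹ * psi p x
          rw [psi_pow hj.1, ← inv_pow,
            RI_iff.1 hmr x⁻¹ (Bx.ClsBAux.preg_inv hx) j hj]
        · intro x _
          exact Dvd.dvd.mul_left (psi_dvd hO x) _
      have h5 : bT p (⊤ : Subgroup G) (Pt p m) =
          (∑ y : G × G, if PP p y ∧ RatC p (pr p (cmt y.1 y.2)) then
            m (pr p (cmt y.1 y.2))⁻¹ else 0) +
          ∑ c : G, if RatC p c then 0 else m c⁻¹ * psi p c := by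
        obtain ⟨Q, hQ⟩ : ∃ Q : G → Prop, ∀ x, Q x := ⟨fun _ => True, fun _ => trivial⟩
        rw [hb m Q hQ, ← sum_psi m Q, ← sum_psi m (fun c => RatC p c),
          ← Finset.sum_add_distrib]
        refine Finset.sum_congr rfl fun c _ => ?_
        by_cases h6 : RatC p c
        · rw [if_pos (hQ c), if_pos h6, if_pos h6, add_zero]
        · rw [if_pos (hQ c), if_neg h6, if_neg h6, zero_add]
      rw [h5]
      refine dvd_add ?_ h4
      refine h3.trans (dvd_of_eq (Finset.sum_congr rfl fun y _ => ?_))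
      rw [pow_zero, pow_one]
      by_cases h7 : PP p y ∧ RatC p (pr p (cmt y.1 y.2))
      · rw [if_pos h7, if_pos h7]
      · rw [if_neg h7, if_neg h7]
    · by_cases hcr : RatC p c
      · have h4 : Nat.card {y : G × G // (PP p y ∧ RatC p (pr p (cmt y.1 y.2))) ∧
            IsConj c (pr p (cmt y.1 y.2))} =
            Nat.card {y : G × G // PP p y ∧ IsConj c (pr p (cmt y.1 y.2))} := by
          refine Nat.card_congr ((Equiv.refl _).subtypeEquiv fun y => ?_)
          rw [Equiv.refl_apply]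
          exact ⟨fun h5 => ⟨h5.1.1, h5.2⟩, fun h5 => ⟨⟨h5.1, RatC_conj h5.2 hcr⟩, h5.2⟩⟩
        change D ∣ (Nat.card {y : G × G // (PP p y ∧ RatC p (pr p (cmt y.1 y.2))) ∧
            IsConj c (pr p (cmt y.1 y.2))} : ℤ)
        rw [h4, hN]
        exact h c hc hcr
      · have : IsEmpty {y : G × G // (PP p y ∧ RatC p (pr p (cmt y.1 y.2))) ∧
            IsConj c (pr p (cmt y.1 y.2))} :=
          ⟨fun y => hcr (RatC_conj y.2.2.symm y.2.1.2)⟩
        change D ∣ (Nat.card {y : G × G // (PP p y ∧ RatC p (pr p (cmt y.1 y.2))) ∧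
            IsConj c (pr p (cmt y.1 y.2))} : ℤ)
        rw [Nat.card_of_isEmpty]
        exact dvd_zero _

end Pool.Agent.Lib.P0c8ca5.Rc
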