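import Mathlib
import Pool.Agent.Lib.P0c8ca5Gs.Cls
import Pool.Agent.Lib.P0c8ca5Rc.Gc
import Pool.Agent.Lib.P0c8ca5Rc.RatS

/-!
# RatT: invariant weights and rational classes, tuples

PROOF. `tX p N (fun x => (m x⁻¹) ^ q) = ∑ x, φ x` with `φ x = (m x⁻¹) ^ q * eX p N x` (sort the tuples by their product). `rat_sumQ` for `φ` (`eX_conj`, `eX_pow`, `eX_dvd`, `RI_iff`; `φ x ≠ 0` implies `x⁻¹`, so `x` p-regular): `tX ... ≡ ∑ x, if RatC p x then φ x else 0` modulo `p |A|_p`.
`←`: the sum over the `x` with `RatC p x` (p-regular) is the sum over the classes of such `c` of `(m c⁻¹) ^ q` times the number of tuples with product conjugate to `c` (divisible by hypothesis). `→`: for `c` p-regular with `RatC p c` take `m x = if IsConj c⁻¹ x then 1 else 0`: `IsWt`, and `RI p m`: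
if `x` is conjugate to `c⁻¹` then `x ^ j` to `(c ^ j)⁻¹`, so to `c⁻¹`; conversely if `x ^ j` is conjugate to `c⁻¹` use the inverse exponent `j ^ (p ^ n - 1)`. Then `tX p N (fun x => (m x⁻¹) ^ q)` is the number of the tuples (see `tX_cls`, P0c8ca5Gs.Cls).
-/

namespace Pool.Agent.Lib.P0c8ca5.Rc

open MonoidAlgebra Gs

namespace RatTAux

open ClsAux

open Classical in
theorem card_sum {ι : Type*} [Fintype ι] (Q : ι → Prop) :
    (Nat.card {y : ι // Q y} : ℤ) = ∑ y, if Q y then 1 else 0 := by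
  rw [Nat.card_eq_fintype_card, Fintype.card_subtype, Finset.card_filter]
  push_cast
  rfl

open Classical in
theorem sort_sum {ι G : Type*} [Fintype ι] [Fintype G] (P : ι → Prop) (ψ : ι → G) (f : G → ℤ) :
    (∑ y, if P y then f (ψ y) else 0) =
      ∑ x : G, f x * (Nat.card {y : ι // P y ∧ ψ y = x} : ℤ) := by
  simp only [card_sum, Finset.mul_sum]
  rw [Finset.sum_comm]
  refine Finset.sum_congr rfl fun y _ => ?_
  rw [Finset.sum_eq_single (ψ y)]
  · by_cases h : P y
    · rw [if_pos h, if_pos ⟨h, rfl⟩, mul_one]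
    · rw [if_neg h, if_neg (fun h' => h h'.1), mul_zero]
  · intro x _ hx
    rw [if_neg (fun h' => hx h'.2.symm), mul_zero]
  · intro h
    exact absurd (Finset.mem_univ _) h

variable {p : ℕ} {G : Type*} [Group G]

theorem ratC_isConj {x y : G} (h : IsConj x y) (hx : RatC p x) : RatC p y := by
  obtain ⟨c, hc⟩ := isConj_iff.1 h
  intro j hj
  have e1 : orderOf y = orderOf x := by
    rw [← hc]
    have := orderOf_injective (MulAut.conj c).toMonoidHom (MulAut.conj c).injective x
    simpa using this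
  rw [e1] at hj
  have h1 := hx j hj
  have h2 : IsConj (x ^ j) (y ^ j) := by
    rw [← hc, conj_pow]
    exact isConj_iff.2 ⟨c, rfl⟩
  exact (h.symm.trans h1).trans h2

theorem conj_fwd {c x : G} (hc : RatC p c) (h : IsConj c⁻¹ x) {j : ℕ}
    (hj : ∃ n : ℕ, j ^ p ^ n ≡ 1 [MOD orderOf x]) : IsConj c⁻¹ (x ^ j) := by
  obtain ⟨g, hg⟩ := isConj_iff.1 h
  have e1 : orderOf x = orderOf c := by
    rw [← hg]
    have := orderOf_injective (MulAut.conj g).toMonoidHom (MulAut.conj g).injective c⁻¹
    rw [orderOf_inv] at this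
    simpa using this
  rw [e1] at hj
  have h1 := conj_inv (hc j hj)
  have h2 : IsConj (c ^ j)⁻¹ (x ^ j) := by
    rw [← hg, conj_pow, inv_pow]
    exact isConj_iff.2 ⟨g, rfl⟩
  exact h1.trans h2

theorem ri_ind [Fact p.Prime] {c : G} (hc : RatC p c) : RI p (ind c⁻¹) := by
  have hp : p.Prime := Fact.out
  intro x _ j hj
  have key : IsConj c⁻¹ (x ^ j) ↔ IsConj c⁻¹ x := by
    constructor
    · intro h
      obtain ⟨n, hn⟩ := hj
      have h1 : (x ^ j) ^ (j ^ (p ^ n - 1)) = x := by
        rw [← pow_mul, ← pow_succ', Nat.sub_add_cancel (Nat.pow_pos hp.pos)]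
        conv_rhs => rw [← pow_one x]
        rw [pow_eq_pow_iff_modEq]
        exact hn
      have h2 : (j ^ (p ^ n - 1)) ^ p ^ n ≡ 1 [MOD orderOf (x ^ j)] := by
        rw [← pow_mul, Nat.mul_comm, pow_mul]
        have h3 : j ^ p ^ n ≡ 1 [MOD orderOf (x ^ j)] := hn.of_dvd (orderOf_pow_dvd j)
        have h4 := h3.pow (p ^ n - 1)
        rwa [one_pow] at h4
      have h5 := conj_fwd hc h ⟨n, h2⟩
      rwa [h1] at h5
    · intro h
      exact conj_fwd hc h hj
  by_cases h : IsConj c⁻¹ x
  · rw [ind_pos h, ind_pos (key.2 h)]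
  · rw [ind_neg h, ind_neg (fun h' => h (key.1 h'))]

/-- the condition on the tuples -/
def CdT (p N : ℕ) (x : Fin N → G) : Prop :=
  (∀ i, x i ^ p = 1 ∧ x i ≠ 1) ∧ Opr p (⊤ : Subgroup G) ≤ gT x

open Classical in
theorem tX_sum [Fintype G] (N : ℕ) (g : G → ℤ) :
    tX p N g = ∑ x : Fin N → G, if CdT p N x then g ((List.ofFn x).prod) else 0 := by
  unfold tX
  rw [finsum_eq_sum_of_fintype]
  refine Finset.sum_congr rfl fun x _ => ?_
  by_cases h : CdT p N x
  · rw [if_pos h, if_pos (show (∀ i, x i ^ p = 1 ∧ x i ≠ 1) ∧ Opr p (⊤ : Subgroup G) ≤ gT x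
      from h)]
  · rw [if_neg h, if_neg (show ¬((∀ i, x i ^ p = 1 ∧ x i ≠ 1) ∧
      Opr p (⊤ : Subgroup G) ≤ gT x) from h)]

theorem eX_card (N : ℕ) (x : G) :
    eX p N x = (Nat.card {t : Fin N → G // CdT p N t ∧ (List.ofFn t).prod = x} : ℤ) := by
  unfold eX
  congr 1
  refine Nat.card_congr (Equiv.subtypeEquivRight fun t => ?_)
  unfold CdT
  tauto

theorem card_cls (N : ℕ) (c : G) :
    Nat.card {x : Fin N → G // (∀ i, x i ^ p = 1 ∧ x i ≠ 1) ∧ IsConj c (List.ofFn x).prod ∧
        ∀ w : G, Preg p w → w ∈ Subgroup.closure (Set.range x)} =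
      Nat.card {x : Fin N → G // CdT p N x ∧ IsConj c (List.ofFn x).prod} := by
  refine Nat.card_congr (Equiv.subtypeEquivRight fun x => ?_)
  unfold CdT
  rw [opr_le]
  unfold gT
  tauto

end RatTAux

open RatTAux ClsAux

theorem tX_rat {p : ℕ} [Fact p.Prime] {G : Type*} [Group G] [Finite G]
    (hO : NoP p (⊤ : Subgroup G)) (N : ℕ) {q : ℕ} (hq : q ≠ 0) :
    (∀ m : G → ℤ, IsWt p ⊤ m → RI p m →
      (p : ℤ) * (ordProj[p] (Nat.card G) : ℕ) ∣ tX p N (fun x => (m x⁻¹) ^ q)) ↔
    (∀ c : G, Preg p c → RatC p c → (p : ℤ) * (ordProj[p] (Nat.card G) : ℕ) ∣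
      (Nat.card {x : Fin N → G // (∀ i, x i ^ p = 1 ∧ x i ≠ 1) ∧ IsConj c (List.ofFn x).prod ∧
        ∀ w : G, Preg p w → w ∈ Subgroup.closure (Set.range x)} : ℤ)) := by
  classical
  have : Fintype G := Fintype.ofFinite G
  constructor
  · intro h c hc hR
    have h1 := h (ind c⁻¹) (isWt_ind hc) (ri_ind hR)
    refine h1.trans (dvd_of_eq ?_)
    rw [tX_sum, card_cls, card_sum]
    refine Finset.sum_congr rfl fun x _ => ?_
    by_cases h2 : CdT p N x
    · rw [if_pos h2]
      by_cases h3 : IsConj c (List.ofFn x).prod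
      · rw [ind_pos (conj_inv_iff.2 h3), if_pos ⟨h2, h3⟩, one_pow]
      · rw [ind_neg (fun h => h3 (conj_inv_iff.1 h)), if_neg (fun h => h3 h.2), zero_pow hq]
    · rw [if_neg h2, if_neg (fun h => h2 h.1)]
  · intro h m hm hR
    have hRI := RI_iff.1 hR
    have key := rat_sumQ (p := p) (A := G) (φ := fun x => (m x⁻¹) ^ q * eX p N x) ?_ ?_ ?_ ?_
    · have e1 : tX p N (fun x => (m x⁻¹) ^ q) = ∑ x : G, (m x⁻¹) ^ q * eX p N x := by
        rw [tX_sum, sort_sum (CdT p N) (fun t => (List.ofFn t).prod) (fun x => (m x⁻¹) ^ q)]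
        refine Finset.sum_congr rfl fun x _ => ?_
        rw [eX_card]
      have e2 : (∑ x : G, (m x⁻¹) ^ q * eX p N x) =
          (∑ t : Fin N → G, if CdT p N t ∧ RatC p (List.ofFn t).prod then
            (m ((List.ofFn t).prod)⁻¹) ^ q else 0) +
          ∑ x : G, if RatC p x then 0 else (m x⁻¹) ^ q * eX p N x := by
        have e3 : (∑ t : Fin N → G, if CdT p N t ∧ RatC p (List.ofFn t).prod then
            (m ((List.ofFn t).prod)⁻¹) ^ q else 0) =
            ∑ x : G, (if RatC p x then (m x⁻¹) ^ q else 0) * eX p N x := by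
          have e4 := sort_sum (CdT p N) (fun t => (List.ofFn t).prod)
            (fun x : G => if RatC p x then (m x⁻¹) ^ q else 0)
          simp only [← eX_card] at e4
          rw [← e4]
          refine Finset.sum_congr rfl fun t _ => ?_
          by_cases h2 : CdT p N t
          · by_cases h3 : RatC p (List.ofFn t).prod
            · rw [if_pos ⟨h2, h3⟩, if_pos h2, if_pos h3]
            · rw [if_neg (fun h => h3 h.2), if_pos h2, if_neg h3]
          · rw [if_neg (fun h => h2 h.1), if_neg h2]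
        rw [e3, ← Finset.sum_add_distrib]
        refine Finset.sum_congr rfl fun x _ => ?_
        by_cases h3 : RatC p x
        · rw [if_pos h3, if_pos h3, add_zero]
        · rw [if_neg h3, if_neg h3, zero_mul, zero_add]
      rw [e1, e2]
      refine dvd_add ?_ key
      have h4 := (gen_cls (p := p) (fun t : Fin N → G => CdT p N t ∧ RatC p (List.ofFn t).prod)
        (fun t => (List.ofFn t).prod) hq ((p : ℤ) * (ordProj[p] (Nat.card G) : ℕ))).2 ?_
      · exact h4 m hm
      · intro c hc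
        by_cases hRc : RatC p c
        · have h5 := h c hc hRc
          rw [card_cls] at h5
          have h6 : Nat.card {x : Fin N → G // CdT p N x ∧ IsConj c (List.ofFn x).prod} =
              Nat.card {x : Fin N → G // (CdT p N x ∧ RatC p (List.ofFn x).prod) ∧
                IsConj c (List.ofFn x).prod} := by
            refine Nat.card_congr (Equiv.subtypeEquivRight fun x => ?_)
            constructor
            · rintro ⟨a1, a2⟩
              exact ⟨⟨a1, ratC_isConj a2 hRc⟩, a2⟩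
            · rintro ⟨⟨a1, _⟩, a2⟩
              exact ⟨a1, a2⟩
          rw [← h6]
          exact h5
        · have h6 : Nat.card {x : Fin N → G // (CdT p N x ∧ RatC p (List.ofFn x).prod) ∧
                IsConj c (List.ofFn x).prod} = 0 := by
            rw [Nat.card_eq_zero]
            left
            refine ⟨fun x => hRc ?_⟩
            exact ratC_isConj x.2.2.symm x.2.1.2
          rw [h6]
          exact dvd_zero _
    · intro g x
      have e1 : (g * x * g⁻¹)⁻¹ = g * x⁻¹ * g⁻¹ := by group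
      rw [e1, hm.conj g (Subgroup.mem_top g), eX_conj]
    · intro x hx
      have h1 : m x⁻¹ ≠ 0 := by
        intro h0
        rw [h0, zero_pow hq, zero_mul] at hx
        exact hx rfl
      exact preg_inv.1 (hm.reg _ h1)
    · intro j hj x hx
      have e1 : m (x ^ j)⁻¹ = m x⁻¹ := by
        rw [← inv_pow]
        exact hRI x⁻¹ (preg_inv.2 hx) j hj
      rw [e1, eX_pow hj.1]
    · intro x _
      exact Dvd.dvd.mul_left (eX_dvd hO N x) _

end Pool.Agent.Lib.P0c8ca5.Rc
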