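import Mathlib
import Pool.Agent.Lib.P0c8ca5Gs.FinG
import Pool.Agent.Lib.P0c8ca5Rc.OrbR
import Pool.Agent.Lib.P0c8ca5Rc.Bi
import Pool.Agent.Lib.P0c8ca5Rc.RatT
import Pool.Agent.Lib.P0c8ca5Rc.RatP

/-! # FinQ: only the rational classes are needed -/

namespace Pool.Agent.Lib.P0c8ca5.Rc

open MonoidAlgebra Gs

universe u v

variable {C : ∀ (G : Type u) [Group G], Prop}

/-- blocks from invariant weights, inside a class closed under wreath products with `C_p` -/
theorem gap_of_weights {p : ℕ} [Fact p.Prime] {k : Type v} [Field k] [IsAlgClosed k] [CharP k p]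
    (hW : ∀ (G : Type u) [Group G], C G → C (Wr.WG p G))
    (h : ∀ (G : Type u) [Group G] [Finite G], C G → ∀ (m : G → ℤ),
      (Finite G ∧ IsWt p ⊤ m ∧ RI p m) →
      (p : ℤ) * (Nat.card G : ℤ) ∣ nL p (⊤ : Subgroup G) m - wS p m) :
    ∀ (G : Type u) [Group G] [Finite G], C G → ∀ (b : MonoidAlgebra k G),
      IsBlock (⊤ : Subgroup G) b → ∃ t : ℤ, gap p (⊤ : Subgroup G) ⊤ b = (p : ℚ) * t := by
  intro G _ _ hG b hb
  exact inv_suffices hW (fun G _ _ hG b hb hinv =>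
    gap_of_RI hb hinv (fun m hm hr => h G hG m ⟨inferInstance, hm, hr⟩)) G hG b hb

/-- **all primes: pairs**, rational classes -/
theorem rat_all (hC : SecCl C) {p : ℕ} [Fact p.Prime]
    (hW : ∀ (G : Type u) [Group G], C G → C (Wr.WG p G)) {k : Type v} [Field k] [IsAlgClosed k]
    [CharP k p] :
    (∀ (G : Type u) [Group G] [Finite G], C G → ∀ (b : MonoidAlgebra k G),
      IsBlock (⊤ : Subgroup G) b → ∃ t : ℤ, gap p (⊤ : Subgroup G) ⊤ b = (p : ℚ) * t) ↔
    (∀ (G : Type u) [Group G] [Finite G], C G → NoP p (⊤ : Subgroup G) → ∀ c : G, Preg p c →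
      RatC p c → p * ordProj[p] (Nat.card G) ∣ Nat.card {y : G × G //
        orderOf (cmt y.1 y.2 * (pr p (cmt y.1 y.2))⁻¹) = p ∧ IsConj c (pr p (cmt y.1 y.2)) ∧
        ∀ w : G, Preg p w → w ∈ Subgroup.closure ({y.1, y.2} : Set G)}) := by
  constructor
  · intro h G _ _ hCG hG c hc _
    exact (rel_all hC).1 h G hCG hG c hc
  · intro h
    refine gap_of_weights hW ?_
    refine (relS hC (WFam_RI p) (TW_Pt p)).2 (fun G _ _ hCG hG m hm => ?_)
    exact (Pt_rat (p := p) (G := G) hG).2 (fun c hc hr => by exact_mod_cast h G hCG hG c hc hr)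
      m hm.2.1 hm.2.2

/-- **`p = 3`: quadruples of elements of order 3**, rational classes -/
theorem rat_three (hC : SecCl C) (hW : ∀ (G : Type u) [Group G], C G → C (Wr.WG 3 G))
    {k : Type v} [Field k] [IsAlgClosed k] [CharP k 3] :
    (∀ (G : Type u) [Group G] [Finite G], C G → ∀ (b : MonoidAlgebra k G),
      IsBlock (⊤ : Subgroup G) b → ∃ t : ℤ, gap 3 (⊤ : Subgroup G) ⊤ b = ((3 : ℕ) : ℚ) * t) ↔
    (∀ (G : Type u) [Group G] [Finite G], C G → NoP 3 (⊤ : Subgroup G) → ∀ c : G, Preg 3 c →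
      RatC 3 c → 3 * ordProj[3] (Nat.card G) ∣
        Nat.card {x : Fin 4 → G // (∀ i, x i ^ 3 = 1 ∧ x i ≠ 1) ∧
        IsConj c (List.ofFn x).prod ∧
        ∀ w : G, Preg 3 w → w ∈ Subgroup.closure (Set.range x)}) := by
  have : Fact (Nat.Prime 3) := ⟨Nat.prime_three⟩
  constructor
  · intro h G _ _ hCG hG c hc _
    exact (rel_three hC).1 h G hCG hG c hc
  · intro h
    refine gap_of_weights hW ?_
    refine (relT3 hC (WFam_RI 3)).2 (fun G _ _ hCG hG m hm => ?_)
    exact (tX_rat (p := 3) (G := G) hG 4 (q := 3) (by norm_num)).2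
      (fun c hc hr => by exact_mod_cast h G hCG hG c hc hr) m hm.2.1 hm.2.2

/-- **`p = 2`: quintuples of involutions**, rational classes -/
theorem rat_two (hC : SecCl C) (hW : ∀ (G : Type u) [Group G], C G → C (Wr.WG 2 G))
    {k : Type v} [Field k] [IsAlgClosed k] [CharP k 2] :
    (∀ (G : Type u) [Group G] [Finite G], C G → ∀ (b : MonoidAlgebra k G),
      IsBlock (⊤ : Subgroup G) b → ∃ t : ℤ, gap 2 (⊤ : Subgroup G) ⊤ b = ((2 : ℕ) : ℚ) * t) ↔
    (∀ (G : Type u) [Group G] [Finite G], C G → NoP 2 (⊤ : Subgroup G) → ∀ c : G, Preg 2 c →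
      RatC 2 c → 2 * ordProj[2] (Nat.card G) ∣
        Nat.card {x : Fin 5 → G // (∀ i, x i ^ 2 = 1 ∧ x i ≠ 1) ∧
        IsConj c (List.ofFn x).prod ∧
        ∀ w : G, Preg 2 w → w ∈ Subgroup.closure (Set.range x)}) := by
  have : Fact (Nat.Prime 2) := ⟨Nat.prime_two⟩
  constructor
  · intro h G _ _ hCG hG c hc _
    exact (rel_two hC).1 h G hCG hG c hc
  · intro h
    refine gap_of_weights hW ?_
    refine (relT2 hC (WFam_RI 2)).2 (fun G _ _ hCG hG m hm => ?_)
    exact (tX_rat (p := 2) (G := G) hG 5 (q := 2) (by norm_num)).2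
      (fun c hc hr => by exact_mod_cast h G hCG hG c hc hr) m hm.2.1 hm.2.2

end Pool.Agent.Lib.P0c8ca5.Rc
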