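import Mathlib
import Pool.Agent.Lib.P0c8ca5By.FinR
import Pool.Agent.Lib.P0c8ca5V.GalG
import Pool.Agent.Lib.P0c8ca5Rc.Lf
import Pool.Agent.Lib.P0c8ca5Rc.RatS

/-!
# RatX: invariant weights and rational classes, pairs of elements of given orders

PROOF. As RatP (P0c8ca5Rc.RatP; landed soon) with pairs `(x, z)`, `z ^ q = 1`, `(x z) ^ s = 1`, `q = p ^ r`, sorted by `x`. Let `κ x` be the number of the `z` with `z ^ q = 1`, `(x z) ^ s = 1`, `Opr p ⊤ ≤ closure {x, z}`: a class function, `κ (x ^ j) = κ x` for `j` prime to `|G|`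
(`GalG.nP_pow`, P0c8ca5V.GalG: `GalG.nP a b P x` counts the `z` with `z ^ a = 1`, `(z⁻¹ x) ^ b = 1`, `P (closure {z, x})`; substitute `z ↦ z⁻¹` and use `(x z) ^ s = 1 ↔ (z x) ^ s = 1`), and `|C(x)|_p ∣ κ x` (`C(x)` acts by conjugation on the `z`; stabilizers are in the centralizer of `O^p(G)`, a p'-group; see `GalF.phP_dvd`).
For p-regular `c` let `ψ c = ∑ x, [pr p x = c, orderOf (x * (pr p x)⁻¹) = p ^ (r + 1)] κ x`, and `0` for other `c`. By `sfT_pow` (P0c8ca5By.FinR, FinRAux) `wX p q s (fun x => sfT p m ((x ^ q)⁻¹)) = ∑ c, m (c ^ q)⁻¹ * ψ c`. `ψ` is a class function, `ψ (c ^ j) = ψ c` for `PJ p |G| j` (substitute `x ↦ x ^ j`: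
`pr p (x ^ j) = (pr p x) ^ j`, the p-part keeps its order), `|C(c)|_p ∣ ψ c` (orbits of `C(c)` on the `x` with `pr p x = c`: `|C(c) : C(x)| * κ x`). `rat_sumQ` (RatS) for `φ c = m (c ^ q)⁻¹ * ψ c`: modulo `p |G|_p` only the `c` with `RatC p c` count.
`←`: sum over the classes of the `c` with `RatC p c`; the number of the pairs for `c` (as in `wXT_cls`, same file, through `ClsBAux.eqv`, `ud_iff`) is `∑ x conjugate to c, ψ x`. `→`: for `c` with `RatC p c` take `m x = if IsConj ((c ^ q)⁻¹) x then 1 else 0` (`IsWt`; `RI p m` as in RatT; `c ↦ c ^ q` is injective on classes of p-regular elements).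
-/

namespace Pool.Agent.Lib.P0c8ca5.Rc

open MonoidAlgebra Bx By

namespace RatXAux

open GalE GalG RotAux By.FinRAux

section
variable {p : ℕ} {G : Type*} [Group G]

/-- the pairs -/
def PX (p q s r : ℕ) (y : G × G) : Prop :=
  (y.2 ^ q = 1 ∧ (y.1 * y.2) ^ s = 1 ∧ Opr p (⊤ : Subgroup G) ≤ gn y) ∧
    orderOf (y.1 * (pr p y.1)⁻¹) = p ^ (r + 1)

open Classical in
/-- the number of the pairs with first member with p'-part `c` -/
noncomputable def psi [Fintype G] (p q s r : ℕ) (c : G) : ℤ :=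
  ∑ x : G, if pr p x = c ∧ orderOf (x * (pr p x)⁻¹) = p ^ (r + 1) then
    nP q s (fun K => Opr p (⊤ : Subgroup G) ≤ K) x else 0

theorem clo_inv (x z : G) : Subgroup.closure ({x, z⁻¹} : Set G) = Subgroup.closure {z, x} := by
  apply le_antisymm
  · rw [Subgroup.closure_le]
    rintro y (rfl | rfl)
    · exact Subgroup.subset_closure (by simp)
    · exact inv_mem (Subgroup.subset_closure (by simp))
  · rw [Subgroup.closure_le]
    have hz : z⁻¹ ∈ Subgroup.closure ({x, z⁻¹} : Set G) := Subgroup.subset_closure (by simp)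
    rintro y (rfl | rfl)
    · have h := inv_mem hz
      rwa [inv_inv] at h
    · exact Subgroup.subset_closure (by simp)

theorem pow_cj (x z : G) (s : ℕ) : (x * z⁻¹) ^ s = 1 ↔ (z⁻¹ * x) ^ s = 1 := by
  have e : x * z⁻¹ = z * (z⁻¹ * x) * z⁻¹ := by group
  rw [e, conj_pow, conj_eq_one_iff]

open Classical in
theorem nP_sum [Fintype G] (q s : ℕ) (x : G) :
    nP q s (fun K => Opr p (⊤ : Subgroup G) ≤ K) x = ∑ z : G,
      if z ^ q = 1 ∧ (x * z) ^ s = 1 ∧ Opr p (⊤ : Subgroup G) ≤ gn (x, z) then (1 : ℤ) else 0 := by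
  unfold nP
  refine Fintype.sum_equiv (Equiv.inv G) _ _ fun z => ?_
  have e1 : (Equiv.inv G) z = z⁻¹ := rfl
  have e2 : gn (x, z⁻¹) = Subgroup.closure ({x, z⁻¹} : Set G) := rfl
  rw [e1, e2, clo_inv, pow_cj, inv_pow, inv_eq_one]

open Classical in
theorem psi_pairs [Fintype G] (q s r : ℕ) (c : G) :
    psi p q s r c = ∑ t : G × G, if PX p q s r t ∧ pr p t.1 = c then (1 : ℤ) else 0 := by
  unfold psi
  rw [Fintype.sum_prod_type]
  refine Finset.sum_congr rfl fun x _ => ?_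
  by_cases h : pr p x = c ∧ orderOf (x * (pr p x)⁻¹) = p ^ (r + 1)
  · rw [if_pos h, nP_sum]
    refine Finset.sum_congr rfl fun z _ => ?_
    refine if_congr ?_ rfl rfl
    constructor
    · intro h1
      exact ⟨⟨h1, h.2⟩, h.1⟩
    · intro h1
      exact h1.1.1
  · rw [if_neg h]
    symm
    refine Finset.sum_eq_zero fun z _ => ?_
    rw [if_neg]
    rintro ⟨⟨_, h1⟩, h2⟩
    exact h ⟨h2, h1⟩

open Classical in
theorem sum_psi [Fintype G] (q s r : ℕ) (m : G → ℤ) (Q : G → Prop) :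
    (∑ c : G, if Q c then m (c ^ q)⁻¹ * psi p q s r c else 0) =
      ∑ t : G × G, if PX p q s r t ∧ Q (pr p t.1) then m (pr p t.1 ^ q)⁻¹ else 0 := by
  have h1 : ∀ c : G, (if Q c then m (c ^ q)⁻¹ * psi p q s r c else 0) =
      ∑ t : G × G, if pr p t.1 = c then
        (if PX p q s r t ∧ Q (pr p t.1) then m (pr p t.1 ^ q)⁻¹ else 0) else 0 := by
    intro c
    by_cases h2 : Q c
    · rw [if_pos h2, psi_pairs, Finset.mul_sum]
      refine Finset.sum_congr rfl fun t _ => ?_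
      by_cases h3 : pr p t.1 = c
      · rw [if_pos h3]
        by_cases h4 : PX p q s r t
        · rw [if_pos ⟨h4, h3⟩, if_pos ⟨h4, by rw [h3]; exact h2⟩, h3, mul_one]
        · rw [if_neg (fun h5 => h4 h5.1), if_neg (fun h5 => h4 h5.1), mul_zero]
      · rw [if_neg h3, if_neg (fun h4 => h3 h4.2), mul_zero]
    · rw [if_neg h2]
      symm
      refine Finset.sum_eq_zero fun t _ => ?_
      by_cases h3 : pr p t.1 = c
      · rw [if_pos h3, if_neg]
        rintro ⟨_, h4⟩
        rw [h3] at h4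
        exact h2 h4
      · rw [if_neg h3]
  simp only [h1]
  rw [Finset.sum_comm]
  refine Finset.sum_congr rfl fun t _ => ?_
  rw [Finset.sum_ite_eq, if_pos (Finset.mem_univ _)]

theorem pp_order_conj (g y : G) :
    orderOf ((g * y * g⁻¹) * (pr p (g * y * g⁻¹))⁻¹) = orderOf (y * (pr p y)⁻¹) := by
  have e : (g * y * g⁻¹) * (pr p (g * y * g⁻¹))⁻¹ = g * (y * (pr p y)⁻¹) * g⁻¹ := by
    rw [pr_conj]
    group
  rw [e]
  exact orderOf_injective (MulAut.conj g).toMonoidHom (MulAut.conj g).injective _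

theorem psi_conj [Fintype G] (q s r : ℕ) (g c : G) :
    psi p q s r (g * c * g⁻¹) = psi p q s r c := by
  classical
  unfold psi
  refine (Fintype.sum_equiv (MulAut.conj g).toEquiv _ _ fun y => ?_).symm
  have e1 : (MulAut.conj g).toEquiv y = g * y * g⁻¹ := rfl
  rw [e1, pr_conj, nP_conj q s (fun c K => opr_P c K)]
  have h1 := pp_order_conj (p := p) g y
  rw [pr_conj] at h1
  rw [h1]
  refine if_congr (and_congr_left fun _ => ?_) rfl rfl
  constructor
  · intro h
    rw [h]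
  · intro h
    exact mul_left_cancel (mul_right_cancel h)

theorem psi_pow [Fintype G] (q s r : ℕ) {j : ℕ} (hj : (Nat.card G).Coprime j) (c : G) :
    psi p q s r (c ^ j) = psi p q s r c := by
  classical
  unfold psi
  refine (Fintype.sum_equiv (powCoprime hj) _ _ fun y => ?_).symm
  have e1 : powCoprime hj y = y ^ j := rfl
  rw [e1, nP_pow hj q s (fun c K => opr_P c K), ClsAAux.pr_pow]
  have h1 : y ^ j * ((pr p y) ^ j)⁻¹ = (y * (pr p y)⁻¹) ^ j := by
    have hc : Commute y (pr p y) := by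
      unfold pr
      exact (Commute.refl y).pow_right _
    rw [hc.inv_right.mul_pow, inv_pow]
  have h2 : orderOf ((y * (pr p y)⁻¹) ^ j) = orderOf (y * (pr p y)⁻¹) := by
    refine Nat.Coprime.orderOf_pow ?_
    exact Nat.Coprime.coprime_dvd_left (orderOf_dvd_natCard _) hj
  rw [h1, h2]
  refine if_congr (and_congr_left fun _ => ?_) rfl rfl
  constructor
  · intro h
    rw [h]
  · intro h
    exact (powCoprime hj).injective h

/-- conjugation action of the centralizer on pairs -/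
@[reducible] def actX (x : G) : MulAction (Subgroup.centralizer ({x} : Set G)) (G × G) where
  smul g t := ((g : G) * t.1 * (g : G)⁻¹, (g : G) * t.2 * (g : G)⁻¹)
  one_smul t := by
    change ((1 : G) * t.1 * (1 : G)⁻¹, (1 : G) * t.2 * (1 : G)⁻¹) = t
    simp
  mul_smul g h t := by
    change ((g : G) * h * t.1 * ((g : G) * h)⁻¹, (g : G) * h * t.2 * ((g : G) * h)⁻¹) =
      (g * (h * t.1 * (h : G)⁻¹) * (g : G)⁻¹, g * (h * t.2 * (h : G)⁻¹) * (g : G)⁻¹)
    refine Prod.ext ?_ ?_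
    · change (g : G) * h * t.1 * ((g : G) * h)⁻¹ = g * (h * t.1 * (h : G)⁻¹) * (g : G)⁻¹
      group
    · change (g : G) * h * t.2 * ((g : G) * h)⁻¹ = g * (h * t.2 * (h : G)⁻¹) * (g : G)⁻¹
      group

theorem PX_cj [Finite G] (q s r : ℕ) (g : G) (t : G × G) :
    PX p q s r (g * t.1 * g⁻¹, g * t.2 * g⁻¹) ↔ PX p q s r t := by
  unfold PX
  have h1 : g * t.1 * g⁻¹ * (g * t.2 * g⁻¹) = g * (t.1 * t.2) * g⁻¹ := by group
  have h2 : gn (g * t.1 * g⁻¹, g * t.2 * g⁻¹) = (gn t).map (MulAut.conj g).toMonoidHom :=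
    closure_conj2 g t.1 t.2
  have h3 := pp_order_conj (p := p) g t.1
  change ((g * t.2 * g⁻¹) ^ q = 1 ∧ (g * t.1 * g⁻¹ * (g * t.2 * g⁻¹)) ^ s = 1 ∧
    Opr p (⊤ : Subgroup G) ≤ gn (g * t.1 * g⁻¹, g * t.2 * g⁻¹)) ∧
    orderOf ((g * t.1 * g⁻¹) * (pr p (g * t.1 * g⁻¹))⁻¹) = p ^ (r + 1) ↔ _
  rw [h1, h2, h3, opr_P, conj_pow, conj_pow, conj_eq_one_iff, conj_eq_one_iff]

theorem psi_dvd [Fact p.Prime] [Fintype G] (hO : NoP p (⊤ : Subgroup G)) (q s r : ℕ) (c : G) :
    ((ordProj[p] (Nat.card (Subgroup.centralizer ({c} : Set G))) : ℕ) : ℤ) ∣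
      psi p q s r c := by
  classical
  rw [psi_pairs]
  have key := @orb_dvd_p p _ (Subgroup.centralizer ({c} : Set G)) (G × G) _ _ (actX c) _
    (fun t => if PX p q s r t ∧ pr p t.1 = c then (1 : ℤ) else 0) ?_ 1 ?_
  · rw [one_mul] at key
    exact key
  · intro g t
    change (if PX p q s r ((g : G) * t.1 * (g : G)⁻¹, (g : G) * t.2 * (g : G)⁻¹) ∧
      pr p ((g : G) * t.1 * (g : G)⁻¹) = c then (1 : ℤ) else 0) = _
    have hg : c * (g : G) = g * c := Subgroup.mem_centralizer_singleton_iff.1 g.2 |>.symm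
    refine if_congr (and_congr (PX_cj q s r (g : G) t) ?_) rfl rfl
    rw [pr_conj]
    constructor
    · intro h
      rw [mul_inv_eq_iff_eq_mul, hg] at h
      exact mul_left_cancel h
    · intro h
      rw [h, mul_inv_eq_iff_eq_mul, hg]
  · intro t
    by_cases h : PX p q s r t ∧ pr p t.1 = c
    · have h1 : ¬ p ∣ Nat.card (@MulAction.stabilizer (Subgroup.centralizer ({c} : Set G))
          (G × G) _ (actX c) t) := by
        intro h2
        obtain ⟨g, hg⟩ := exists_prime_orderOf_dvd_card' p h2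
        have h3 : ((((g : Subgroup.centralizer ({c} : Set G)) : G) * t.1 *
            ((g : Subgroup.centralizer ({c} : Set G)) : G)⁻¹,
            ((g : Subgroup.centralizer ({c} : Set G)) : G) * t.2 *
            ((g : Subgroup.centralizer ({c} : Set G)) : G)⁻¹) : G × G) = t := g.2
        have h4 : cj3 ((g : Subgroup.centralizer ({c} : Set G)) : G) (t.1, t.2, 1) =
            (t.1, t.2, 1) := by
          have h5 := congrArg Prod.fst h3
          have h6 := congrArg Prod.snd h3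
          unfold cj3
          simp only at h5 h6 ⊢
          rw [h5, h6]
          simp
        have h5 : Opr p (⊤ : Subgroup G) ≤ gen (t.1, t.2, (1 : G)) := by
          refine h.1.1.2.2.trans ?_
          unfold gen gn
          refine Subgroup.closure_mono ?_
          rintro y (rfl | rfl)
          · simp
          · simp
        refine RotAux.no_p_cent hO h5 h4 ?_
        rw [Subgroup.orderOf_coe, Subgroup.orderOf_coe, hg]
      rw [GalFAux.ordProj_one h1]
      simp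
    · simp only [if_neg h]
      exact dvd_zero _

theorem RatC_conj [Finite G] {x y : G} (h : IsConj x y) (hx : RatC p x) : RatC p y := by
  intro j hj
  obtain ⟨g, hg⟩ := isConj_iff.1 h
  have h1 : orderOf y = orderOf x := by
    rw [← hg]
    exact orderOf_injective (MulAut.conj g).toMonoidHom (MulAut.conj g).injective _
  rw [h1] at hj
  exact (h.symm.trans (hx j hj)).trans (ClsBAux.conj_pow' h j)

theorem ind_one [Finite G] {c x : G} (hc : RatC p c) {j : ℕ}
    (hj : ∃ n : ℕ, j ^ p ^ n ≡ 1 [MOD orderOf x]) (h : IsConj c⁻¹ x) : IsConj c⁻¹ (x ^ j) := by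
  obtain ⟨g, hg⟩ := isConj_iff.1 h
  have h1 : orderOf x = orderOf c := by
    rw [← hg, ← orderOf_inv c]
    exact orderOf_injective (MulAut.conj g).toMonoidHom (MulAut.conj g).injective _
  rw [h1] at hj
  have h2 := ClsBAux.conj_inv (hc j hj)
  rw [← inv_pow] at h2
  exact h2.trans (ClsBAux.conj_pow' h j)

theorem ind_iff [Fact p.Prime] [Finite G] {c x : G} (hc : RatC p c) {j : ℕ}
    (hj : ∃ n : ℕ, j ^ p ^ n ≡ 1 [MOD orderOf x]) : IsConj c⁻¹ (x ^ j) ↔ IsConj c⁻¹ x := by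
  constructor
  · intro h
    obtain ⟨n, hn⟩ := hj
    have hp : 0 < p ^ n := pow_pos (Fact.out : p.Prime).pos n
    have e1 : (x ^ j) ^ (j ^ (p ^ n - 1)) = x := by
      have h2 : j * j ^ (p ^ n - 1) = j ^ p ^ n := by
        rw [← pow_succ', Nat.sub_add_cancel hp]
      rw [← pow_mul, h2]
      have h3 := pow_eq_pow_iff_modEq.2 hn
      rw [h3, pow_one]
    have h4 := ind_one (x := x ^ j) hc (j := j ^ (p ^ n - 1)) ⟨n, ?_⟩ h
    · rwa [e1] at h4
    · have h5 : j ^ p ^ n ≡ 1 [MOD orderOf (x ^ j)] := hn.of_dvd (orderOf_pow_dvd j)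
      have h6 := h5.pow (p ^ n - 1)
      rw [one_pow] at h6
      rw [← pow_mul, mul_comm, pow_mul]
      exact h6
  · exact ind_one hc hj

/-- `c ^ q` is rational with `c` -/
theorem RatC_pow [Fact p.Prime] [Finite G] {c : G} (hc : Preg p c) (h : RatC p c) (r : ℕ) :
    RatC p (c ^ p ^ r) := by
  intro j hj
  have hp : p.Prime := Fact.out
  have h1 : orderOf (c ^ p ^ r) = orderOf c :=
    Nat.Coprime.orderOf_pow ((hp.coprime_iff_not_dvd.2 hc).pow_left r).symm
  rw [h1] at hj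
  have h2 := ClsBAux.conj_pow' (h j hj) (p ^ r)
  rwa [← pow_mul, mul_comm, pow_mul] at h2

end

end RatXAux

open RatXAux By.FinRAux

open Classical in
theorem wXT_rat {p : ℕ} [Fact p.Prime] {G : Type*} [Group G] [Finite G]
    (hO : NoP p (⊤ : Subgroup G)) (r s : ℕ) :
    (∀ m : G → ℤ, IsWt p ⊤ m → RI p m → (p : ℤ) * (ordProj[p] (Nat.card G) : ℕ) ∣
      wX p (p ^ r) s (fun x => sfT p m ((x ^ p ^ r)⁻¹))) ↔
    ∀ c : G, Preg p c → RatC p c → (p : ℤ) * (ordProj[p] (Nat.card G) : ℕ) ∣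
      (Nat.card {y : G × G // y.1 ^ s = 1 ∧ y.2 ^ p ^ r = 1 ∧
      (∃ u e : G, orderOf u = p ^ (r + 1) ∧ IsConj c e ∧ Commute u e ∧ y.1 * y.2 = u * e) ∧
      ∀ w : G, Preg p w → w ∈ Subgroup.closure ({y.1, y.2} : Set G)} : ℤ) := by
  have : Fintype G := Fintype.ofFinite G
  generalize hD : (p : ℤ) * (ordProj[p] (Nat.card G) : ℕ) = D
  have hb : ∀ (m : G → ℤ) (Q : G → Prop), (∀ x, Q x) →
      wX p (p ^ r) s (fun x => sfT p m ((x ^ p ^ r)⁻¹))
      = ∑ y : G × G, if PX p (p ^ r) s r y ∧ Q (pr p y.1) then m (pr p y.1 ^ p ^ r)⁻¹ else 0 := by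
    intro m Q hQ
    unfold wX
    rw [finsum_eq_sum_of_fintype]
    refine Finset.sum_congr rfl fun y _ => ?_
    obtain ⟨s1, s2⟩ := sfT_pow (p := p) r m y.1
    by_cases a1 : y.2 ^ p ^ r = 1 ∧ (y.1 * y.2) ^ s = 1 ∧ Opr p (⊤ : Subgroup G) ≤ gn y
    · rw [if_pos a1]
      beta_reduce
      by_cases a3 : orderOf (y.1 * (pr p y.1)⁻¹) = p ^ (r + 1)
      · rw [s2 a3, if_pos ⟨⟨a1, a3⟩, hQ _⟩]
      · rw [s1 a3, if_neg (fun h => a3 h.1.2)]
    · rw [if_neg a1, if_neg (fun h => a1 h.1.1)]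
  have hN : ∀ c : G, Preg p c → Nat.card {y : G × G // PX p (p ^ r) s r y ∧ IsConj c (pr p y.1)} =
      Nat.card {y : G × G // y.1 ^ s = 1 ∧ y.2 ^ p ^ r = 1 ∧
      (∃ u e : G, orderOf u = p ^ (r + 1) ∧ IsConj c e ∧ Commute u e ∧ y.1 * y.2 = u * e) ∧
      ∀ w : G, Preg p w → w ∈ Subgroup.closure ({y.1, y.2} : Set G)} := by
    intro c hc
    refine Nat.card_congr ((ClsBAux.eqv G).subtypeEquiv fun y => ?_)
    have e1 : (ClsBAux.eqv G y).1 = y.1 * y.2 := rfl
    have e2 : (ClsBAux.eqv G y).2 = y.2⁻¹ := rfl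
    have e3 : gn y = Subgroup.closure {y.1, y.2} := rfl
    rw [e1, e2, ClsBAux.clo_eqv, mul_inv_cancel_right, ud_iff hc, inv_pow, inv_eq_one,
      ← ClsFAux.opr_le_iff, ← e3]
    unfold PX
    tauto
  constructor
  · intro h c hc hcr
    have hci : Preg p (c ^ p ^ r)⁻¹ := ClsBAux.preg_inv (ClsBAux.preg_pow hc _)
    have h1 := h (fun x => if IsConj (c ^ p ^ r)⁻¹ x then 1 else 0)
      (MainPAux.isWt_class hci (fun x hx => if_pos hx) (fun x hx => if_neg hx))
      (fun x _ j hj => if_congr (ind_iff (RatC_pow hc hcr r) hj) rfl rfl)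
    rw [hb _ (fun _ => True) (fun _ => trivial)] at h1
    rw [← hN c hc, Nat.card_eq_fintype_card, Fintype.card_subtype, Finset.card_filter]
    push_cast
    refine h1.trans (dvd_of_eq (Finset.sum_congr rfl fun y _ => ?_))
    have h2 := ClsBAux.kap_iff r hc (preg_pr (p := p) y.1)
    by_cases h3 : PX p (p ^ r) s r y
    · rw [if_pos ⟨h3, trivial⟩]
      refine if_congr (h2.trans ?_) rfl rfl
      exact ⟨fun h4 => ⟨h3, h4⟩, fun h4 => h4.2⟩
    · rw [if_neg (fun h4 => h3 h4.1), if_neg (fun h4 => h3 h4.1)]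
  · intro h m hm hmr
    have h2 := ClsBAux.gen_cls (p := p)
      (fun t : G × G => PX p (p ^ r) s r t ∧ RatC p (pr p t.1))
      (fun y => pr p y.1) (fun y => preg_pr _) r D
    have h3 := h2.2 (fun c hc => ?_) m hm
    · have h4 : D ∣ ∑ c : G, if RatC p c then 0 else m (c ^ p ^ r)⁻¹ * psi p (p ^ r) s r c := by
        rw [← hD]
        refine rat_sumQ (φ := fun c => m (c ^ p ^ r)⁻¹ * psi p (p ^ r) s r c) ?_ ?_ ?_ ?_
        · intro g x
          have e1 : ((g * x * g⁻¹) ^ p ^ r)⁻¹ = g * (x ^ p ^ r)⁻¹ * g⁻¹ := by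
            rw [conj_pow]
            group
          change m ((g * x * g⁻¹) ^ p ^ r)⁻¹ * psi p (p ^ r) s r (g * x * g⁻¹) =
            m (x ^ p ^ r)⁻¹ * psi p (p ^ r) s r x
          rw [e1, hm.conj g (Subgroup.mem_top g), psi_conj]
        · intro x hx
          have h5 : psi p (p ^ r) s r x ≠ 0 := fun h6 => hx (by
            change m (x ^ p ^ r)⁻¹ * psi p (p ^ r) s r x = 0
            rw [h6, mul_zero])
          unfold psi at h5
          obtain ⟨y, _, hy⟩ := Finset.exists_ne_zero_of_sum_ne_zero h5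
          have h6 : pr p y = x := by
            by_contra h7
            exact hy (if_neg (fun h8 => h7 h8.1))
          rw [← h6]
          exact preg_pr _
        · intro j hj x hx
          change m ((x ^ j) ^ p ^ r)⁻¹ * psi p (p ^ r) s r (x ^ j) =
            m (x ^ p ^ r)⁻¹ * psi p (p ^ r) s r x
          have e1 : ((x ^ j) ^ p ^ r)⁻¹ = ((x ^ p ^ r)⁻¹) ^ j := by
            rw [inv_pow, ← pow_mul, ← pow_mul, mul_comm]
          rw [psi_pow _ _ _ hj.1, e1, RI_iff.1 hmr (x ^ p ^ r)⁻¹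
            (ClsBAux.preg_inv (ClsBAux.preg_pow hx _)) j hj]
        · intro x _
          exact Dvd.dvd.mul_left (psi_dvd hO _ _ _ x) _
      have h5 : wX p (p ^ r) s (fun x => sfT p m ((x ^ p ^ r)⁻¹)) =
          (∑ y : G × G, if PX p (p ^ r) s r y ∧ RatC p (pr p y.1) then
            m (pr p y.1 ^ p ^ r)⁻¹ else 0) +
          ∑ c : G, if RatC p c then 0 else m (c ^ p ^ r)⁻¹ * psi p (p ^ r) s r c := by
        obtain ⟨Q, hQ⟩ : ∃ Q : G → Prop, ∀ x, Q x := ⟨fun _ => True, fun _ => trivial⟩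
        rw [hb m Q hQ, ← sum_psi _ _ _ m Q, ← sum_psi _ _ _ m (fun c => RatC p c),
          ← Finset.sum_add_distrib]
        refine Finset.sum_congr rfl fun c _ => ?_
        by_cases h6 : RatC p c
        · rw [if_pos (hQ c), if_pos h6, if_pos h6, add_zero]
        · rw [if_pos (hQ c), if_neg h6, if_neg h6, zero_add]
      rw [h5]
      refine dvd_add ?_ h4
      refine h3.trans (dvd_of_eq (Finset.sum_congr rfl fun y _ => ?_))
      by_cases h7 : PX p (p ^ r) s r y ∧ RatC p (pr p y.1)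
      · rw [if_pos h7, if_pos h7]
      · rw [if_neg h7, if_neg h7]
    · by_cases hcr : RatC p c
      · have h4 : Nat.card {y : G × G // (PX p (p ^ r) s r y ∧ RatC p (pr p y.1)) ∧
            IsConj c (pr p y.1)} =
            Nat.card {y : G × G // PX p (p ^ r) s r y ∧ IsConj c (pr p y.1)} := by
          refine Nat.card_congr ((Equiv.refl _).subtypeEquiv fun y => ?_)
          rw [Equiv.refl_apply]
          exact ⟨fun h5 => ⟨h5.1.1, h5.2⟩, fun h5 => ⟨⟨h5.1, RatC_conj h5.2 hcr⟩, h5.2⟩⟩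
        change D ∣ (Nat.card {y : G × G // (PX p (p ^ r) s r y ∧ RatC p (pr p y.1)) ∧
            IsConj c (pr p y.1)} : ℤ)
        rw [h4, hN c hc]
        exact h c hc hcr
      · have : IsEmpty {y : G × G // (PX p (p ^ r) s r y ∧ RatC p (pr p y.1)) ∧
            IsConj c (pr p y.1)} :=
          ⟨fun y => hcr (RatC_conj y.2.2.symm y.2.1.2)⟩
        change D ∣ (Nat.card {y : G × G // (PX p (p ^ r) s r y ∧ RatC p (pr p y.1)) ∧
            IsConj c (pr p y.1)} : ℤ)
        rw [Nat.card_of_isEmpty]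
        exact dvd_zero _

end Pool.Agent.Lib.P0c8ca5.Rc
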