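import Mathlib
import Pool.Agent.Lib.P0c8ca5V.RelW2
import Pool.Agent.Lib.P0c8ca5By.FinR
import Pool.Agent.Lib.P0c8ca5By.FinP
import Pool.Agent.Lib.P0c8ca5Rc.RatX
import Pool.Agent.Lib.P0c8ca5Rc.FinQ

/-! # Tri: triangle groups, classes of groups and families of weights -/

namespace Pool.Agent.Lib.P0c8ca5.Rc

open MonoidAlgebra Bx By Gs

universe u v

variable {C : ∀ (G : Type u) [Group G], Prop} {W : ∀ (G : Type u) [Group G], (G → ℤ) → Prop}
  {p : ℕ}

/-- classes of groups, families of weights -/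
theorem relTri [Fact p.Prime] (hC : SecCl C) (hW : WFam p W) {r s : ℕ}
    (E : ∀ (X : Type u) [Group X], X × X → X × X)
    (hE : ∀ (X : Type u) [Group X], IsRq (p ^ r) (E X))
    (T : ∀ (X : Type u) [Group X], X → X → X × X)
    (hT : ∀ (X : Type u) [Group X], IsPq (p ^ r) s (E X) (T X)) :
    (∀ (G : Type u) [Group G] [Finite G], C G → ∀ (m : G → ℤ), W G m →
      (p : ℤ) * (Nat.card G : ℤ) ∣ nL p (⊤ : Subgroup G) m - wS p m) ↔
    (∀ (G : Type u) [Group G] [Finite G], C G → NoP p (⊤ : Subgroup G) → ∀ (m : G → ℤ),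
      W G m → (p : ℤ) * (ordProj[p] (Nat.card G) : ℕ) ∣
        wX p (p ^ r) s (fun x => sfT p m ((x ^ p ^ r)⁻¹))) := by
  rw [relW2 hC hW]
  have key : ∀ (G : Type u) [Group G] [Finite G] (m : G → ℤ), IsWt p ⊤ m →
      NoP p (⊤ : Subgroup G) → (p : ℤ) * (ordProj[p] (Nat.card G) : ℕ) ∣
        bQ p (⊤ : Subgroup G) (sf p m) - wX p (p ^ r) s (fun x => sfT p m ((x ^ p ^ r)⁻¹)) := by
    intro G _ _ m hm hG
    have h1 := bQ_T hG hm
    have h2 := bQ_congr (hE G) (hT G) hG (CF_sfT (p := p) (CF_of_wt hm))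
    have h3 := dvd_add h1 h2
    rwa [sub_add_sub_cancel] at h3
  constructor
  · intro h G _ _ hCG hG m hm
    exact (dvd_sub_right (h G hCG hG m hm)).1 (key G m (hW.wt G m hm) hG)
  · intro h G _ _ hCG hG m hm
    have h4 := dvd_add (key G m (hW.wt G m hm) hG) (h G hCG hG m hm)
    rwa [sub_add_cancel] at h4

/-- the condition on the pairs -/
def TriD (p r s : ℕ) {G : Type u} [Group G] (c : G) : Prop :=
  p * ordProj[p] (Nat.card G) ∣ Nat.card {y : G × G // y.1 ^ s = 1 ∧ y.2 ^ p ^ r = 1 ∧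
    (∃ u e : G, orderOf u = p ^ (r + 1) ∧ IsConj c e ∧ Commute u e ∧ y.1 * y.2 = u * e) ∧
    ∀ w : G, Preg p w → w ∈ Subgroup.closure ({y.1, y.2} : Set G)}

section
variable [Fact p.Prime] {k : Type v} [Field k] [IsAlgClosed k] [CharP k p]

/-- triangle groups, inside a class -/
theorem rel_tri (hC : SecCl C) {r s : ℕ}
    (E : ∀ (X : Type u) [Group X], X × X → X × X)
    (hE : ∀ (X : Type u) [Group X], IsRq (p ^ r) (E X))
    (T : ∀ (X : Type u) [Group X], X → X → X × X)
    (hT : ∀ (X : Type u) [Group X], IsPq (p ^ r) s (E X) (T X)) :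
    (∀ (G : Type u) [Group G] [Finite G], C G → ∀ (b : MonoidAlgebra k G),
      IsBlock (⊤ : Subgroup G) b → ∃ t : ℤ, gap p (⊤ : Subgroup G) ⊤ b = (p : ℚ) * t) ↔
    (∀ (G : Type u) [Group G] [Finite G], C G → NoP p (⊤ : Subgroup G) → ∀ c : G, Preg p c →
      TriD p r s c) := by
  classical
  rw [gap_iff_nL, relTri hC (WFam_all p) E hE T hT]
  constructor
  · intro h G _ _ hCG hG c hc
    have h2 := (wXT_cls (G := G) r s ((p : ℤ) * (ordProj[p] (Nat.card G) : ℕ))).1
      (fun m hm => h G hCG hG m ⟨inferInstance, hm⟩) c hc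
    unfold TriD
    exact_mod_cast h2
  · intro h G _ _ hCG hG m hm
    exact (wXT_cls (G := G) r s ((p : ℤ) * (ordProj[p] (Nat.card G) : ℕ))).2
      (fun c hc => by
        have h2 := h G hCG hG c hc
        unfold TriD at h2
        exact_mod_cast h2) m hm.2

/-- triangle groups, rational classes, inside a class closed under wreath products with `C_p` -/
theorem rat_tri (hC : SecCl C) (hW : ∀ (G : Type u) [Group G], C G → C (Wr.WG p G)) {r s : ℕ}
    (E : ∀ (X : Type u) [Group X], X × X → X × X)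
    (hE : ∀ (X : Type u) [Group X], IsRq (p ^ r) (E X))
    (T : ∀ (X : Type u) [Group X], X → X → X × X)
    (hT : ∀ (X : Type u) [Group X], IsPq (p ^ r) s (E X) (T X)) :
    (∀ (G : Type u) [Group G] [Finite G], C G → ∀ (b : MonoidAlgebra k G),
      IsBlock (⊤ : Subgroup G) b → ∃ t : ℤ, gap p (⊤ : Subgroup G) ⊤ b = (p : ℚ) * t) ↔
    (∀ (G : Type u) [Group G] [Finite G], C G → NoP p (⊤ : Subgroup G) → ∀ c : G, Preg p c →
      RatC p c → TriD p r s c) := by
  classical
  constructor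
  · intro h G _ _ hCG hG c hc _
    exact (rel_tri hC E hE T hT).1 h G hCG hG c hc
  · intro h
    refine gap_of_weights hW ?_
    refine (relTri hC (WFam_RI p) E hE T hT).2 (fun G _ _ hCG hG m hm => ?_)
    exact (wXT_rat (p := p) (G := G) hG r s).2 (fun c hc hr => by
      have h2 := h G hCG hG c hc hr
      unfold TriD at h2
      exact_mod_cast h2) m hm.2.1 hm.2.2

end

end Pool.Agent.Lib.P0c8ca5.Rc
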