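import Mathlib
import Pool.Agent.Lib.P0c8ca5By.FinO
import Pool.Agent.Lib.P0c8ca5Rc.OrbC
import Pool.Agent.Lib.P0c8ca5Rc.Tri

/-! # Cnt: the conditions on the tuples, and the numbers of their classes -/

namespace Pool.Agent.Lib.P0c8ca5.Rc

open MonoidAlgebra Gs Bx By

universe u v

section
variable {G : Type u} [Group G]

/-- `t` generates a group containing the elements of order prime to `p` -/
def Gn (p : ℕ) {n : ℕ} (t : Fin n → G) : Prop :=
  ∀ w : G, Preg p w → w ∈ Subgroup.closure (Set.range t)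

/-- `z = u d`, `u` of order `q` commuting with `d`, `d` conjugate to `c` -/
def Ty (q : ℕ) (c z : G) : Prop := ∃ u d : G, orderOf u = q ∧ Commute u d ∧ IsConj c d ∧ z = u * d

/-- pairs with commutator of type `(p, c)` -/
def CP (p : ℕ) (c : G) (t : Fin 2 → G) : Prop :=
  Ty p c (t 0 * t 1 * (t 0)⁻¹ * (t 1)⁻¹) ∧ Gn p t

/-- pairs of elements of order `a`, `b` with product of type `(q, c)` -/
def TP (p a b q : ℕ) (c : G) (t : Fin 2 → G) : Prop :=
  orderOf (t 0) = a ∧ orderOf (t 1) = b ∧ Ty q c (t 0 * t 1) ∧ Gn p t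

/-- tuples of elements of order `p` with product conjugate to `c` -/
def NP (p n : ℕ) (c : G) (t : Fin n → G) : Prop :=
  (∀ i, orderOf (t i) = p) ∧ IsConj c (List.ofFn t).prod ∧ Gn p t

theorem ord_cj (g x : G) : orderOf (g * x * g⁻¹) = orderOf x :=
  orderOf_injective (MulAut.conj g).toMonoidHom (MulAut.conj g).injective x

theorem Gn_cj {p n : ℕ} (g : G) {t : Fin n → G} (h : Gn p t) :
    Gn p (fun i => g * t i * g⁻¹) := by
  intro w hw
  have h8 := h (g⁻¹ * w * g) (by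
    have h9 := (preg_cj (p := p) g⁻¹ w).2 hw
    rwa [inv_inv] at h9)
  have h10 : Subgroup.closure (Set.range fun i => g * t i * g⁻¹) =
      (Subgroup.closure (Set.range t)).map (MulAut.conj g).toMonoidHom := by
    rw [MonoidHom.map_closure, ← Set.range_comp]
    rfl
  rw [h10]
  refine ⟨_, h8, ?_⟩
  change g * (g⁻¹ * w * g) * g⁻¹ = w
  group

theorem Ty_cj {q : ℕ} {c z : G} (g : G) (h : Ty q c z) : Ty q c (g * z * g⁻¹) := by
  obtain ⟨u, d, h1, h2, h3, rfl⟩ := h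
  refine ⟨g * u * g⁻¹, g * d * g⁻¹, (ord_cj g u).trans h1, ?_,
    h3.trans (isConj_iff.2 ⟨g, rfl⟩), by group⟩
  have e1 : g * u * g⁻¹ * (g * d * g⁻¹) = g * (u * d) * g⁻¹ := by group
  have e2 : g * d * g⁻¹ * (g * u * g⁻¹) = g * (d * u) * g⁻¹ := by group
  change g * u * g⁻¹ * (g * d * g⁻¹) = g * d * g⁻¹ * (g * u * g⁻¹)
  rw [e1, e2, h2.eq]

theorem CP_cj {p : ℕ} {c : G} (g : G) (t : Fin 2 → G) (h : CP p c t) :
    CP p c (fun i => g * t i * g⁻¹) := by
  refine ⟨?_, Gn_cj g h.2⟩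
  have e : g * t 0 * g⁻¹ * (g * t 1 * g⁻¹) * (g * t 0 * g⁻¹)⁻¹ * (g * t 1 * g⁻¹)⁻¹
      = g * (t 0 * t 1 * (t 0)⁻¹ * (t 1)⁻¹) * g⁻¹ := by group
  change Ty p c (g * t 0 * g⁻¹ * (g * t 1 * g⁻¹) * (g * t 0 * g⁻¹)⁻¹ * (g * t 1 * g⁻¹)⁻¹)
  rw [e]
  exact Ty_cj g h.1

theorem TP_cj {p a b q : ℕ} {c : G} (g : G) (t : Fin 2 → G) (h : TP p a b q c t) :
    TP p a b q c (fun i => g * t i * g⁻¹) := by
  refine ⟨(ord_cj g _).trans h.1, (ord_cj g _).trans h.2.1, ?_, Gn_cj g h.2.2.2⟩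
  have e : g * t 0 * g⁻¹ * (g * t 1 * g⁻¹) = g * (t 0 * t 1) * g⁻¹ := by group
  change Ty q c (g * t 0 * g⁻¹ * (g * t 1 * g⁻¹))
  rw [e]
  exact Ty_cj g h.2.2.1

theorem prod_cj {n : ℕ} (g : G) (t : Fin n → G) :
    (List.ofFn fun i => g * t i * g⁻¹).prod = g * (List.ofFn t).prod * g⁻¹ := by
  have h : (List.ofFn fun i => g * t i * g⁻¹) = (List.ofFn t).map (MulAut.conj g).toMonoidHom := by
    rw [List.map_ofFn]
    rfl
  rw [h, ← map_list_prod]
  rfl

theorem NP_cj {p n : ℕ} {c : G} (g : G) (t : Fin n → G) (h : NP p n c t) :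
    NP p n c (fun i => g * t i * g⁻¹) := by
  refine ⟨fun i => (ord_cj g _).trans (h.1 i), ?_, Gn_cj g h.2.2⟩
  rw [prod_cj]
  exact h.2.1.trans (isConj_iff.2 ⟨g, rfl⟩)

/-- pairs as tuples -/
def prE (G : Type u) : (Fin 2 → G) ≃ G × G := finTwoArrowEquiv G

theorem clo_pr (t : Fin 2 → G) : Subgroup.closure (Set.range t) = Subgroup.closure {t 0, t 1} := by
  congr 1
  ext x
  simp only [Set.mem_range, Set.mem_insert_iff, Set.mem_singleton_iff]
  constructor
  · rintro ⟨i, rfl⟩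
    fin_cases i
    · exact Or.inl rfl
    · exact Or.inr rfl
  · rintro (rfl | rfl)
    · exact ⟨0, rfl⟩
    · exact ⟨1, rfl⟩

theorem ty_iff {p : ℕ} [Fact p.Prime] [Finite G] {r : ℕ} {c : G} (hc : Preg p c) (z : G) :
    Ty (p ^ (r + 1)) c z ↔ IsConj c (pr p z) ∧ orderOf (z * (pr p z)⁻¹) = p ^ (r + 1) := by
  rw [← FinRAux.ud_iff hc]
  constructor
  · rintro ⟨u, d, h1, h2, h3, h4⟩
    exact ⟨u, d, h1, h3, h2, h4⟩
  · rintro ⟨u, d, h1, h3, h2, h4⟩
    exact ⟨u, d, h1, h2, h3, h4⟩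

theorem card_CP {p : ℕ} [Fact p.Prime] [Finite G] {c : G} (hc : Preg p c) :
    Nat.card {y : G × G //
        orderOf (cmt y.1 y.2 * (pr p (cmt y.1 y.2))⁻¹) = p ∧ IsConj c (pr p (cmt y.1 y.2)) ∧
        ∀ w : G, Preg p w → w ∈ Subgroup.closure ({y.1, y.2} : Set G)}
      = Nat.card {t : Fin 2 → G // CP p c t} := by
  refine (Nat.card_congr ((prE G).subtypeEquiv fun t => ?_)).symm
  have h := ty_iff (r := 0) hc (t 0 * t 1 * (t 0)⁻¹ * (t 1)⁻¹)
  rw [zero_add, pow_one] at h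
  unfold CP Gn
  rw [h, clo_pr]
  change _ ↔ orderOf (t 0 * t 1 * (t 0)⁻¹ * (t 1)⁻¹ * (pr p (t 0 * t 1 * (t 0)⁻¹ * (t 1)⁻¹))⁻¹) = p ∧
    IsConj c (pr p (t 0 * t 1 * (t 0)⁻¹ * (t 1)⁻¹)) ∧
    ∀ w : G, Preg p w → w ∈ Subgroup.closure ({t 0, t 1} : Set G)
  tauto

theorem card_NP {p : ℕ} [Fact p.Prime] (n : ℕ) (c : G) :
    Nat.card {x : Fin n → G // (∀ i, x i ^ p = 1 ∧ x i ≠ 1) ∧
        IsConj c (List.ofFn x).prod ∧
        ∀ w : G, Preg p w → w ∈ Subgroup.closure (Set.range x)}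
      = Nat.card {t : Fin n → G // NP p n c t} := by
  refine Nat.card_congr (Equiv.subtypeEquivRight fun t => ?_)
  have h : ∀ x : G, (x ^ p = 1 ∧ x ≠ 1) ↔ orderOf x = p := by
    intro x
    constructor
    · rintro ⟨h1, h2⟩
      exact orderOf_eq_prime h1 h2
    · intro h1
      refine ⟨by rw [← h1]; exact pow_orderOf_eq_one x, ?_⟩
      rintro rfl
      rw [orderOf_one] at h1
      exact (Fact.out : p.Prime).ne_one h1.symm
  unfold NP Gn
  simp only [h]

theorem card_TP2 [Finite G] (hG : NoP 2 (⊤ : Subgroup G)) {c : G} (hc : Preg 2 c) :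
    Nat.card {y : G × G // y.1 ^ 2 = 1 ∧ y.2 ^ 2 ^ 2 = 1 ∧
      (∃ u e : G, orderOf u = 2 ^ (2 + 1) ∧ IsConj c e ∧ Commute u e ∧ y.1 * y.2 = u * e) ∧
      ∀ w : G, Preg 2 w → w ∈ Subgroup.closure ({y.1, y.2} : Set G)}
      = Nat.card {t : Fin 2 → G // TP 2 2 4 8 c t} := by
  refine (Nat.card_congr ((prE G).subtypeEquiv fun t => ?_)).symm
  unfold TP Gn Ty
  rw [clo_pr]
  change _ ↔ t 0 ^ 2 = 1 ∧ t 1 ^ 2 ^ 2 = 1 ∧
    (∃ u e : G, orderOf u = 2 ^ (2 + 1) ∧ IsConj c e ∧ Commute u e ∧ t 0 * t 1 = u * e) ∧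
    ∀ w : G, Preg 2 w → w ∈ Subgroup.closure ({t 0, t 1} : Set G)
  constructor
  · rintro ⟨h1, h2, ⟨u, e, h3, h4, h5, h6⟩, h7⟩
    refine ⟨?_, ?_, ⟨u, e, h3, h5, h4, h6⟩, h7⟩
    · have h8 := pow_orderOf_eq_one (t 0)
      rwa [h1] at h8
    · have h8 := pow_orderOf_eq_one (t 1)
      rwa [h2] at h8
  · rintro ⟨h1, h2, ⟨u, e, h3, h5, h4, h6⟩, h7⟩
    have h8 := FinOAux.exact_ord hG hc h1 h2 ⟨u, e, h3, h5, h4, h6⟩ h7
    exact ⟨h8.1, h8.2, ⟨u, e, h3, h4, h5, h6⟩, h7⟩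

theorem card_TP3 [Finite G] {c : G} (hc : Preg 3 c) :
    Nat.card {y : G × G // y.1 ^ 3 = 1 ∧ y.2 ^ 3 ^ 1 = 1 ∧
      (∃ u e : G, orderOf u = 3 ^ (1 + 1) ∧ IsConj c e ∧ Commute u e ∧ y.1 * y.2 = u * e) ∧
      ∀ w : G, Preg 3 w → w ∈ Subgroup.closure ({y.1, y.2} : Set G)}
      = Nat.card {t : Fin 2 → G // TP 3 3 3 9 c t} := by
  have : Fact (Nat.Prime 3) := ⟨Nat.prime_three⟩
  refine (Nat.card_congr ((prE G).subtypeEquiv fun t => ?_)).symm
  unfold TP Gn Ty
  rw [clo_pr]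
  change _ ↔ t 0 ^ 3 = 1 ∧ t 1 ^ 3 ^ 1 = 1 ∧
    (∃ u e : G, orderOf u = 3 ^ (1 + 1) ∧ IsConj c e ∧ Commute u e ∧ t 0 * t 1 = u * e) ∧
    ∀ w : G, Preg 3 w → w ∈ Subgroup.closure ({t 0, t 1} : Set G)
  constructor
  · rintro ⟨h1, h2, ⟨u, e, h3, h4, h5, h6⟩, h7⟩
    refine ⟨?_, ?_, ⟨u, e, h3, h5, h4, h6⟩, h7⟩
    · have h8 := pow_orderOf_eq_one (t 0)
      rwa [h1] at h8
    · have h8 := pow_orderOf_eq_one (t 1)
      rw [h2] at h8
      rw [pow_one]
      exact h8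
  · rintro ⟨h1, h2, ⟨u, e, hu, hce, hcom, hxy⟩, h7⟩
    rw [pow_one] at h2
    have he : Preg 3 e := ClsBAux.preg_isConj hce.symm hc
    have h9 : 9 ∣ orderOf (t 0 * t 1) := by
      have h1 : (orderOf u).Coprime (orderOf e) := by
        rw [hu]
        have h2 : Nat.Coprime 3 (orderOf e) :=
          (Nat.Prime.coprime_iff_not_dvd Nat.prime_three).2 he
        exact Nat.Coprime.pow_left 2 h2
      rw [hxy, hcom.orderOf_mul_eq_mul_orderOf_of_coprime h1, hu]
      exact Dvd.intro _ rfl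
    refine ⟨orderOf_eq_prime h1 ?_, orderOf_eq_prime h2 ?_, ⟨u, e, hu, hcom, hce, hxy⟩, h7⟩
    · intro h5
      rw [h5, one_mul] at h9
      have h6 := h9.trans (orderOf_dvd_of_pow_eq_one h2)
      omega
    · intro h5
      rw [h5, mul_one] at h9
      have h6 := h9.trans (orderOf_dvd_of_pow_eq_one h1)
      omega

end

section
variable {C : ∀ (G : Type u) [Group G], Prop}

/-- the numbers of classes are divisible by `p` -/
def DvS (C : ∀ (G : Type u) [Group G], Prop) (p : ℕ) {n : ℕ}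
    (S : ∀ (G : Type u) [Group G], G → (Fin n → G) → Prop) : Prop :=
  ∀ (G : Type u) [Group G] [Finite G], C G → NoP p (⊤ : Subgroup G) → ∀ c : G, Preg p c →
    p ∣ Nat.card (Quot (cjS (S G c)))

/-- the numbers of classes are divisible by `p`, rational `c` -/
def DvR (C : ∀ (G : Type u) [Group G], Prop) (p : ℕ) {n : ℕ}
    (S : ∀ (G : Type u) [Group G], G → (Fin n → G) → Prop) : Prop :=
  ∀ (G : Type u) [Group G] [Finite G], C G → NoP p (⊤ : Subgroup G) → ∀ c : G, Preg p c →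
    RatC p c → p ∣ Nat.card (Quot (cjS (S G c)))

/-- the blockwise weight conjecture modulo `p` inside `C` -/
def WC (C : ∀ (G : Type u) [Group G], Prop) (p : ℕ) (k : Type v) [Field k] : Prop :=
  ∀ (G : Type u) [Group G] [Finite G], C G → ∀ (b : MonoidAlgebra k G),
    IsBlock (⊤ : Subgroup G) b → ∃ t : ℤ, gap p (⊤ : Subgroup G) ⊤ b = (p : ℚ) * t

theorem wc_CP (hC : SecCl C) {p : ℕ} [Fact p.Prime] {k : Type v} [Field k] [IsAlgClosed k]
    [CharP k p] : WC C p k ↔ DvS C p (fun G _ => CP (G := G) p) := by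
  unfold WC
  rw [rel_all hC]
  unfold DvS
  refine forall_congr' fun G => forall_congr' fun _ => forall_congr' fun _ =>
    forall_congr' fun _ => forall_congr' fun hG => forall_congr' fun c => forall_congr' fun hc => ?_
  rw [card_CP hc]
  exact cls_iff hG _ (fun g t h => CP_cj g t h) (fun t h => h.2)

theorem wr_CP (hC : SecCl C) {p : ℕ} [Fact p.Prime]
    (hW : ∀ (G : Type u) [Group G], C G → C (Wr.WG p G)) {k : Type v} [Field k] [IsAlgClosed k]
    [CharP k p] : WC C p k ↔ DvR C p (fun G _ => CP (G := G) p) := by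
  unfold WC
  rw [rat_all hC hW]
  unfold DvR
  refine forall_congr' fun G => forall_congr' fun _ => forall_congr' fun _ =>
    forall_congr' fun _ => forall_congr' fun hG => forall_congr' fun c => forall_congr' fun hc =>
    forall_congr' fun _ => ?_
  rw [card_CP hc]
  exact cls_iff hG _ (fun g t h => CP_cj g t h) (fun t h => h.2)

theorem wc_N2 (hC : SecCl C) {k : Type v} [Field k] [IsAlgClosed k] [CharP k 2] :
    WC C 2 k ↔ DvS C 2 (fun G _ => NP (G := G) 2 5) := by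
  have : Fact (Nat.Prime 2) := ⟨Nat.prime_two⟩
  unfold WC
  rw [rel_two hC]
  unfold DvS
  refine forall_congr' fun G => forall_congr' fun _ => forall_congr' fun _ =>
    forall_congr' fun _ => forall_congr' fun hG => forall_congr' fun c => forall_congr' fun hc => ?_
  rw [card_NP]
  exact cls_iff hG _ (fun g t h => NP_cj g t h) (fun t h => h.2.2)

theorem wr_N2 (hC : SecCl C) (hW : ∀ (G : Type u) [Group G], C G → C (Wr.WG 2 G))
    {k : Type v} [Field k] [IsAlgClosed k] [CharP k 2] :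
    WC C 2 k ↔ DvR C 2 (fun G _ => NP (G := G) 2 5) := by
  have : Fact (Nat.Prime 2) := ⟨Nat.prime_two⟩
  unfold WC
  rw [rat_two hC hW]
  unfold DvR
  refine forall_congr' fun G => forall_congr' fun _ => forall_congr' fun _ =>
    forall_congr' fun _ => forall_congr' fun hG => forall_congr' fun c => forall_congr' fun hc =>
    forall_congr' fun _ => ?_
  rw [card_NP]
  exact cls_iff hG _ (fun g t h => NP_cj g t h) (fun t h => h.2.2)

theorem wc_N3 (hC : SecCl C) {k : Type v} [Field k] [IsAlgClosed k] [CharP k 3] :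
    WC C 3 k ↔ DvS C 3 (fun G _ => NP (G := G) 3 4) := by
  have : Fact (Nat.Prime 3) := ⟨Nat.prime_three⟩
  unfold WC
  rw [rel_three hC]
  unfold DvS
  refine forall_congr' fun G => forall_congr' fun _ => forall_congr' fun _ =>
    forall_congr' fun _ => forall_congr' fun hG => forall_congr' fun c => forall_congr' fun hc => ?_
  rw [card_NP]
  exact cls_iff hG _ (fun g t h => NP_cj g t h) (fun t h => h.2.2)

theorem wr_N3 (hC : SecCl C) (hW : ∀ (G : Type u) [Group G], C G → C (Wr.WG 3 G))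
    {k : Type v} [Field k] [IsAlgClosed k] [CharP k 3] :
    WC C 3 k ↔ DvR C 3 (fun G _ => NP (G := G) 3 4) := by
  have : Fact (Nat.Prime 3) := ⟨Nat.prime_three⟩
  unfold WC
  rw [rat_three hC hW]
  unfold DvR
  refine forall_congr' fun G => forall_congr' fun _ => forall_congr' fun _ =>
    forall_congr' fun _ => forall_congr' fun hG => forall_congr' fun c => forall_congr' fun hc =>
    forall_congr' fun _ => ?_
  rw [card_NP]
  exact cls_iff hG _ (fun g t h => NP_cj g t h) (fun t h => h.2.2)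

theorem wc_T2 (hC : SecCl C) {k : Type v} [Field k] [IsAlgClosed k] [CharP k 2] :
    WC C 2 k ↔ DvS C 2 (fun G _ => TP (G := G) 2 2 4 8) := by
  have : Fact (Nat.Prime 2) := ⟨Nat.prime_two⟩
  unfold WC
  rw [rel_tri (p := 2) (k := k) hC (r := 2) (s := 2) (fun X _ => Eq4)
    (fun X _ => by norm_num; exact Eq4_isRq) (fun X _ => Tq4)
    (fun X _ => by norm_num; exact Tq4_isPq)]
  unfold DvS TriD
  refine forall_congr' fun G => forall_congr' fun _ => forall_congr' fun _ =>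
    forall_congr' fun _ => forall_congr' fun hG => forall_congr' fun c => forall_congr' fun hc => ?_
  rw [card_TP2 hG hc]
  exact cls_iff hG _ (fun g t h => TP_cj g t h) (fun t h => h.2.2.2)

theorem wr_T2 (hC : SecCl C) (hW : ∀ (G : Type u) [Group G], C G → C (Wr.WG 2 G))
    {k : Type v} [Field k] [IsAlgClosed k] [CharP k 2] :
    WC C 2 k ↔ DvR C 2 (fun G _ => TP (G := G) 2 2 4 8) := by
  have : Fact (Nat.Prime 2) := ⟨Nat.prime_two⟩
  unfold WC
  rw [rat_tri (p := 2) (k := k) hC hW (r := 2) (s := 2) (fun X _ => Eq4)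
    (fun X _ => by norm_num; exact Eq4_isRq) (fun X _ => Tq4)
    (fun X _ => by norm_num; exact Tq4_isPq)]
  unfold DvR TriD
  refine forall_congr' fun G => forall_congr' fun _ => forall_congr' fun _ =>
    forall_congr' fun _ => forall_congr' fun hG => forall_congr' fun c => forall_congr' fun hc =>
    forall_congr' fun _ => ?_
  rw [card_TP2 hG hc]
  exact cls_iff hG _ (fun g t h => TP_cj g t h) (fun t h => h.2.2.2)

theorem wc_T3 (hC : SecCl C) {k : Type v} [Field k] [IsAlgClosed k] [CharP k 3] :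
    WC C 3 k ↔ DvS C 3 (fun G _ => TP (G := G) 3 3 3 9) := by
  have : Fact (Nat.Prime 3) := ⟨Nat.prime_three⟩
  unfold WC
  rw [rel_tri (p := 3) (k := k) hC (r := 1) (s := 3) (fun X _ => Eq3)
    (fun X _ => by norm_num; exact Eq3_isRq) (fun X _ => Tq3)
    (fun X _ => by norm_num; exact Tq3_isPq)]
  unfold DvS TriD
  refine forall_congr' fun G => forall_congr' fun _ => forall_congr' fun _ =>
    forall_congr' fun _ => forall_congr' fun hG => forall_congr' fun c => forall_congr' fun hc => ?_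
  rw [card_TP3 hc]
  exact cls_iff hG _ (fun g t h => TP_cj g t h) (fun t h => h.2.2.2)

theorem wr_T3 (hC : SecCl C) (hW : ∀ (G : Type u) [Group G], C G → C (Wr.WG 3 G))
    {k : Type v} [Field k] [IsAlgClosed k] [CharP k 3] :
    WC C 3 k ↔ DvR C 3 (fun G _ => TP (G := G) 3 3 3 9) := by
  have : Fact (Nat.Prime 3) := ⟨Nat.prime_three⟩
  unfold WC
  rw [rat_tri (p := 3) (k := k) hC hW (r := 1) (s := 3) (fun X _ => Eq3)
    (fun X _ => by norm_num; exact Eq3_isRq) (fun X _ => Tq3)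
    (fun X _ => by norm_num; exact Tq3_isPq)]
  unfold DvR TriD
  refine forall_congr' fun G => forall_congr' fun _ => forall_congr' fun _ =>
    forall_congr' fun _ => forall_congr' fun hG => forall_congr' fun c => forall_congr' fun hc =>
    forall_congr' fun _ => ?_
  rw [card_TP3 hc]
  exact cls_iff hG _ (fun g t h => TP_cj g t h) (fun t h => h.2.2.2)

end

end Pool.Agent.Lib.P0c8ca5.Rc
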