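import Mathlib
import Pool.Agent.Lib.P0c8ca5Tg.FinG
import Pool.Agent.Lib.P0c8ca5Rc.Cnt

/-! # CntH: surfaces of genus `h` -/

namespace Pool.Agent.Lib.P0c8ca5.Rc

open MonoidAlgebra Gs Bx By Tg

universe u v

section
variable {G : Type u} [Group G]

/-- `h` pairs, the product of their commutators conjugate to `c` -/
def SP (p h : ℕ) (c : G) (t : Fin (h + h) → G) : Prop :=
  IsConj c (List.ofFn fun i : Fin h => t (Fin.castAdd h i) * t (Fin.natAdd h i) *
    (t (Fin.castAdd h i))⁻¹ * (t (Fin.natAdd h i))⁻¹).prod ∧ Gn p t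

theorem SP_cj {p h : ℕ} {c : G} (g : G) (t : Fin (h + h) → G) (H : SP p h c t) :
    SP p h c (fun i => g * t i * g⁻¹) := by
  refine ⟨?_, Gn_cj g H.2⟩
  have e : (fun i : Fin h => g * t (Fin.castAdd h i) * g⁻¹ * (g * t (Fin.natAdd h i) * g⁻¹) *
      (g * t (Fin.castAdd h i) * g⁻¹)⁻¹ * (g * t (Fin.natAdd h i) * g⁻¹)⁻¹) =
      fun i : Fin h => g * (t (Fin.castAdd h i) * t (Fin.natAdd h i) *
        (t (Fin.castAdd h i))⁻¹ * (t (Fin.natAdd h i))⁻¹) * g⁻¹ := by
    funext i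
    group
  rw [e, prod_cj]
  exact H.1.trans (isConj_iff.2 ⟨g, rfl⟩)

theorem card_SP (p h : ℕ) (c : G) :
    Nat.card {t : Fin h ⊕ Fin h → G // IsConj c (prc t) ∧
        ∀ w : G, Preg p w → w ∈ Subgroup.closure (Set.range t)}
      = Nat.card {t : Fin (h + h) → G // SP p h c t} := by
  refine (Nat.card_congr ((Equiv.arrowCongr finSumFinEquiv.symm (Equiv.refl G)).subtypeEquiv
    fun t => ?_)).symm
  have e1 : (Equiv.arrowCongr finSumFinEquiv.symm (Equiv.refl G)) t =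
      t ∘ (finSumFinEquiv : Fin h ⊕ Fin h ≃ Fin (h + h)) := rfl
  rw [e1, EquivLike.range_comp]
  unfold SP prc cmt Gn
  simp only [Function.comp_apply, finSumFinEquiv_apply_left, finSumFinEquiv_apply_right]

theorem card_SP1 (p : ℕ) (c : G) :
    Nat.card {y : G × G // IsConj c (cmt y.1 y.2) ∧
        ∀ w : G, Preg p w → w ∈ Subgroup.closure ({y.1, y.2} : Set G)}
      = Nat.card {t : Fin (1 + 1) → G // SP p 1 c t} := by
  refine (Nat.card_congr ((prE G).subtypeEquiv fun t => ?_)).symm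
  unfold SP Gn cmt
  have e : (List.ofFn fun i : Fin 1 => t (Fin.castAdd 1 i) * t (Fin.natAdd 1 i) *
    (t (Fin.castAdd 1 i))⁻¹ * (t (Fin.natAdd 1 i))⁻¹).prod = t 0 * t 1 * (t 0)⁻¹ * (t 1)⁻¹ := by
    rw [List.ofFn_succ, List.ofFn_zero, List.prod_cons, List.prod_nil, mul_one]
    rfl
  rw [e]
  have e2 := clo_pr t
  change _ ∧ (∀ w : G, Preg p w → w ∈ Subgroup.closure (Set.range t)) ↔ _
  rw [e2]
  exact Iff.rfl

end

section
variable {C : ∀ (G : Type u) [Group G], Prop} {p : ℕ} [Fact p.Prime]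

/-- genus one and genus `j + 1` -/
theorem wc_H (hC : SecCl C) {j : ℕ} (hj0 : j ≠ 0) (hj : p - 1 ∣ 2 * j) {k : Type v} [Field k]
    [IsAlgClosed k] [CharP k p] :
    WC C p k ↔ ∀ (G : Type u) [Group G] [Finite G], C G → NoP p (⊤ : Subgroup G) → ∀ c : G,
      Preg p c → Nat.card (Quot (cjS (SP (G := G) p (j + 1) c))) ≡
        Nat.card (Quot (cjS (SP (G := G) p 1 c))) [MOD p] := by
  unfold WC
  rw [gap_iff_nL, relW2 hC (WFam_all p)]
  have key : ∀ (G : Type u) [Group G] [Finite G], NoP p (⊤ : Subgroup G) → ∀ c : G,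
      (Nat.card (Quot (cjS (SP (G := G) p (j + 1) c))) ≡
        Nat.card (Quot (cjS (SP (G := G) p 1 c))) [MOD p] ↔
      Nat.card {t : Fin (j + 1) ⊕ Fin (j + 1) → G // IsConj c (prc t) ∧
        ∀ w : G, Preg p w → w ∈ Subgroup.closure (Set.range t)} ≡
      Nat.card {y : G × G // IsConj c (cmt y.1 y.2) ∧
        ∀ w : G, Preg p w → w ∈ Subgroup.closure ({y.1, y.2} : Set G)}
        [MOD p * ordProj[p] (Nat.card G)]) := by
    intro G _ _ hG c
    rw [card_SP, card_SP1]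
    exact (cls_congr hG _ _ (fun g t h => SP_cj g t h) (fun t h => h.2)
      (fun g t h => SP_cj g t h) (fun t h => h.2)).symm
  constructor
  · intro h G _ _ hCG hG c hc
    refine (key G hG c).2 ?_
    exact (wG_cls (A := G) (j + 1) (p * ordProj[p] (Nat.card G))).1
      (fun m hm => by
        have h2 := (dvd_sub_right (h G hCG hG m ⟨inferInstance, hm⟩)).1 (bQ_genus' hj0 hj hG hm)
        exact_mod_cast h2) c hc
  · intro h G _ _ hCG hG m hm
    have h2 := (wG_cls (A := G) (j + 1) (p * ordProj[p] (Nat.card G))).2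
      (fun c hc => (key G hG c).1 (h G hCG hG c hc)) m hm.2
    have h3 := dvd_add (bQ_genus' hj0 hj hG hm.2) (by exact_mod_cast h2)
    rwa [sub_add_cancel] at h3

end

end Pool.Agent.Lib.P0c8ca5.Rc
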