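import Mathlib
import Pool.Agent.Lib.P0c8ca5Rc.RatT

/-!
# FunR: invariant weights and rational classes, general form

PROOF. As `tX_rat` (P0c8ca5Rc.RatT), with an arbitrary class function `e` instead of the number `eX p N`, and exponent 1.
`←`: `∑ x, m x⁻¹ * e x = ∑ x, (if RatC p x then m x⁻¹ * e x else 0) + ∑ x, (if RatC p x then 0 else m x⁻¹ * e x)`; the second sum
is divisible by `rat_sumQ` for `φ x = m x⁻¹ * e x` (`RI_iff`, `hcl`, `hpow`, `hdvd`); the first sum is the sum over the
conjugacy classes of such `c` (p-regular, since `m x⁻¹ ≠ 0` only for p-regular `x`) of `m c⁻¹` times `∑ x, if IsConj c x then e x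
else 0` (sort by `ConjClasses`, or strong induction on the support, or `Finset.sum_fiberwise`). `→`: take
`m x = if IsConj c⁻¹ x then 1 else 0` (`RatTAux.ri_ind`, `ClsAux.isWt_ind`, `ClsAux.ind`).
-/

namespace Pool.Agent.Lib.P0c8ca5.Rc

open MonoidAlgebra Gs

namespace FunRAux

open ClsAux RatTAux

variable {p : ℕ} {G : Type*} [Group G]

open Classical in
theorem class_sum [Fintype G] {m : G → ℤ} (hm : ∀ g x, m (g * x * g⁻¹) = m x) (e : G → ℤ) :
    ∑ x, m x⁻¹ * e x =
      ∑ X : ConjClasses G, m (Quotient.out X)⁻¹ * ∑ x, ind (Quotient.out X) x * e x := by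
  simp only [Finset.mul_sum]
  rw [Finset.sum_comm]
  refine Finset.sum_congr rfl (fun y _ => ?_)
  rw [Finset.sum_eq_single (ConjClasses.mk y)]
  · have h1 : IsConj (Quotient.out (ConjClasses.mk y)) y :=
      ConjClasses.mk_eq_mk_iff_isConj.1 (Quotient.out_eq _)
    rw [ind_pos h1, one_mul]
    obtain ⟨c, hc⟩ := isConj_iff.1 (conj_inv h1)
    have h2 := hm c (Quotient.out (ConjClasses.mk y))⁻¹
    rw [hc] at h2
    rw [h2]
  · intro X _ hX
    rw [ind_neg, zero_mul, mul_zero]
    intro h1
    apply hX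
    have h2 := ConjClasses.mk_eq_mk_iff_isConj.2 h1
    rw [← h2]
    exact (Quotient.out_eq X).symm
  · intro h1
    exact absurd (Finset.mem_univ _) h1

theorem ind_sum [Fintype G] (c : G) (e : G → ℤ) (f : G → ℤ)
    (h1 : ∀ x, IsConj c x → f x = e x) (h2 : ∀ x, ¬ IsConj c x → f x = 0) :
    ∑ x, ind c x * e x = ∑ x, f x := by
  refine Finset.sum_congr rfl fun x _ => ?_
  by_cases h : IsConj c x
  · rw [ind_pos h, one_mul, h1 x h]
  · rw [ind_neg h, zero_mul, h2 x h]

theorem ind_inv_sum [Fintype G] (c : G) (e : G → ℤ) (f : G → ℤ)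
    (h1 : ∀ x, IsConj c x → f x = e x) (h2 : ∀ x, ¬ IsConj c x → f x = 0) :
    ∑ x, ind c⁻¹ x⁻¹ * e x = ∑ x, f x := by
  refine Finset.sum_congr rfl fun x _ => ?_
  by_cases h : IsConj c x
  · rw [ind_pos (conj_inv_iff.2 h), one_mul, h1 x h]
  · rw [ind_neg (fun h' => h (conj_inv_iff.1 h')), zero_mul, h2 x h]

end FunRAux

open FunRAux ClsAux RatTAux

open Classical in
theorem fun_rat {p : ℕ} [Fact p.Prime] {G : Type*} [Group G] [Finite G] {e : G → ℤ}
    (hcl : ∀ g x, e (g * x * g⁻¹) = e x)
    (hpow : ∀ j : ℕ, (Nat.card G).Coprime j → ∀ x, e (x ^ j) = e x)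
    (hdvd : ∀ x, ((ordProj[p] (Nat.card (Subgroup.centralizer ({x} : Set G))) : ℕ) : ℤ) ∣ e x) :
    (∀ m : G → ℤ, IsWt p ⊤ m → RI p m →
      (p : ℤ) * (ordProj[p] (Nat.card G) : ℕ) ∣ ∑ᶠ x : G, m x⁻¹ * e x) ↔
    (∀ c : G, Preg p c → RatC p c →
      (p : ℤ) * (ordProj[p] (Nat.card G) : ℕ) ∣ ∑ᶠ x : G, if IsConj c x then e x else 0) := by
  constructor
  · intro h c hc hR
    have h1 := h (ind c⁻¹) (isWt_ind hc) (ri_ind hR)
    have : Fintype G := Fintype.ofFinite G
    rw [finsum_eq_sum_of_fintype] at h1 ⊢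
    rwa [ind_inv_sum c e _ (fun x hx => if_pos hx) (fun x hx => if_neg hx)] at h1
  · intro h m hm hR
    have hft : Fintype G := Fintype.ofFinite G
    have hRI := RI_iff.1 hR
    have key := rat_sumQ (p := p) (A := G) (φ := fun x => m x⁻¹ * e x) ?_ ?_ ?_ ?_
    · rw [finsum_eq_sum_of_fintype]
      have e2 : (∑ x : G, m x⁻¹ * e x) =
          (∑ x : G, m x⁻¹ * (if RatC p x then e x else 0)) +
          ∑ x : G, if RatC p x then 0 else m x⁻¹ * e x := by
        rw [← Finset.sum_add_distrib]
        refine Finset.sum_congr rfl fun x _ => ?_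
        by_cases h3 : RatC p x
        · rw [if_pos h3, if_pos h3, add_zero]
        · rw [if_neg h3, if_neg h3, mul_zero, zero_add]
      rw [e2]
      refine dvd_add ?_ key
      rw [class_sum (fun g x => hm.conj g (Subgroup.mem_top g) x)]
      refine Finset.dvd_sum (fun X _ => ?_)
      by_cases hX : Preg p (Quotient.out X)
      · refine Dvd.dvd.mul_left ?_ _
        by_cases hRX : RatC p (Quotient.out X)
        · have h4 := h _ hX hRX
          rw [finsum_eq_sum_of_fintype] at h4
          have h5 : ∑ x, ind (Quotient.out X) x * (if RatC p x then e x else 0) =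
              ∑ x, @ite ℤ (IsConj (Quotient.out X) x) (Classical.propDecidable _) (e x) 0 :=
            ind_sum _ _ _ (fun x hx => by rw [if_pos hx, if_pos (ratC_isConj hx hRX)])
              (fun x hx => if_neg hx)
          rw [h5]
          exact h4
        · rw [ind_sum (Quotient.out X) (fun x => if RatC p x then e x else 0) (fun _ => 0)]
          · rw [Finset.sum_const_zero]
            exact dvd_zero _
          · intro x hx
            rw [if_neg (fun h5 => hRX (ratC_isConj hx.symm h5))]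
          · intro x _
            rfl
      · have h0 : m (Quotient.out X)⁻¹ = 0 := by
          by_contra h1
          exact hX (preg_inv.1 (hm.reg _ h1))
        rw [h0, zero_mul]
        exact dvd_zero _
    · intro g x
      have e1 : (g * x * g⁻¹)⁻¹ = g * x⁻¹ * g⁻¹ := by group
      rw [e1, hm.conj g (Subgroup.mem_top g), hcl]
    · intro x hx
      have h1 : m x⁻¹ ≠ 0 := by
        intro h0
        rw [h0, zero_mul] at hx
        exact hx rfl
      exact preg_inv.1 (hm.reg _ h1)
    · intro j hj x hx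
      have e1 : m (x ^ j)⁻¹ = m x⁻¹ := by
        rw [← inv_pow]
        exact hRI x⁻¹ (preg_inv.2 hx) j hj
      rw [e1, hpow j hj.1]
    · intro x _
      exact Dvd.dvd.mul_left (hdvd x) _

open Classical in
/-- the same for all weights and all classes -/
theorem fun_all {p : ℕ} [Fact p.Prime] {G : Type*} [Group G] [Finite G] {e : G → ℤ} (D : ℤ) :
    (∀ m : G → ℤ, IsWt p ⊤ m → D ∣ ∑ᶠ x : G, m x⁻¹ * e x) ↔
    (∀ c : G, Preg p c → D ∣ ∑ᶠ x : G, if IsConj c x then e x else 0) := by
  constructor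
  · intro h c hc
    have h1 := h (ind c⁻¹) (isWt_ind hc)
    have : Fintype G := Fintype.ofFinite G
    rw [finsum_eq_sum_of_fintype] at h1 ⊢
    rwa [ind_inv_sum c e _ (fun x hx => if_pos hx) (fun x hx => if_neg hx)] at h1
  · intro h m hm
    have : Fintype G := Fintype.ofFinite G
    rw [finsum_eq_sum_of_fintype, class_sum (fun g x => hm.conj g (Subgroup.mem_top g) x)]
    refine Finset.dvd_sum (fun X _ => ?_)
    by_cases hX : Preg p (Quotient.out X)
    · refine Dvd.dvd.mul_left ?_ _
      have h4 := h _ hX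
      rw [finsum_eq_sum_of_fintype] at h4
      have h5 : ∑ x, ind (Quotient.out X) x * e x =
          ∑ x, @ite ℤ (IsConj (Quotient.out X) x) (Classical.propDecidable _) (e x) 0 :=
        ind_sum _ _ _ (fun x hx => if_pos hx) (fun x hx => if_neg hx)
      rw [h5]
      exact h4
    · have h0 : m (Quotient.out X)⁻¹ = 0 := by
        by_contra h1
        exact hX (preg_inv.1 (hm.reg _ h1))
      rw [h0, zero_mul]
      exact dvd_zero _

end Pool.Agent.Lib.P0c8ca5.Rc
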