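import Mathlib
import Pool.Agent.Lib.P0c8ca5Rc.Gc
import Pool.Agent.Lib.P0c8ca5Tg.Defs

/-!
# GcH: numbers of tuples for surfaces with one or two special points are invariant under powers

`e1 p x`: the number of the triples `t` with `t 2` of order `p` and `[t 0, t 1] (t 2) = x`, generating a group that contains
`O^p(A)`. `eS p h x`: the number of the tuples `t : Fin h ⊕ Fin h → A` with `prc t = x` (product of the commutators) generating
such a group.

PROOF. Everything as for `eX`, `eC` in P0c8ca5Rc.Gc (`GcAux.cnt_conj`, `cnt_pow`, `cnt_dvd`; there `e1`, `eS` are the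
functions `cnt p Q π`). The base cases for `cnt_pow` (tuples in a group `G` without the generation condition, compare
`tup_base`, `cm_base`, `sum_cw`): the number of the triples with value `x` is the convolution of `GalB.cmm` (the number of the
pairs with commutator `x`; `GalB.cmm_pow`) and of the indicator of `z ^ p = 1 ∧ z ≠ 1`; the number of the tuples with
`prc t = x` is the `h`-fold convolution power of `GalB.cmm` (induction on `h`; `Fin (h + 1) ⊕ Fin (h + 1) → G` is
`(G × G) × (Fin h ⊕ Fin h → G)` by taking the entries `inl 0`, `inr 0` apart). Convolution powers of power-invariant class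
functions are power-invariant by `GalA.conv_pow` (see `cw_pow` in P0c8ca5Rc.Gc; take `w = GalB.cmm`).
-/

namespace Pool.Agent.Lib.P0c8ca5.Rc

open MonoidAlgebra Gs Tg

variable {p : ℕ} {A : Type*} [Group A]

/-- triples with `t 2` of order `p` and `[t 0, t 1] (t 2) = x` -/
noncomputable def e1 (p : ℕ) (x : A) : ℤ :=
  (Nat.card {t : Fin 3 → A // (t 2 ^ p = 1 ∧ t 2 ≠ 1) ∧ cmt (t 0) (t 1) * t 2 = x ∧
    Opr p (⊤ : Subgroup A) ≤ gT t} : ℤ)

/-- tuples with `prc t = x` -/
noncomputable def eS (p h : ℕ) (x : A) : ℤ :=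
  (Nat.card {t : Fin h ⊕ Fin h → A // prc t = x ∧ Opr p (⊤ : Subgroup A) ≤ gT t} : ℤ)

namespace GcHAux

open GcAux TCAux

section tup
variable {G : Type*} [Group G] [Fintype G]

theorem sum_cwX {X : Type*} [Fintype X] (v : X → G) (w : G → ℤ)
    (hw : ∀ u : G → ℤ, ∑ a : X, u (v a) = ∑ x : G, u x * w x) (N : ℕ) : ∀ f : G → ℤ,
    ∑ t : Fin N → X, f (List.ofFn fun i => v (t i)).prod = ∑ x : G, f x * cw w N x := by
  classical
  induction N with
  | zero =>
    intro f
    have h1 : ∀ x : G, f x * cw w 0 x = if x = 1 then f x else 0 := by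
      intro x
      change f x * (if x = 1 then (1 : ℤ) else 0) = _
      by_cases h : x = 1
      · rw [if_pos h, if_pos h, mul_one]
      · rw [if_neg h, if_neg h, mul_zero]
    rw [Finset.sum_congr rfl (fun x _ => h1 x), Finset.sum_ite_eq' Finset.univ (1 : G),
      if_pos (Finset.mem_univ _)]
    simp
  | succ N ih =>
    intro f
    rw [← Equiv.sum_comp (Fin.consEquiv (fun _ : Fin (N + 1) => X)), Fintype.sum_prod_type]
    have h1 : ∀ a : X, ∑ t : Fin N → X,
        f (List.ofFn fun i => v ((Fin.consEquiv (fun _ : Fin (N + 1) => X)) (a, t) i)).prod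
        = ∑ x : G, f (v a * x) * cw w N x := by
      intro a
      have h2 : ∀ t : Fin N → X,
          f (List.ofFn fun i => v ((Fin.consEquiv (fun _ : Fin (N + 1) => X)) (a, t) i)).prod
          = f (v a * (List.ofFn fun i => v (t i)).prod) := by
        intro t
        rw [List.ofFn_succ, List.prod_cons]
        rfl
      rw [Finset.sum_congr rfl (fun t _ => h2 t)]
      exact ih (fun x => f (v a * x))
    rw [Finset.sum_congr rfl (fun a _ => h1 a),
      hw (fun y => ∑ x : G, f (y * x) * cw w N x)]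
    have h3 : ∀ y : G, (∑ x : G, f (y * x) * cw w N x) * w y =
        ∑ x : G, f x * (w y * cw w N (y⁻¹ * x)) := by
      intro y
      rw [Finset.sum_mul, ← Equiv.sum_comp (Equiv.mulLeft y)
        (fun x => f x * (w y * cw w N (y⁻¹ * x)))]
      refine Finset.sum_congr rfl fun x _ => ?_
      simp only [Equiv.coe_mulLeft, inv_mul_cancel_left]
      ring
    rw [Finset.sum_congr rfl (fun y _ => h3 y), Finset.sum_comm]
    refine Finset.sum_congr rfl fun x _ => ?_
    rw [← Finset.mul_sum]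
    rfl

theorem cmm_conj (c x : G) : GalB.cmm (c * x * c⁻¹) = GalB.cmm x := by
  classical
  unfold GalB.cmm
  rw [← Equiv.sum_comp (MulAut.conj c).toEquiv]
  refine Finset.sum_congr rfl fun a _ => ?_
  rw [← Equiv.sum_comp (MulAut.conj c).toEquiv]
  refine Finset.sum_congr rfl fun b _ => ?_
  refine if_congr ?_ rfl rfl
  change cmt (c * a * c⁻¹) (c * b * c⁻¹) = c * x * c⁻¹ ↔ _
  rw [cmt_cj]
  exact conj_eq_conj c x (cmt a b)

theorem sum_cmm (u : G → ℤ) : ∑ a : G × G, u (cmt a.1 a.2) = ∑ x : G, u x * GalB.cmm x := by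
  classical
  have h2 : ∑ x : G, u x * GalB.cmm x =
      ∑ a : G, ∑ b : G, ∑ x : G, u x * (if cmt a b = x then 1 else 0) := by
    unfold GalB.cmm
    simp only [Finset.mul_sum]
    rw [Finset.sum_comm]
    refine Finset.sum_congr rfl fun a _ => ?_
    rw [Finset.sum_comm]
  rw [h2, Fintype.sum_prod_type]
  refine Finset.sum_congr rfl fun a _ => Finset.sum_congr rfl fun b _ => ?_
  rw [Finset.sum_eq_single (cmt a b)]
  · rw [if_pos rfl, mul_one]
  · intro y _ hy
    rw [if_neg (fun h => hy h.symm), mul_zero]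
  · intro h; exact absurd (Finset.mem_univ _) h

/-- substitution -/
theorem sub_pow {j : ℕ} (hj : (Nat.card G).Coprime j) {W : G → ℤ} (hW : ∀ x, W (x ^ j) = W x)
    (f : G → ℤ) : ∑ x : G, f (x ^ j) * W x = ∑ x : G, f x * W x := by
  rw [← Equiv.sum_comp (powCoprime hj) (fun x => f x * W x)]
  refine Finset.sum_congr rfl fun x _ => ?_
  change f (x ^ j) * W x = f (x ^ j) * W (x ^ j)
  rw [hW]

/-- the base case for surfaces of genus `h` -/
theorem pr_base {j : ℕ} (hj : (Nat.card G).Coprime j) (h : ℕ) (f : G → ℤ) :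
    ∑ t : Fin h ⊕ Fin h → G, (f (prc t ^ j) - f (prc t)) = 0 := by
  have h1 : ∀ u : G → ℤ, ∑ t : Fin h ⊕ Fin h → G, u (prc t) =
      ∑ x : G, u x * cw GalB.cmm h x := by
    intro u
    rw [← sum_cwX (fun a : G × G => cmt a.1 a.2) GalB.cmm sum_cmm h u,
      ← Equiv.sum_comp ((Equiv.arrowProdEquivProdArrow (Fin h) (fun _ => G) (fun _ => G)).trans
        (Equiv.sumArrowEquivProdArrow (Fin h) (Fin h) G).symm)]
    rfl
  rw [Finset.sum_sub_distrib, sub_eq_zero, h1 (fun x => f (x ^ j)), h1 f]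
  exact sub_pow hj (cw_pow cmm_conj hj (fun x => GalB.cmm_pow hj x) h) f

open Classical in
/-- the base case for one special point -/
theorem e1_base (p : ℕ) {j : ℕ} (hj : (Nat.card G).Coprime j) (f : G → ℤ) :
    ∑ t : Fin 3 → G, (if t 2 ^ p = 1 ∧ t 2 ≠ 1 then
      f ((cmt (t 0) (t 1) * t 2) ^ j) - f (cmt (t 0) (t 1) * t 2) else 0) = 0 := by
  let w : G → ℤ := fun z => if z ^ p = 1 ∧ z ≠ 1 then 1 else 0
  let W : G → ℤ := fun x => ∑ y : G, GalB.cmm y * w (y⁻¹ * x)
  have hw1 : ∀ c x, w (c * x * c⁻¹) = w x := by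
    intro c x
    refine if_congr ?_ rfl rfl
    rw [conj_pow, conj_eq_one_iff, Ne, conj_eq_one_iff]
  have hw2 : ∀ x, w (x ^ j) = w x := by
    intro x
    refine if_congr ?_ rfl rfl
    have h2 := GalFAux.pow_one_iff hj x p
    have h3 := GalFAux.pow_one_iff hj x 1
    rw [pow_one, pow_one] at h3
    rw [h2, Ne, h3]
  have hW : ∀ x, W (x ^ j) = W x := by
    intro x
    change ∑ y : G, GalB.cmm y * w (y⁻¹ * x ^ j) = ∑ y : G, GalB.cmm y * w (y⁻¹ * x)
    rw [← GalA.conv_pow hj cmm_conj hw1 x]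
    exact Finset.sum_congr rfl fun y _ => by rw [GalB.cmm_pow hj, hw2]
  have h0 : ∀ u : G → ℤ, ∑ t : Fin 3 → G, w (t 2) * u (cmt (t 0) (t 1) * t 2) =
      ∑ x : G, u x * W x := by
    intro u
    have e3 : ∑ t : Fin 3 → G, w (t 2) * u (cmt (t 0) (t 1) * t 2) =
        ∑ a : G × G, ∑ c : G, w c * u (cmt a.1 a.2 * c) := by
      rw [← Equiv.sum_comp (Fin.consEquiv (fun _ : Fin 3 => G)), Fintype.sum_prod_type,
        Fintype.sum_prod_type]
      refine Finset.sum_congr rfl fun a _ => ?_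
      rw [← Equiv.sum_comp (finTwoArrowEquiv G).symm, Fintype.sum_prod_type]
      rfl
    rw [e3, sum_cmm (fun y => ∑ c : G, w c * u (y * c))]
    have h3 : ∀ y : G, (∑ c : G, w c * u (y * c)) * GalB.cmm y =
        ∑ x : G, u x * (GalB.cmm y * w (y⁻¹ * x)) := by
      intro y
      rw [Finset.sum_mul, ← Equiv.sum_comp (Equiv.mulLeft y)
        (fun x => u x * (GalB.cmm y * w (y⁻¹ * x)))]
      refine Finset.sum_congr rfl fun x _ => ?_
      simp only [Equiv.coe_mulLeft, inv_mul_cancel_left]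
      ring
    rw [Finset.sum_congr rfl (fun y _ => h3 y), Finset.sum_comm]
    refine Finset.sum_congr rfl fun x _ => ?_
    rw [← Finset.mul_sum]
  have h1 : ∀ t : Fin 3 → G, (if t 2 ^ p = 1 ∧ t 2 ≠ 1 then
      f ((cmt (t 0) (t 1) * t 2) ^ j) - f (cmt (t 0) (t 1) * t 2) else 0) =
      w (t 2) * f ((cmt (t 0) (t 1) * t 2) ^ j) - w (t 2) * f (cmt (t 0) (t 1) * t 2) := by
    intro t
    by_cases h : t 2 ^ p = 1 ∧ t 2 ≠ 1
    · have h2 : w (t 2) = 1 := if_pos h
      rw [if_pos h, h2, one_mul, one_mul]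
    · have h2 : w (t 2) = 0 := if_neg h
      rw [if_neg h, h2, zero_mul, zero_mul, sub_zero]
  rw [Finset.sum_congr rfl (fun t _ => h1 t), Finset.sum_sub_distrib, sub_eq_zero,
    h0 (fun x => f (x ^ j)), h0 f]
  exact sub_pow hj hW f

end tup

theorem e1_eq (x : A) : e1 p x =
    GcAux.cnt p (fun t : Fin 3 → A => t 2 ^ p = 1 ∧ t 2 ≠ 1) (fun t => cmt (t 0) (t 1) * t 2) x := rfl

theorem eS_eq (h : ℕ) (x : A) : eS p h x =
    GcAux.cnt p (fun _ : Fin h ⊕ Fin h → A => True) (fun t => prc t) x := by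
  have h1 : Nat.card {t : Fin h ⊕ Fin h → A // prc t = x ∧ Opr p (⊤ : Subgroup A) ≤ gT t} =
      Nat.card {t : Fin h ⊕ Fin h → A // True ∧ prc t = x ∧
        Opr p (⊤ : Subgroup A) ≤ gT t} :=
    Nat.card_congr (Equiv.subtypeEquivRight fun t => ⟨fun h => ⟨trivial, h⟩, fun h => h.2⟩)
  unfold eS GcAux.cnt
  rw [h1]

theorem ord_cj (g : A) (t : Fin 3 → A) :
    (cjt g t 2 ^ p = 1 ∧ cjt g t 2 ≠ 1) ↔ (t 2 ^ p = 1 ∧ t 2 ≠ 1) := by
  unfold cjt
  rw [conj_pow, conj_eq_one_iff, Ne, conj_eq_one_iff]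

theorem val_cj (g : A) (t : Fin 3 → A) :
    cmt (cjt g t 0) (cjt g t 1) * cjt g t 2 = g * (cmt (t 0) (t 1) * t 2) * g⁻¹ := by
  unfold cmt cjt
  group

theorem prc_cj {h : ℕ} (g : A) (t : Fin h ⊕ Fin h → A) :
    prc (cjt g t) = g * prc t * g⁻¹ := prc_cjt g t

theorem prc_up {h : ℕ} (H : Subgroup A) (t : Fin h ⊕ Fin h → ↥H) :
    prc (up H t) = ((prc t : ↥H) : A) := by
  unfold prc
  have h2 : (List.ofFn fun i : Fin h => cmt (up H t (Sum.inl i)) (up H t (Sum.inr i))) =
      (List.ofFn fun i : Fin h => cmt (t (Sum.inl i)) (t (Sum.inr i))).map H.subtype := by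
    rw [List.map_ofFn]
    rfl
  rw [h2, ← map_list_prod]
  rfl

end GcHAux

open GcHAux GcAux TCAux

theorem e1_conj (g x : A) : e1 p (g * x * g⁻¹) = e1 p x := by
  rw [e1_eq, e1_eq]
  exact cnt_conj ord_cj val_cj g x

theorem eS_conj (h : ℕ) (g x : A) : eS p h (g * x * g⁻¹) = eS p h x := by
  rw [eS_eq, eS_eq]
  exact cnt_conj (fun _ _ => Iff.rfl) prc_cj g x

variable [Finite A]

theorem e1_pow {j : ℕ} (hj : (Nat.card A).Coprime j) (x : A) : e1 p (x ^ j) = e1 p x := by
  classical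
  cases nonempty_fintype A
  rw [e1_eq, e1_eq]
  refine cnt_pow ord_cj val_cj hj (fun H f => ?_) x
  have hjH : (Nat.card ↥H).Coprime j := Nat.Coprime.coprime_dvd_left H.card_subgroup_dvd_card hj
  have h := e1_base (G := ↥H) p hjH (fun x => f x)
  refine Eq.trans ?_ h
  refine Finset.sum_congr rfl fun t _ => ?_
  have h3 : (up H t 2 ^ p = 1 ∧ up H t 2 ≠ 1) ↔ (t 2 ^ p = 1 ∧ t 2 ≠ 1) := by
    change ((t 2 : A) ^ p = 1 ∧ (t 2 : A) ≠ 1) ↔ _
    rw [← Subgroup.coe_pow, OneMemClass.coe_eq_one, Ne, OneMemClass.coe_eq_one]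
  by_cases h5 : t 2 ^ p = 1 ∧ t 2 ≠ 1
  · rw [if_pos (h3.2 h5), if_pos h5]
    rfl
  · rw [if_neg (fun h => h5 (h3.1 h)), if_neg h5]

theorem eS_pow {j : ℕ} (hj : (Nat.card A).Coprime j) (h : ℕ) (x : A) :
    eS p h (x ^ j) = eS p h x := by
  classical
  cases nonempty_fintype A
  rw [eS_eq, eS_eq]
  refine cnt_pow (fun _ _ => Iff.rfl) prc_cj hj (fun H f => ?_) x
  have hjH : (Nat.card ↥H).Coprime j := Nat.Coprime.coprime_dvd_left H.card_subgroup_dvd_card hj
  have h1 := pr_base (G := ↥H) hjH h (fun x => f x)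
  refine Eq.trans ?_ h1
  refine Finset.sum_congr rfl fun t _ => ?_
  rw [if_pos trivial, prc_up]
  rfl

theorem e1_dvd [Fact p.Prime] (hO : NoP p (⊤ : Subgroup A)) (x : A) :
    ((ordProj[p] (Nat.card (Subgroup.centralizer ({x} : Set A))) : ℕ) : ℤ) ∣ e1 p x := by
  cases nonempty_fintype A
  rw [e1_eq]
  exact cnt_dvd hO ord_cj val_cj x

theorem eS_dvd [Fact p.Prime] (hO : NoP p (⊤ : Subgroup A)) (h : ℕ) (x : A) :
    ((ordProj[p] (Nat.card (Subgroup.centralizer ({x} : Set A))) : ℕ) : ℤ) ∣ eS p h x := by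
  cases nonempty_fintype A
  rw [eS_eq]
  exact cnt_dvd hO (fun _ _ => Iff.rfl) prc_cj x

end Pool.Agent.Lib.P0c8ca5.Rc
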