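import Mathlib
import Pool.Agent.Lib.P0c8ca5Gs.FinG
import Pool.Agent.Lib.P0c8ca5Gs.X

/-! # T1: the torus with one special point of order `p` -/

namespace Pool.Agent.Lib.P0c8ca5.Rc

open MonoidAlgebra Gs Bx

universe u v

section
variable {A : Type*} [Group A]

/-- weights of the triples -/
noncomputable def W1 (w m : A → ℤ) (t : Fin 3 → A) : ℤ := w (t 2) * m (cmt (t 0) (t 1) * t 2)⁻¹

/-- weights of the triples with last component of order `p` -/
noncomputable def S1 (p : ℕ) (m : A → ℤ) (t : Fin 3 → A) : ℤ := W1 (om p) m t - W1 dl m t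

theorem CT_W1 {w m : A → ℤ} (hw : CF w) (hm : CF m) : CT (W1 w m) := by
  intro g t
  unfold W1 cjt
  have e : (cmt (g * t 0 * g⁻¹) (g * t 1 * g⁻¹) * (g * t 2 * g⁻¹))⁻¹ =
      g * (cmt (t 0) (t 1) * t 2)⁻¹ * g⁻¹ := by
    unfold cmt
    group
  rw [e, hw, hm]

theorem CT_S1 (p : ℕ) {m : A → ℤ} (hm : CF m) : CT (S1 p m) := by
  intro g t
  unfold S1
  rw [CT_W1 (WtAux.CF_om' p) hm g t, CT_W1 WtAux.CF_dl' hm g t]

theorem rsT_W1 (U : Subgroup A) (w m : A → ℤ) :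
    rsT U (W1 w m) = W1 (fun x : ↥U => w x) (fun x : ↥U => m x) := by
  funext t
  rfl

theorem rsT_S1 (p : ℕ) (U : Subgroup A) (m : A → ℤ) :
    rsT U (S1 p m) = S1 p (fun x : ↥U => m x) := by
  funext t
  have h1 := congrFun (rsT_W1 U (om p) m) t
  have h2 := congrFun (rsT_W1 U dl m) t
  rw [om_coe] at h1
  rw [dl_coe] at h2
  unfold S1
  rw [← h1, ← h2]
  rfl

variable [Finite A]

theorem nT_W1 (w m : A → ℤ) : nT (⊤ : Subgroup A) (W1 w m) = nE (⊤ : Subgroup A) (cvl w m) := by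
  classical
  have : Fintype A := Fintype.ofFinite A
  unfold nT nE
  rw [finsum_eq_sum_of_fintype, finsum_eq_sum_of_fintype]
  have l1 : ∑ t : Fin 3 → A, (if gT t ≤ (⊤ : Subgroup A) then W1 w m t else 0) =
      ∑ q : A × A × A, w q.2.2 * m (cmt q.1 q.2.1 * q.2.2)⁻¹ := by
    refine Fintype.sum_equiv (⟨fun t => (t 0, t 1, t 2), fun y => ![y.1, y.2.1, y.2.2],
      fun t => ?_, fun y => rfl⟩ : (Fin 3 → A) ≃ A × A × A) _ _ fun t => ?_
    · funext i
      fin_cases i <;> rfl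
    · rw [if_pos le_top]
      rfl
  have l2 : ∑ q : A × A × A, w q.2.2 * m (cmt q.1 q.2.1 * q.2.2)⁻¹ =
      ∑ a : A, ∑ b : A, ∑ z : A, w z * m (cmt a b * z)⁻¹ := by
    rw [Fintype.sum_prod_type]
    refine Finset.sum_congr rfl fun a _ => ?_
    rw [Fintype.sum_prod_type]
  rw [l1, l2, Fintype.sum_prod_type]
  refine Finset.sum_congr rfl fun a _ => Finset.sum_congr rfl fun b _ => ?_
  rw [if_pos ⟨Subgroup.mem_top _, Subgroup.mem_top _⟩]
  unfold cvl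
  rw [finsum_eq_sum_of_fintype]
  refine Finset.sum_congr rfl fun z _ => ?_
  rw [mul_inv_rev]

theorem nT_S1_top {p : ℕ} [Fact p.Prime] {m : A → ℤ} (hm : IsWt p ⊤ m) :
    (p : ℤ) * (Nat.card A : ℤ) ∣ nT (⊤ : Subgroup A) (S1 p m)
      - (nA p (⊤ : Subgroup A) m - nE (⊤ : Subgroup A) m) := by
  have e : nT (⊤ : Subgroup A) (S1 p m) = nT (⊤ : Subgroup A) (W1 (om p) m)
      - nT (⊤ : Subgroup A) (W1 dl m) := by
    rw [← nT_sub]
    rfl
  rw [e, nT_W1, nT_W1, cvl_dl]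
  have h2 := nE_om (p := p) hm
  have e2 : nE (⊤ : Subgroup A) (cvl (om p) m) - nE (⊤ : Subgroup A) m
      - (nA p (⊤ : Subgroup A) m - nE (⊤ : Subgroup A) m)
      = nE (⊤ : Subgroup A) (cvl (om p) m) - nA p (⊤ : Subgroup A) m := by ring
  rw [e2]
  exact h2

theorem eT_S1 {p : ℕ} [Fact p.Prime] {m : A → ℤ} (hm : IsWt p ⊤ m) :
    (p : ℤ) * (Nat.card A : ℤ) ∣ eT p (S1 p m) - (eA p m - eE p m) := by
  refine eT_of_nT hm (CT_S1 p (CF_of_wt hm)) (fun U => ?_)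
  have h := nT_S1_top (IsWt_dn U hm)
  rw [← rsT_S1, nT_dn, nA_dn, nE_dn] at h
  exact_mod_cast h

end

theorem TW_S1 (p : ℕ) [Fact p.Prime] : TW p (fun (G : Type u) [Group G] => S1 (A := G) p) where
  ct _ _ _ _ hm := CT_S1 p hm
  rs _ _ _ U m := rsT_S1 p U m
  eT _ _ _ _ hm := eT_S1 hm

section
variable {C : ∀ (G : Type u) [Group G], Prop} {W : ∀ (G : Type u) [Group G], (G → ℤ) → Prop}

/-- classes of groups, families of weights and triples -/
theorem relT1 {p : ℕ} [Fact p.Prime] (hC : SecCl C) (hW : WFam p W) :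
    (∀ (G : Type u) [Group G] [Finite G], C G → ∀ (m : G → ℤ), W G m →
      (p : ℤ) * (Nat.card G : ℤ) ∣ nL p (⊤ : Subgroup G) m - wS p m) ↔
    (∀ (G : Type u) [Group G] [Finite G], C G → NoP p (⊤ : Subgroup G) → ∀ (m : G → ℤ),
      W G m → (p : ℤ) * (ordProj[p] (Nat.card G) : ℕ) ∣ bT p (⊤ : Subgroup G) (S1 p m)) :=
  relS hC hW (TW_S1 p)

end

end Pool.Agent.Lib.P0c8ca5.Rc
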