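import Mathlib
import Pool.Agent.Lib.P0c8ca5Rc.T1
import Pool.Agent.Lib.P0c8ca5Rc.FunR
import Pool.Agent.Lib.P0c8ca5Rc.GcH
import Pool.Agent.Lib.P0c8ca5Rc.CntH

/-! # Cnt1: classes of triples, and rational classes for the genus -/

namespace Pool.Agent.Lib.P0c8ca5.Rc

open MonoidAlgebra Gs Bx By Tg

universe u v

section
variable {G : Type u} [Group G]

/-- triples `(x, y, z)` with `z` of order `p` and `[x, y] z` conjugate to `c` -/
def T1P (p : ℕ) (c : G) (t : Fin 3 → G) : Prop :=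
  orderOf (t 2) = p ∧ IsConj c (t 0 * t 1 * (t 0)⁻¹ * (t 1)⁻¹ * t 2) ∧ Gn p t

theorem T1P_cj {p : ℕ} {c : G} (g : G) (t : Fin 3 → G) (H : T1P p c t) :
    T1P p c (fun i => g * t i * g⁻¹) := by
  refine ⟨(ord_cj g _).trans H.1, ?_, Gn_cj g H.2.2⟩
  have e : g * t 0 * g⁻¹ * (g * t 1 * g⁻¹) * (g * t 0 * g⁻¹)⁻¹ * (g * t 1 * g⁻¹)⁻¹ * (g * t 2 * g⁻¹)
      = g * (t 0 * t 1 * (t 0)⁻¹ * (t 1)⁻¹ * t 2) * g⁻¹ := by group
  change IsConj c (g * t 0 * g⁻¹ * (g * t 1 * g⁻¹) * (g * t 0 * g⁻¹)⁻¹ * (g * t 1 * g⁻¹)⁻¹ *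
    (g * t 2 * g⁻¹))
  rw [e]
  exact H.2.1.trans (isConj_iff.2 ⟨g, rfl⟩)

open Classical in
theorem sort_ff {ι : Type*} [Finite ι] [Finite G] (P : ι → Prop) (ψ : ι → G) (f : G → ℤ) :
    (∑ᶠ y, if P y then f (ψ y) else 0) =
      ∑ᶠ x : G, f x * (Nat.card {y : ι // P y ∧ ψ y = x} : ℤ) := by
  have : Fintype G := Fintype.ofFinite G
  have : Fintype ι := Fintype.ofFinite ι
  rw [finsum_eq_sum_of_fintype, finsum_eq_sum_of_fintype]
  exact RatTAux.sort_sum P ψ f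

open Classical in
theorem sort_cl {ι : Type*} [Finite ι] [Finite G] (P : ι → Prop) (ψ : ι → G) (c : G) :
    (∑ᶠ x : G, if IsConj c x then (Nat.card {y : ι // P y ∧ ψ y = x} : ℤ) else 0) =
      (Nat.card {y : ι // P y ∧ IsConj c (ψ y)} : ℤ) := by
  have : Fintype ι := Fintype.ofFinite ι
  have h := sort_ff P ψ (fun x : G => if IsConj c x then (1 : ℤ) else 0)
  have e1 : ∀ x : G, (if IsConj c x then (1 : ℤ) else 0) * (Nat.card {y : ι // P y ∧ ψ y = x} : ℤ)
      = if IsConj c x then (Nat.card {y : ι // P y ∧ ψ y = x} : ℤ) else 0 := by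
    intro x
    by_cases hx : IsConj c x
    · rw [if_pos hx, if_pos hx, one_mul]
    · rw [if_neg hx, if_neg hx, zero_mul]
  rw [finsum_congr e1] at h
  rw [← h, RatTAux.card_sum, finsum_eq_sum_of_fintype]
  refine Finset.sum_congr rfl fun y _ => ?_
  by_cases h1 : P y
  · by_cases h2 : IsConj c (ψ y)
    · rw [if_pos h1, if_pos h2, if_pos ⟨h1, h2⟩]
    · rw [if_pos h1, if_neg h2, if_neg (fun h3 => h2 h3.2)]
  · rw [if_neg h1, if_neg (fun h3 => h1 h3.1)]

variable [Finite G]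

theorem bT_S1 (p : ℕ) (m : G → ℤ) :
    bT p (⊤ : Subgroup G) (S1 p m) = ∑ᶠ x : G, m x⁻¹ * e1 p x := by
  classical
  have h := sort_ff (fun t : Fin 3 → G => (t 2 ^ p = 1 ∧ t 2 ≠ 1) ∧
    Opr p (⊤ : Subgroup G) ≤ gT t) (fun t => cmt (t 0) (t 1) * t 2) (fun x => m x⁻¹)
  have e2 : ∀ x : G, m x⁻¹ * (Nat.card {t : Fin 3 → G // ((t 2 ^ p = 1 ∧ t 2 ≠ 1) ∧
      Opr p (⊤ : Subgroup G) ≤ gT t) ∧ cmt (t 0) (t 1) * t 2 = x} : ℤ) = m x⁻¹ * e1 p x := by
    intro x
    unfold e1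
    have e3 : Nat.card {t : Fin 3 → G // ((t 2 ^ p = 1 ∧ t 2 ≠ 1) ∧
        Opr p (⊤ : Subgroup G) ≤ gT t) ∧ cmt (t 0) (t 1) * t 2 = x} =
        Nat.card {t : Fin 3 → G // (t 2 ^ p = 1 ∧ t 2 ≠ 1) ∧ cmt (t 0) (t 1) * t 2 = x ∧
          Opr p (⊤ : Subgroup G) ≤ gT t} :=
      Nat.card_congr (Equiv.subtypeEquivRight fun t => by tauto)
    rw [e3]
  rw [finsum_congr e2] at h
  rw [← h]
  unfold bT
  refine finsum_congr fun t => ?_
  by_cases h1 : Opr p (⊤ : Subgroup G) ≤ gT t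
  · rw [if_pos ⟨le_top, h1⟩]
    unfold S1 W1 Gs.om Gs.dl
    by_cases h2 : t 2 = 1
    · have h3 : t 2 ^ p = 1 := by rw [h2, one_pow]
      rw [if_pos h3, if_pos h2, sub_self, if_neg (fun h4 => h4.1.2 h2)]
    · by_cases h3 : t 2 ^ p = 1
      · rw [if_pos h3, if_neg h2, if_pos ⟨⟨h3, h2⟩, h1⟩, one_mul, zero_mul, sub_zero]
      · rw [if_neg h3, if_neg h2, if_neg (fun h4 => h3 h4.1.1), sub_self]
  · rw [if_neg (fun h2 => h1 h2.2), if_neg (fun h2 => h1 h2.2)]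

open Classical in
theorem card_T1 {p : ℕ} [Fact p.Prime] (c : G) :
    (∑ᶠ x : G, if IsConj c x then e1 p x else 0) = (Nat.card {t : Fin 3 → G // T1P p c t} : ℤ) := by
  have h := sort_cl (fun t : Fin 3 → G => (t 2 ^ p = 1 ∧ t 2 ≠ 1) ∧
    Opr p (⊤ : Subgroup G) ≤ gT t) (fun t => cmt (t 0) (t 1) * t 2) c
  have e2 : ∀ x : G, (if IsConj c x then (Nat.card {t : Fin 3 → G // ((t 2 ^ p = 1 ∧ t 2 ≠ 1) ∧
      Opr p (⊤ : Subgroup G) ≤ gT t) ∧ cmt (t 0) (t 1) * t 2 = x} : ℤ) else 0) =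
      if IsConj c x then e1 p x else 0 := by
    intro x
    unfold e1
    have e3 : Nat.card {t : Fin 3 → G // ((t 2 ^ p = 1 ∧ t 2 ≠ 1) ∧
        Opr p (⊤ : Subgroup G) ≤ gT t) ∧ cmt (t 0) (t 1) * t 2 = x} =
        Nat.card {t : Fin 3 → G // (t 2 ^ p = 1 ∧ t 2 ≠ 1) ∧ cmt (t 0) (t 1) * t 2 = x ∧
          Opr p (⊤ : Subgroup G) ≤ gT t} :=
      Nat.card_congr (Equiv.subtypeEquivRight fun t => by tauto)
    rw [e3]
  rw [finsum_congr e2] at h
  rw [h]
  congr 1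
  refine Nat.card_congr (Equiv.subtypeEquivRight fun t => ?_)
  have hp : p.Prime := Fact.out
  have h1 : (t 2 ^ p = 1 ∧ t 2 ≠ 1) ↔ orderOf (t 2) = p := by
    constructor
    · rintro ⟨h1, h2⟩
      exact orderOf_eq_prime h1 h2
    · intro h1
      refine ⟨by rw [← h1]; exact pow_orderOf_eq_one _, ?_⟩
      intro h2
      rw [h2, orderOf_one] at h1
      exact hp.ne_one h1.symm
  unfold T1P Gn
  rw [h1, ClsAux.opr_le]
  unfold gT cmt
  tauto

/-- genus `h` against genus one, as a sum over the elements -/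
theorem bW_sub (p h : ℕ) (m : G → ℤ) :
    bW p (⊤ : Subgroup G) (wG h m) - bQ p (⊤ : Subgroup G) m =
      ∑ᶠ x : G, m x⁻¹ * (eS p h x - eC p x) := by
  classical
  have h1 := sort_ff (fun t : Fin h ⊕ Fin h → G => Opr p (⊤ : Subgroup G) ≤ gT t) (fun t => prc t)
    (fun x => m x⁻¹)
  have h2 := sort_ff (fun t : G × G => Opr p (⊤ : Subgroup G) ≤ gn t) (fun t => cmt t.1 t.2)
    (fun x => m x⁻¹)
  have e1 : ∀ x : G, m x⁻¹ * (Nat.card {t : Fin h ⊕ Fin h → G //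
      Opr p (⊤ : Subgroup G) ≤ gT t ∧ prc t = x} : ℤ) = m x⁻¹ * eS p h x := by
    intro x
    unfold eS
    have e3 : Nat.card {t : Fin h ⊕ Fin h → G // Opr p (⊤ : Subgroup G) ≤ gT t ∧ prc t = x} =
        Nat.card {t : Fin h ⊕ Fin h → G // prc t = x ∧ Opr p (⊤ : Subgroup G) ≤ gT t} :=
      Nat.card_congr (Equiv.subtypeEquivRight fun t => by tauto)
    rw [e3]
  have e2 : ∀ x : G, m x⁻¹ * (Nat.card {t : G × G //
      Opr p (⊤ : Subgroup G) ≤ gn t ∧ cmt t.1 t.2 = x} : ℤ) = m x⁻¹ * eC p x := by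
    intro x
    unfold eC
    have e3 : Nat.card {t : G × G // Opr p (⊤ : Subgroup G) ≤ gn t ∧ cmt t.1 t.2 = x} =
        Nat.card {t : G × G // cmt t.1 t.2 = x ∧
          Opr p (⊤ : Subgroup G) ≤ Subgroup.closure ({t.1, t.2} : Set G)} := by
      refine Nat.card_congr (Equiv.subtypeEquivRight fun t => ?_)
      unfold gn
      tauto
    rw [e3]
  rw [finsum_congr e1] at h1
  rw [finsum_congr e2] at h2
  have e3 : bW p (⊤ : Subgroup G) (wG h m) = ∑ᶠ x : G, m x⁻¹ * eS p h x := by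
    rw [← h1]
    unfold bW
    refine finsum_congr fun t => ?_
    have e : gt t = gT t := rfl
    rw [e]
    by_cases h3 : Opr p (⊤ : Subgroup G) ≤ gT t
    · rw [if_pos ⟨le_top, h3⟩, if_pos h3]
      rfl
    · rw [if_neg (fun h4 => h3 h4.2), if_neg h3]
  have e4 : bQ p (⊤ : Subgroup G) m = ∑ᶠ x : G, m x⁻¹ * eC p x := by
    rw [← h2]
    unfold bQ
    refine finsum_congr fun t => ?_
    by_cases h3 : Opr p (⊤ : Subgroup G) ≤ gn t
    · rw [if_pos ⟨le_top, h3⟩, if_pos h3]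
    · rw [if_neg (fun h4 => h3 h4.2), if_neg h3]
  rw [e3, e4, ← finsum_sub_distrib (Set.toFinite _) (Set.toFinite _)]
  refine finsum_congr fun x => ?_
  ring

open Classical in
theorem card_sub (p h : ℕ) (c : G) :
    (∑ᶠ x : G, if IsConj c x then (eS p h x - eC p x) else 0) =
      (Nat.card {t : Fin (h + h) → G // SP p h c t} : ℤ) -
        (Nat.card {t : Fin (1 + 1) → G // SP p 1 c t} : ℤ) := by
  have h1 := sort_cl (fun t : Fin h ⊕ Fin h → G => Opr p (⊤ : Subgroup G) ≤ gT t)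
    (fun t => prc t) c
  have h2 := sort_cl (fun t : G × G => Opr p (⊤ : Subgroup G) ≤ gn t) (fun t => cmt t.1 t.2) c
  have e1 : ∀ x : G, (if IsConj c x then (Nat.card {t : Fin h ⊕ Fin h → G //
      Opr p (⊤ : Subgroup G) ≤ gT t ∧ prc t = x} : ℤ) else 0) =
      if IsConj c x then eS p h x else 0 := by
    intro x
    unfold eS
    have e3 : Nat.card {t : Fin h ⊕ Fin h → G // Opr p (⊤ : Subgroup G) ≤ gT t ∧ prc t = x} =
        Nat.card {t : Fin h ⊕ Fin h → G // prc t = x ∧ Opr p (⊤ : Subgroup G) ≤ gT t} :=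
      Nat.card_congr (Equiv.subtypeEquivRight fun t => by tauto)
    rw [e3]
  have e2 : ∀ x : G, (if IsConj c x then (Nat.card {t : G × G //
      Opr p (⊤ : Subgroup G) ≤ gn t ∧ cmt t.1 t.2 = x} : ℤ) else 0) =
      if IsConj c x then eC p x else 0 := by
    intro x
    unfold eC
    have e3 : Nat.card {t : G × G // Opr p (⊤ : Subgroup G) ≤ gn t ∧ cmt t.1 t.2 = x} =
        Nat.card {t : G × G // cmt t.1 t.2 = x ∧
          Opr p (⊤ : Subgroup G) ≤ Subgroup.closure ({t.1, t.2} : Set G)} := by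
      refine Nat.card_congr (Equiv.subtypeEquivRight fun t => ?_)
      unfold gn
      tauto
    rw [e3]
  rw [finsum_congr e1] at h1
  rw [finsum_congr e2] at h2
  have e3 : Nat.card {t : Fin h ⊕ Fin h → G // Opr p (⊤ : Subgroup G) ≤ gT t ∧
      IsConj c (prc t)} = Nat.card {t : Fin (h + h) → G // SP p h c t} := by
    rw [← card_SP]
    refine Nat.card_congr (Equiv.subtypeEquivRight fun t => ?_)
    rw [ClsAux.opr_le]
    unfold gT
    tauto
  have e4 : Nat.card {t : G × G // Opr p (⊤ : Subgroup G) ≤ gn t ∧ IsConj c (cmt t.1 t.2)} =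
      Nat.card {t : Fin (1 + 1) → G // SP p 1 c t} := by
    rw [← card_SP1]
    refine Nat.card_congr (Equiv.subtypeEquivRight fun t => ?_)
    rw [ClsAux.opr_le]
    unfold gn
    tauto
  rw [← e3, ← e4, ← h1, ← h2, ← finsum_sub_distrib (Set.toFinite _) (Set.toFinite _)]
  refine finsum_congr fun x => ?_
  by_cases hx : IsConj c x
  · rw [if_pos hx, if_pos hx, if_pos hx]
  · rw [if_neg hx, if_neg hx, if_neg hx, sub_zero]

end

section
variable {C : ∀ (G : Type u) [Group G], Prop} {p : ℕ} [Fact p.Prime]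

theorem wc_1 (hC : SecCl C) {k : Type v} [Field k] [IsAlgClosed k] [CharP k p] :
    WC C p k ↔ DvS C p (fun G _ => T1P (G := G) p) := by
  classical
  unfold WC
  rw [gap_iff_nL, relT1 hC (WFam_all p)]
  unfold DvS
  constructor
  · intro h G _ _ hCG hG c hc
    refine (cls_iff hG _ (fun g t h => T1P_cj g t h) (fun t h => h.2.2)).1 ?_
    have h1 := (fun_all (p := p) (G := G) (e := e1 p)
      ((p : ℤ) * (ordProj[p] (Nat.card G) : ℕ))).1 (fun m hm => by
        rw [← bT_S1]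
        exact h G hCG hG m ⟨inferInstance, hm⟩) c hc
    rw [card_T1] at h1
    exact_mod_cast h1
  · intro h G _ _ hCG hG m hm
    rw [bT_S1]
    refine (fun_all (p := p) (G := G) (e := e1 p)
      ((p : ℤ) * (ordProj[p] (Nat.card G) : ℕ))).2 (fun c hc => ?_) m hm.2
    rw [card_T1]
    have h1 := (cls_iff hG _ (fun g t h => T1P_cj (p := p) (c := c) g t h)
      (fun t h => h.2.2)).2 (h G hCG hG c hc)
    exact_mod_cast h1

theorem wr_1 (hC : SecCl C) (hW : ∀ (G : Type u) [Group G], C G → C (Wr.WG p G)) {k : Type v}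
    [Field k] [IsAlgClosed k] [CharP k p] : WC C p k ↔ DvR C p (fun G _ => T1P (G := G) p) := by
  classical
  constructor
  · intro h G _ _ hCG hG c hc _
    exact (wc_1 hC).1 h G hCG hG c hc
  · intro h
    refine gap_of_weights hW ?_
    refine (relT1 hC (WFam_RI p)).2 (fun G _ _ hCG hG m hm => ?_)
    rw [bT_S1]
    refine (fun_rat (p := p) (G := G) (e := e1 p) (fun g x => e1_conj g x)
      (fun j hj x => e1_pow hj x) (fun x => e1_dvd hG x)).2 (fun c hc hr => ?_) m hm.2.1 hm.2.2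
    rw [card_T1]
    have h1 := (cls_iff hG _ (fun g t h => T1P_cj (p := p) (c := c) g t h)
      (fun t h => h.2.2)).2 (h G hCG hG c hc hr)
    exact_mod_cast h1

/-- genus one and genus `j + 1`, rational classes -/
theorem wr_H (hC : SecCl C) (hW : ∀ (G : Type u) [Group G], C G → C (Wr.WG p G)) {j : ℕ}
    (hj0 : j ≠ 0) (hj : p - 1 ∣ 2 * j) {k : Type v} [Field k] [IsAlgClosed k] [CharP k p] :
    WC C p k ↔ ∀ (G : Type u) [Group G] [Finite G], C G → NoP p (⊤ : Subgroup G) → ∀ c : G,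
      Preg p c → RatC p c → Nat.card (Quot (cjS (SP (G := G) p (j + 1) c))) ≡
        Nat.card (Quot (cjS (SP (G := G) p 1 c))) [MOD p] := by
  classical
  constructor
  · intro h G _ _ hCG hG c hc _
    exact (wc_H hC hj0 hj).1 h G hCG hG c hc
  · intro h
    refine gap_of_weights hW ?_
    refine (relW2 hC (WFam_RI p)).2 (fun G _ _ hCG hG m hm => ?_)
    have h2 : (p : ℤ) * (ordProj[p] (Nat.card G) : ℕ) ∣
        bW p (⊤ : Subgroup G) (wG (j + 1) m) - bQ p (⊤ : Subgroup G) m := by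
      rw [bW_sub]
      refine (fun_rat (p := p) (G := G) (e := fun x => eS p (j + 1) x - eC p x)
        (fun g x => by rw [eS_conj, eC_conj]) (fun i hi x => by rw [eS_pow hi, eC_pow hi])
        (fun x => dvd_sub (eS_dvd hG (j + 1) x) (eC_dvd hG x))).2 (fun c hc hr => ?_)
        m hm.2.1 hm.2.2
      rw [card_sub]
      have h3 := (cls_congr hG _ _ (fun g t h => SP_cj (p := p) (h := j + 1) (c := c) g t h)
        (fun t h => h.2) (fun g t h => SP_cj (p := p) (h := 1) (c := c) g t h)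
        (fun t h => h.2)).2 (h G hCG hG c hc hr)
      have h4 := (Nat.modEq_iff_dvd).1 h3.symm
      exact_mod_cast h4
    have h3 := dvd_add (bQ_genus' hj0 hj hG hm.2.1) h2
    rwa [sub_add_cancel] at h3

end

end Pool.Agent.Lib.P0c8ca5.Rc
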