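import Mathlib
import Pool.Agent.Lib.P0c8ca5Fo.Key
import Pool.Agent.Lib.P0c8ca5V.Orb
import Pool.Agent.Lib.P0c8ca5Rc.Cnt

/-! # CntF: only commutators `u d` with `u` in the commutator subgroup of the centralizer -/

namespace Pool.Agent.Lib.P0c8ca5.Rc

open MonoidAlgebra Gs Bx By

universe u v

section
variable {G : Type u} [Group G]

/-- `z = u d`, `u` of order `q` commuting with `d`, `d` conjugate to `c`, `u` in the commutator
subgroup of the centralizer of `z` -/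
def TyF (q : ℕ) (c z : G) : Prop :=
  ∃ u d : G, orderOf u = q ∧ Commute u d ∧ IsConj c d ∧ z = u * d ∧
    u ∈ ⁅Subgroup.centralizer ({z} : Set G), Subgroup.centralizer ({z} : Set G)⁆

/-- pairs with commutator of this type -/
def CPF (p : ℕ) (c : G) (t : Fin 2 → G) : Prop :=
  TyF p c (t 0 * t 1 * (t 0)⁻¹ * (t 1)⁻¹) ∧ Gn p t

theorem map_cent (g z : G) :
    (Subgroup.centralizer ({z} : Set G)).map (MulAut.conj g).toMonoidHom =
      Subgroup.centralizer ({g * z * g⁻¹} : Set G) := by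
  ext x
  rw [Subgroup.mem_centralizer_singleton_iff]
  constructor
  · rintro ⟨y, hy, rfl⟩
    have h1 := Subgroup.mem_centralizer_singleton_iff.1 hy
    change g * y * g⁻¹ * (g * z * g⁻¹) = g * z * g⁻¹ * (g * y * g⁻¹)
    have e1 : g * y * g⁻¹ * (g * z * g⁻¹) = g * (y * z) * g⁻¹ := by group
    have e2 : g * z * g⁻¹ * (g * y * g⁻¹) = g * (z * y) * g⁻¹ := by group
    rw [e1, e2, h1]
  · intro hx
    refine ⟨g⁻¹ * x * g, ?_, ?_⟩
    · refine Subgroup.mem_centralizer_singleton_iff.2 ?_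
      have e1 : g⁻¹ * x * g * z = g⁻¹ * (x * (g * z * g⁻¹)) * g := by group
      have e2 : z * (g⁻¹ * x * g) = g⁻¹ * (g * z * g⁻¹ * x) * g := by group
      rw [e1, e2, hx]
    · change g * (g⁻¹ * x * g) * g⁻¹ = x
      group

theorem TyF_cj {q : ℕ} {c z : G} (g : G) (h : TyF q c z) : TyF q c (g * z * g⁻¹) := by
  obtain ⟨u, d, h1, h2, h3, h4, h5⟩ := h
  refine ⟨g * u * g⁻¹, g * d * g⁻¹, (ord_cj g u).trans h1, ?_,
    h3.trans (isConj_iff.2 ⟨g, rfl⟩), by rw [h4]; group, ?_⟩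
  · have e1 : g * u * g⁻¹ * (g * d * g⁻¹) = g * (u * d) * g⁻¹ := by group
    have e2 : g * d * g⁻¹ * (g * u * g⁻¹) = g * (d * u) * g⁻¹ := by group
    change g * u * g⁻¹ * (g * d * g⁻¹) = g * d * g⁻¹ * (g * u * g⁻¹)
    rw [e1, e2, h2.eq]
  · rw [← map_cent, ← Subgroup.map_commutator]
    exact ⟨u, h5, rfl⟩

theorem CPF_cj {p : ℕ} {c : G} (g : G) (t : Fin 2 → G) (h : CPF p c t) :
    CPF p c (fun i => g * t i * g⁻¹) := by
  refine ⟨?_, Gn_cj g h.2⟩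
  have e : g * t 0 * g⁻¹ * (g * t 1 * g⁻¹) * (g * t 0 * g⁻¹)⁻¹ * (g * t 1 * g⁻¹)⁻¹
      = g * (t 0 * t 1 * (t 0)⁻¹ * (t 1)⁻¹) * g⁻¹ := by group
  change TyF p c (g * t 0 * g⁻¹ * (g * t 1 * g⁻¹) * (g * t 0 * g⁻¹)⁻¹ * (g * t 1 * g⁻¹)⁻¹)
  rw [e]
  exact TyF_cj g h.1

theorem CP_of_CPF {p : ℕ} {c : G} {t : Fin 2 → G} (h : CPF p c t) : CP p c t := by
  obtain ⟨⟨u, d, h1, h2, h3, h4, _⟩, h6⟩ := h
  exact ⟨⟨u, d, h1, h2, h3, h4⟩, h6⟩

theorem card_stab_conj [Finite G] (w : G) :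
    Nat.card (MulAction.stabilizer (ConjAct G) w) =
      Nat.card (Subgroup.centralizer ({w} : Set G)) := by
  refine Nat.card_congr ⟨fun x => ⟨ConjAct.ofConjAct x.1, ?_⟩, fun x => ⟨ConjAct.toConjAct x.1, ?_⟩,
    fun x => rfl, fun x => rfl⟩
  · refine Subgroup.mem_centralizer_singleton_iff.2 ?_
    have h := x.2
    rw [MulAction.mem_stabilizer_iff, ConjAct.smul_def] at h
    exact mul_inv_eq_iff_eq_mul.1 h
  · rw [MulAction.mem_stabilizer_iff, ConjAct.smul_def]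
    exact mul_inv_eq_iff_eq_mul.2 (Subgroup.mem_centralizer_singleton_iff.1 x.2)

/-- the number of the pairs with commutator `w` -/
noncomputable def fib (p : ℕ) (w : G) : ℤ :=
  (Nat.card {t : Fin 2 → G // Gn p t ∧ t 0 * t 1 * (t 0)⁻¹ * (t 1)⁻¹ = w} : ℤ)

theorem fib_cj (p : ℕ) (g w : G) : fib p (g * w * g⁻¹) = fib p w := by
  unfold fib
  congr 1
  refine Nat.card_congr ⟨fun t => ⟨fun i => g⁻¹ * t.1 i * g, ?_⟩,
    fun t => ⟨fun i => g * t.1 i * g⁻¹, ?_⟩, fun t => ?_, fun t => ?_⟩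
  · obtain ⟨h1, h2⟩ := t.2
    have h3 := Gn_cj g⁻¹ h1
    refine ⟨?_, ?_⟩
    · have e : (fun i => g⁻¹ * t.1 i * g) = fun i => g⁻¹ * t.1 i * g⁻¹⁻¹ := by
        funext i
        rw [inv_inv]
      rw [e]
      exact h3
    · change g⁻¹ * t.1 0 * g * (g⁻¹ * t.1 1 * g) * (g⁻¹ * t.1 0 * g)⁻¹ * (g⁻¹ * t.1 1 * g)⁻¹ = w
      have e : g⁻¹ * t.1 0 * g * (g⁻¹ * t.1 1 * g) * (g⁻¹ * t.1 0 * g)⁻¹ * (g⁻¹ * t.1 1 * g)⁻¹ =
        g⁻¹ * (t.1 0 * t.1 1 * (t.1 0)⁻¹ * (t.1 1)⁻¹) * g := by group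
      rw [e, h2]
      group
  · obtain ⟨h1, h2⟩ := t.2
    refine ⟨Gn_cj g h1, ?_⟩
    change g * t.1 0 * g⁻¹ * (g * t.1 1 * g⁻¹) * (g * t.1 0 * g⁻¹)⁻¹ * (g * t.1 1 * g⁻¹)⁻¹ =
      g * w * g⁻¹
    have e : g * t.1 0 * g⁻¹ * (g * t.1 1 * g⁻¹) * (g * t.1 0 * g⁻¹)⁻¹ * (g * t.1 1 * g⁻¹)⁻¹ =
      g * (t.1 0 * t.1 1 * (t.1 0)⁻¹ * (t.1 1)⁻¹) * g⁻¹ := by group
    rw [e, h2]
  · refine Subtype.ext (funext fun i => ?_)
    change g * (g⁻¹ * t.1 i * g) * g⁻¹ = t.1 i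
    group
  · refine Subtype.ext (funext fun i => ?_)
    change g⁻¹ * (g * t.1 i * g⁻¹) * g = t.1 i
    group

theorem fib_dvd [Finite G] {p : ℕ} [Fact p.Prime] (hO : NoP p (⊤ : Subgroup G)) {c w : G}
    (hc : Preg p c) (h1 : Ty p c w) (h2 : ¬ TyF p c w) :
    ((p * ordProj[p] (Nat.card (Subgroup.centralizer ({w} : Set G))) : ℕ) : ℤ) ∣ fib p w := by
  obtain ⟨u, d, hu, hud, hcd, rfl⟩ := h1
  have hn : u ∉ ⁅Subgroup.centralizer ({u * d} : Set G),
      Subgroup.centralizer ({u * d} : Set G)⁆ :=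
    fun h3 => h2 ⟨u, d, hu, hud, hcd, rfl, h3⟩
  have key := Fo.focal hO hud hu (ClsBAux.preg_isConj hcd.symm hc) hn
  have e : Nat.card {t : G × G // cmt t.1 t.2 = u * d ∧
      ∀ g : G, Preg p g → g ∈ Subgroup.closure ({t.1, t.2} : Set G)} =
      Nat.card {t : Fin 2 → G // Gn p t ∧ t 0 * t 1 * (t 0)⁻¹ * (t 1)⁻¹ = u * d} := by
    refine (Nat.card_congr ((prE G).subtypeEquiv fun t => ?_)).symm
    unfold Gn
    rw [clo_pr]
    exact ⟨fun h => ⟨h.2, h.1⟩, fun h => ⟨h.2, h.1⟩⟩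
  rw [e] at key
  unfold fib
  exact_mod_cast key

theorem CP_sub [Finite G] {p : ℕ} [Fact p.Prime] (hO : NoP p (⊤ : Subgroup G)) {c : G}
    (hc : Preg p c) :
    p * ordProj[p] (Nat.card G) ∣ Nat.card {t : Fin 2 → G // CP p c t} ↔
      p * ordProj[p] (Nat.card G) ∣ Nat.card {t : Fin 2 → G // CPF p c t} := by
  classical
  have : Fintype G := Fintype.ofFinite G
  have h1 : Nat.card {t : Fin 2 → G // CP p c t} = Nat.card {t : Fin 2 → G // CPF p c t} +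
      Nat.card {t : Fin 2 → G // CP p c t ∧ ¬ CPF p c t} := by
    rw [← Nat.card_sum]
    refine Nat.card_congr ?_
    refine ⟨fun t => if h : CPF p c t.1 then Sum.inl ⟨t.1, h⟩ else Sum.inr ⟨t.1, t.2, h⟩,
      fun t => Sum.elim (fun t => ⟨t.1, CP_of_CPF t.2⟩) (fun t => ⟨t.1, t.2.1⟩) t,
      fun t => ?_, fun t => ?_⟩
    · by_cases h : CPF p c t.1
      · simp only [dif_pos h, Sum.elim_inl]
      · simp only [dif_neg h, Sum.elim_inr]
    · rcases t with t | t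
      · simp only [Sum.elim_inl, dif_pos t.2]
      · simp only [Sum.elim_inr, dif_neg t.2.2]
  have h2 : p * ordProj[p] (Nat.card G) ∣
      Nat.card {t : Fin 2 → G // CP p c t ∧ ¬ CPF p c t} := by
    have e1 : (Nat.card {t : Fin 2 → G // CP p c t ∧ ¬ CPF p c t} : ℤ) =
        ∑ w : G, if Ty p c w ∧ ¬ TyF p c w then fib p w else 0 := by
      have e2 := RatTAux.sort_sum (fun t : Fin 2 → G => Gn p t)
        (fun t => t 0 * t 1 * (t 0)⁻¹ * (t 1)⁻¹)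
        (fun w => if Ty p c w ∧ ¬ TyF p c w then 1 else 0)
      have e3 : ∀ w : G, (if Ty p c w ∧ ¬ TyF p c w then (1 : ℤ) else 0) *
          (Nat.card {t : Fin 2 → G // Gn p t ∧ t 0 * t 1 * (t 0)⁻¹ * (t 1)⁻¹ = w} : ℤ) =
          if Ty p c w ∧ ¬ TyF p c w then fib p w else 0 := by
        intro w
        unfold fib
        split_ifs
        · rw [one_mul]
        · rw [zero_mul]
      rw [Finset.sum_congr rfl (fun w _ => e3 w)] at e2
      rw [← e2, RatTAux.card_sum]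
      refine Finset.sum_congr rfl fun t _ => ?_
      by_cases a1 : Gn p t
      · rw [if_pos a1]
        by_cases a2 : Ty p c (t 0 * t 1 * (t 0)⁻¹ * (t 1)⁻¹) ∧
            ¬ TyF p c (t 0 * t 1 * (t 0)⁻¹ * (t 1)⁻¹)
        · rw [if_pos a2, if_pos ⟨⟨a2.1, a1⟩, fun h => a2.2 h.1⟩]
        · rw [if_neg a2, if_neg (fun h => a2 ⟨h.1.1, fun h3 => h.2 ⟨h3, a1⟩⟩)]
      · rw [if_neg a1, if_neg (fun h => a1 h.1.2)]
    have e4 := orb_dvd_p (p := p) (T := ConjAct G) (X := G)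
      (fun w => if Ty p c w ∧ ¬ TyF p c w then fib p w else 0) (fun g w => ?_) (p : ℤ) (fun w => ?_)
    · rw [← e1] at e4
      have e5 : Nat.card (ConjAct G) = Nat.card G := rfl
      rw [e5] at e4
      exact_mod_cast e4
    · have e5 : ∀ x y : G, Ty p c y ∧ ¬ TyF p c y → Ty p c (x * y * x⁻¹) ∧
          ¬ TyF p c (x * y * x⁻¹) := by
        rintro x y ⟨b1, b2⟩
        refine ⟨Ty_cj x b1, fun b3 => b2 ?_⟩
        have b4 := TyF_cj x⁻¹ b3
        have e6 : x⁻¹ * (x * y * x⁻¹) * x⁻¹⁻¹ = y := by group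
        rwa [e6] at b4
      rw [ConjAct.smul_def]
      by_cases a1 : Ty p c w ∧ ¬ TyF p c w
      · rw [if_pos a1, if_pos (e5 _ _ a1), fib_cj]
      · rw [if_neg a1, if_neg (fun h => a1 ?_)]
        have h3 := e5 (ConjAct.ofConjAct g)⁻¹ _ h
        have e6 : (ConjAct.ofConjAct g)⁻¹ * (ConjAct.ofConjAct g * w * (ConjAct.ofConjAct g)⁻¹) *
            (ConjAct.ofConjAct g)⁻¹⁻¹ = w := by group
        rwa [e6] at h3
    · by_cases a1 : Ty p c w ∧ ¬ TyF p c w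
      · rw [if_pos a1, card_stab_conj]
        exact_mod_cast fib_dvd hO hc a1.1 a1.2
      · rw [if_neg a1]
        exact dvd_zero _
  rw [h1]
  exact (Nat.dvd_add_iff_left h2).symm

end

section
variable {C : ∀ (G : Type u) [Group G], Prop}

theorem wc_CPF (hC : SecCl C) {p : ℕ} [Fact p.Prime] {k : Type v} [Field k] [IsAlgClosed k]
    [CharP k p] : WC C p k ↔ DvS C p (fun G _ => CPF (G := G) p) := by
  rw [wc_CP hC]
  unfold DvS
  refine forall_congr' fun G => forall_congr' fun _ => forall_congr' fun _ =>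
    forall_congr' fun _ => forall_congr' fun hG => forall_congr' fun c => forall_congr' fun hc => ?_
  rw [← cls_iff hG _ (fun g t h => CP_cj g t h) (fun t h => h.2),
    ← cls_iff hG _ (fun g t h => CPF_cj g t h) (fun t h => h.2)]
  exact CP_sub hG hc

theorem wr_CPF (hC : SecCl C) {p : ℕ} [Fact p.Prime]
    (hW : ∀ (G : Type u) [Group G], C G → C (Wr.WG p G)) {k : Type v} [Field k] [IsAlgClosed k]
    [CharP k p] : WC C p k ↔ DvR C p (fun G _ => CPF (G := G) p) := by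
  rw [wr_CP hC hW]
  unfold DvR
  refine forall_congr' fun G => forall_congr' fun _ => forall_congr' fun _ =>
    forall_congr' fun _ => forall_congr' fun hG => forall_congr' fun c => forall_congr' fun hc =>
    forall_congr' fun _ => ?_
  rw [← cls_iff hG _ (fun g t h => CP_cj g t h) (fun t h => h.2),
    ← cls_iff hG _ (fun g t h => CPF_cj g t h) (fun t h => h.2)]
  exact CP_sub hG hc

end

end Pool.Agent.Lib.P0c8ca5.Rc
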