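import Mathlib
import Pool.Agent.Lib.P0c8ca5By.FinK
import Pool.Agent.Lib.P0c8ca5Rc.Cnt

/-! # CntM: regular maps of type `{4, 8 m}` -/

namespace Pool.Agent.Lib.P0c8ca5.Rc

open MonoidAlgebra Gs Bx By

universe u v

section
variable {G : Type u} [Group G]

/-- three involutions: the product of the first and the last has order 2, the product of the first
two has order 4, the product of the last two has type `(8, c)` -/
def MP (c : G) (t : Fin 3 → G) : Prop :=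
  (∀ i, orderOf (t i) = 2) ∧ orderOf (t 0 * t 2) = 2 ∧ orderOf (t 0 * t 1) = 4 ∧
    Ty 8 c (t 1 * t 2) ∧ Gn 2 t

theorem MP_iff (c : G) (t : Fin 3 → G) : MP c t ↔ M48' c t := by
  unfold MP M48' Ty Gn
  constructor
  · rintro ⟨h1, h2, h3, ⟨u, d, h4, h5, h6, h7⟩, h8⟩
    exact ⟨h1 0, h1 1, h1 2, h2, h3, ⟨u, d, h4, h6, h5, h7⟩, h8⟩
  · rintro ⟨h0, h1, h9, h2, h3, ⟨u, d, h4, h6, h5, h7⟩, h8⟩
    refine ⟨fun i => ?_, h2, h3, ⟨u, d, h4, h5, h6, h7⟩, h8⟩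
    fin_cases i
    · exact h0
    · exact h1
    · exact h9

theorem card_MP (c : G) :
    Nat.card {t : Fin 3 → G // MP c t} = Nat.card {y : G × G × G // M48 c y} := by
  rw [← card_M48']
  exact Nat.card_congr (Equiv.subtypeEquivRight fun t => MP_iff c t)

theorem MP_cj {c : G} (g : G) (t : Fin 3 → G) (h : MP c t) :
    MP c (fun i => g * t i * g⁻¹) := by
  have e : ∀ i j : Fin 3, g * t i * g⁻¹ * (g * t j * g⁻¹) = g * (t i * t j) * g⁻¹ := by
    intro i j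
    group
  refine ⟨fun i => (ord_cj g _).trans (h.1 i), ?_, ?_, ?_, Gn_cj g h.2.2.2.2⟩
  · change orderOf (g * t 0 * g⁻¹ * (g * t 2 * g⁻¹)) = 2
    rw [e, ord_cj]
    exact h.2.1
  · change orderOf (g * t 0 * g⁻¹ * (g * t 1 * g⁻¹)) = 4
    rw [e, ord_cj]
    exact h.2.2.1
  · change Ty 8 c (g * t 1 * g⁻¹ * (g * t 2 * g⁻¹))
    rw [e]
    exact Ty_cj g h.2.2.2.1

theorem real_of_RatC [Finite G] {c : G} (h : RatC 2 c) : IsConj c c⁻¹ := by
  have h1 := h (orderOf c - 1) ⟨1, by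
    have h2 : 0 < orderOf c := orderOf_pos c
    rw [pow_one]
    obtain ⟨n, hn⟩ : ∃ n, orderOf c = n + 1 := ⟨orderOf c - 1, by omega⟩
    rw [hn, Nat.add_sub_cancel]
    refine (Nat.modEq_iff_dvd.2 ⟨1 - (n : ℤ), ?_⟩)
    push_cast
    ring⟩
  have h3 : c ^ (orderOf c - 1) = c⁻¹ := by
    refine eq_inv_of_mul_eq_one_left ?_
    rw [← pow_succ, Nat.sub_add_cancel (orderOf_pos c)]
    exact pow_orderOf_eq_one c
  rwa [h3] at h1

theorem card_TP2' [Finite G] {c : G} :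
    Nat.card {t : Fin 2 → G // TP 2 2 4 8 c t} = Nat.card {y : G × G // S248 c y} := by
  refine Nat.card_congr ((prE G).subtypeEquiv fun t => ?_)
  unfold TP Gn Ty S248
  rw [clo_pr]
  change _ ↔ orderOf (t 0) = 2 ∧ orderOf (t 1) = 4 ∧
    (∃ u e : G, orderOf u = 8 ∧ IsConj c e ∧ Commute u e ∧ t 0 * t 1 = u * e) ∧
    ∀ w : G, Preg 2 w → w ∈ Subgroup.closure ({t 0, t 1} : Set G)
  constructor
  · rintro ⟨h1, h2, ⟨u, e, h3, h4, h5, h6⟩, h7⟩
    exact ⟨h1, h2, ⟨u, e, h3, h5, h4, h6⟩, h7⟩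
  · rintro ⟨h1, h2, ⟨u, e, h3, h5, h4, h6⟩, h7⟩
    exact ⟨h1, h2, ⟨u, e, h3, h4, h5, h6⟩, h7⟩

/-- pairs and regular maps -/
theorem dv_TM [Finite G] (hG : NoP 2 (⊤ : Subgroup G)) {c : G} (hc : Preg 2 c)
    (hr : IsConj c c⁻¹) :
    2 ∣ Nat.card (Quot (cjS (TP (G := G) 2 2 4 8 c))) ↔ 2 ∣ Nat.card (Quot (cjS (MP (G := G) c))) := by
  have : Fact (Nat.Prime 2) := ⟨Nat.prime_two⟩
  rw [← cls_iff hG _ (fun g t h => TP_cj g t h) (fun t h => h.2.2.2),
    ← cls_iff hG _ (fun g t h => MP_cj g t h) (fun t h => h.2.2.2.2), card_TP2', card_MP]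
  exact maps_iff_pairs hG hc hr

theorem dv_M_nonreal [Finite G] {c : G} (hc : Preg 2 c) (hr : ¬ IsConj c c⁻¹) :
    2 ∣ Nat.card (Quot (cjS (MP (G := G) c))) := by
  have h1 := maps_nonreal hc hr
  rw [← card_MP] at h1
  have h2 : IsEmpty {t : Fin 3 → G // MP c t} := by
    rcases Nat.card_eq_zero.1 h1 with h3 | h3
    · exact h3
    · exact absurd h3 (not_infinite_iff_finite.2 inferInstance)
  have h3 : IsEmpty (Quot (cjS (MP (G := G) c))) := by
    refine ⟨fun q => ?_⟩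
    obtain ⟨t, -⟩ := Quot.exists_rep q
    exact h2.false t
  rw [Nat.card_of_isEmpty]
  exact dvd_zero 2

end

section
variable {C : ∀ (G : Type u) [Group G], Prop}

theorem wr_M (hC : SecCl C) (hW : ∀ (G : Type u) [Group G], C G → C (Wr.WG 2 G))
    {k : Type v} [Field k] [IsAlgClosed k] [CharP k 2] :
    (WC C 2 k ↔ DvS C 2 (fun G _ => MP (G := G))) ∧
      (WC C 2 k ↔ DvR C 2 (fun G _ => MP (G := G))) := by
  have h1 : WC C 2 k → DvS C 2 (fun G _ => MP (G := G)) := by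
    intro h G _ _ hCG hG c hc
    have h2 := (wc_T2 hC).1 h G hCG hG c hc
    by_cases hr : IsConj c c⁻¹
    · exact (dv_TM hG hc hr).1 h2
    · exact dv_M_nonreal hc hr
  have h2 : DvS C 2 (fun G _ => MP (G := G)) → DvR C 2 (fun G _ => MP (G := G)) :=
    fun h G _ _ hCG hG c hc _ => h G hCG hG c hc
  have h3 : DvR C 2 (fun G _ => MP (G := G)) → WC C 2 k := by
    intro h
    refine (wr_T2 hC hW).2 ?_
    intro G _ _ hCG hG c hc hr
    exact (dv_TM hG hc (real_of_RatC hr)).2 (h G hCG hG c hc hr)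
  exact ⟨⟨h1, fun h => h3 (h2 h)⟩, ⟨fun h => h2 (h1 h), h3⟩⟩

end

end Pool.Agent.Lib.P0c8ca5.Rc
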